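import Pool.Agent.W97.MT.Stm

/-!
# The modular curve `X_0(24)`: statements of the independent parts

All functions are eta quotients: with `B = η(8z)⁴η(12z)²/(η(4z)²η(24z)⁴)`,
`A = B - 1 = η(2z)η(8z)²η(12z)⁹/(η(4z)³η(6z)³η(24z)⁶)` and
`C = B + 3 = η(4z)⁷η(6z)/(η(2z)³η(8z)²η(12z)η(24z)²)` the newform
`f = η(2z)η(4z)η(6z)η(12z) = q - q³ - 2q⁵ + …` of level `24` satisfies
`(dB/dz)² = (2πi f)² 4 A B C`, and `℘(F) = B + 2/3` with `g₂ = 52/3`, `g₃ = -280/27`.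
Values of `B` at the cusps: `3` at `0` and `1/2`, `-1` at `1/3` and `1/6`, `0` at `1/8`, `1` at
`1/12`, `-3` at `1/4`.
-/

set_option autoImplicit false

open UpperHalfPlane MatrixGroups CongruenceSubgroup Filter Topology

namespace Pool.Agent.Run7.h741.MH

open Pool.Agent.W97.MT (affCount ap)

/-- The curve `y² = x³ - x² - 4x + 4 = (x - 1)(x - 2)(x + 2)` (the modular curve `X_0(24)`). -/
def E24 : WeierstrassCurve ℤ := ⟨0, -1, 0, -4, 4⟩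

/-- TORS: the values of `℘` at the points of order four -/
def S_TORS : Prop := ∀ L : PeriodPair, L.g₂ = 52 / 3 → L.g₃ = -280 / 27 →
  ∀ u : ℂ, u ∉ L.lattice → (L.weierstrassP u = 11 / 3 ∨ L.weierstrassP u = -1 / 3) →
    2 * u ∉ L.lattice ∧ L.weierstrassP (2 * u) = 5 / 3 ∧ 4 * u ∈ L.lattice

/-- LAT: the lattice is rectangular -/
def S_LAT : Prop := ∃ (L : PeriodPair) (Op Om : ℝ), 0 < Op ∧ 0 < Om ∧
  L.g₂ = 52 / 3 ∧ L.g₃ = -280 / 27 ∧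
  ∀ w : ℂ, w ∈ L.lattice ↔ ∃ a b : ℤ, w = a * Op + b * Om * Complex.I

/-- CP: the constant principle on `X_0(24)`; the maps send `∞` to the cusps
`∞`, `0`, `1/2`, `1/8`, `1/12`, `1/20`, `1/9`, `11/18` (one for each class) -/
def S_CP : Prop := ∀ g : ℂ → ℂ, DifferentiableOn ℂ g {z : ℂ | 0 < z.im} →
  (∀ a b c d : ℤ, a * d - b * (24 * c) = 1 → ∀ z : ℂ, 0 < z.im →
    g ((a * z + b) / (24 * c * z + d)) = g z) →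
  (∃ B T : ℝ, ∀ z : ℂ, T < z.im → ‖g z‖ ≤ B) →
  (∃ B T : ℝ, 0 ≤ T ∧ ∀ z : ℂ, T < z.im → ‖g (-1 / (24 * z))‖ ≤ B) →
  (∃ B T : ℝ, 0 ≤ T ∧ ∀ z : ℂ, T < z.im → ‖g (-1 / (24 * z) + 1 / 2)‖ ≤ B) →
  (∃ B T : ℝ, 0 ≤ T ∧ ∀ z : ℂ, T < z.im → ‖g ((3 * z + 1) / (24 * z + 9))‖ ≤ B) →
  (∃ B T : ℝ, 0 ≤ T ∧ ∀ z : ℂ, T < z.im → ‖g (z / (12 * z + 1))‖ ≤ B) →
  (∃ B T : ℝ, 0 ≤ T ∧ ∀ z : ℂ, T < z.im → ‖g ((3 * z + 1) / (60 * z + 21))‖ ≤ B) →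
  (∃ B T : ℝ, 0 ≤ T ∧ ∀ z : ℂ, T < z.im → ‖g ((8 * z - 1) / (72 * z - 8))‖ ≤ B) →
  (∃ B T : ℝ, 0 ≤ T ∧ ∀ z : ℂ, T < z.im → ‖g ((8 * z - 1) / (72 * z - 8) + 1 / 2)‖ ≤ B) →
  ∃ c : ℂ, ∀ z : ℂ, 0 < z.im → g z = c

/-- HASSE: the coefficient of `q^p` modulo `p` -/
def S_HASSE : Prop := ∀ (p : ℕ) [Fact p.Prime], p ≠ 2 → ∀ φ ξ σ : PowerSeries (ZMod p),
  PowerSeries.constantCoeff ξ = 1 → PowerSeries.constantCoeff σ = -2 →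
  PowerSeries.X * PowerSeries.derivative (ZMod p) ξ - 2 * ξ = φ * σ →
  σ ^ 2 = 4 * ξ ^ 3 + 8 * PowerSeries.X ^ 2 * ξ ^ 2 - 12 * PowerSeries.X ^ 4 * ξ →
  PowerSeries.coeff (p - 1) φ = (ap E24 p : ZMod p)

/-- FOUR: four divides the number of points -/
def S_FOUR : Prop := ∀ (p : ℕ), p.Prime → p ≠ 2 → p ≠ 3 → 4 ∣ affCount E24 p + 1

/-- MIN: the point counts at the small primes -/
def S_MIN : Prop := affCount E24 2 = 2 ∧ affCount E24 3 = 4 ∧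
  ∀ p : ℕ, p.Prime → affCount E24 p ≤ 2 * p

/-- DIM: `dim S_2(Γ_0(24)) ≤ 1` in the form: a cusp form with `a_1 = 0` vanishes -/
def S_DIM : Prop := ∀ g : CuspForm (Gamma0 24 : Subgroup (GL (Fin 2) ℝ)) 2,
  (qExpansion 1 g).coeff 1 = 0 → ∀ z : ℍ, g z = 0

end Pool.Agent.Run7.h741.MH
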