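import Pool.Agent.Run7.h741.MH.Inst
import Pool.Agent.Run7.h135.P24.Dim
import Pool.Agent.Run7.h89.P24.Ap

/-!
The instance of level `24`.
-/

set_option autoImplicit false

open UpperHalfPlane MatrixGroups CongruenceSubgroup Filter Topology MeasureTheory
open scoped ModularForm Pointwise

namespace Pool.Agent.Run7.h741.MH

open Pool.Agent.W97.MT (ap)

lemma ap_bad {l : ℕ} (hl : l.Prime) (h : l ∣ 24) : |(ap E24 l : ℝ)| ≤ 1 := by
  obtain ⟨m2, m3, mb⟩ := Run7.h209.P24.h_min
  have h1 : l ∣ 2 ^ 3 * 3 := by simpa using h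
  rcases (Nat.Prime.dvd_mul hl).1 h1 with h2 | h2
  · have : l = 2 := (Nat.prime_dvd_prime_iff_eq hl Nat.prime_two).1 (hl.dvd_of_dvd_pow h2)
    subst this
    have : ap E24 2 = 0 := by unfold ap; rw [m2]; rfl
    rw [this]; norm_num
  · have : l = 3 := (Nat.prime_dvd_prime_iff_eq hl Nat.prime_three).1 h2
    subst this
    have : ap E24 3 = -1 := by unfold ap; rw [m3]; rfl
    rw [this]; norm_num

lemma ap_good {l : ℕ} (hl : l.Prime) (h : ¬ l ∣ 24) :
    |(ap E24 l : ℝ)| ≤ 2 * Real.sqrt l := by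
  have h1 := Run7.h89.P24.ap_good hl h
  rw [Run7.h89.P24.WT_one] at h1
  exact h1

/-- the facts on the newform of level `24` -/
theorem facts_24 : Run7.h555.P15.Facts 24 form24 (ap E24) :=
  facts24 Run7.h135.P24.t_DIM (fun _ hl h => ap_good hl h) (fun _ hl h => ap_bad hl h)

end Pool.Agent.Run7.h741.MH
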