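import Pool.Agent.Run7.h741.MH.Half
import Pool.Agent.W97.MT.AL

/-!
The transformations of the eta products on `X_0(24)` under the normaliser.
-/

set_option autoImplicit false

open UpperHalfPlane MatrixGroups CongruenceSubgroup Filter Topology
open scoped ModularForm Pointwise

namespace Pool.Agent.Run7.h741.MH

open Pool.Agent.W97.TW
open Pool.Agent.W97.MT (qq tt tt_ne qq_ne tt_pow norm_qq norm_qq_lt eta_mul eta_one G_mul Q_ne
  Q_ne_pow G_ne im_mul ze_dvd I4 z_ne)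

section w24

variable {z : ℂ} (hz : 0 < z.im)
include hz

lemma w24_pos : 0 < (-1 / (24 * z) : ℂ).im := by
  have h := (im_moebius (a := 0) (b := -1) (c := 1) (d := 0) (by norm_num)
    (im_mul hz 24 (by norm_num))).1
  simpa using h

lemma w24_G : G (2 * (-1 / (24 * z))) = -Complex.I * (12 * z) * G (12 * z) ∧
    G (4 * (-1 / (24 * z))) = -Complex.I * (6 * z) * G (6 * z) ∧
    G (6 * (-1 / (24 * z))) = -Complex.I * (4 * z) * G (4 * z) ∧
    G (8 * (-1 / (24 * z))) = -Complex.I * (3 * z) * G (3 * z) ∧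
    G (12 * (-1 / (24 * z))) = -Complex.I * (2 * z) * G (2 * z) ∧
    G (24 * (-1 / (24 * z))) = -Complex.I * z * G z := by
  have h0 := z_ne hz
  refine ⟨?_, ?_, ?_, ?_, ?_, ?_⟩
  · rw [show (2 : ℂ) * (-1 / (24 * z)) = -1 / (12 * z) by field_simp; norm_num]
    exact G_S (im_mul hz 12 (by norm_num))
  · rw [show (4 : ℂ) * (-1 / (24 * z)) = -1 / (6 * z) by field_simp; norm_num]
    exact G_S (im_mul hz 6 (by norm_num))
  · rw [show (6 : ℂ) * (-1 / (24 * z)) = -1 / (4 * z) by field_simp; norm_num]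
    exact G_S (im_mul hz 4 (by norm_num))
  · rw [show (8 : ℂ) * (-1 / (24 * z)) = -1 / (3 * z) by field_simp; norm_num]
    exact G_S (im_mul hz 3 (by norm_num))
  · rw [show (12 : ℂ) * (-1 / (24 * z)) = -1 / (2 * z) by field_simp; norm_num]
    exact G_S (im_mul hz 2 (by norm_num))
  · rw [show (24 : ℂ) * (-1 / (24 * z)) = -1 / z by field_simp]
    exact G_S hz

lemma ff_w24 : ff (-1 / (24 * z)) ^ 2 = (24 * z ^ 2) ^ 2 * ff z ^ 2 := by
  obtain ⟨e2, e4, e6, e8, e12, e24⟩ := w24_G hz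
  rw [ff_sq, ff_sq]
  unfold Gs
  simp only [zpow_one, zpow_zero, mul_one]
  rw [e2, e4, e6, e12]
  linear_combination (576 * z ^ 4 * G (2 * z) * G (4 * z) * G (6 * z) * G (12 * z)) * I4

lemma w24_Q : G z = tt z ^ 2 * Q (qq z) ^ 2 ∧ G (2 * z) = tt z ^ 4 * Q (qq z ^ 2) ^ 2 ∧
    G (3 * z) = tt z ^ 6 * Q (qq z ^ 3) ^ 2 ∧ G (4 * z) = tt z ^ 8 * Q (qq z ^ 4) ^ 2 ∧
    G (6 * z) = tt z ^ 12 * Q (qq z ^ 6) ^ 2 ∧ G (12 * z) = tt z ^ 24 * Q (qq z ^ 12) ^ 2 := by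
  have g1 := G_mul 1 z
  have g2 := G_mul 2 z
  have g3 := G_mul 3 z
  have g4 := G_mul 4 z
  have g6 := G_mul 6 z
  have g12 := G_mul 12 z
  push_cast at g1 g2 g3 g4 g6 g12
  rw [one_mul, pow_one] at g1
  exact ⟨g1, g2, g3, g4, g6, g12⟩

lemma w24_Qne : Q (qq z) ≠ 0 ∧ Q (qq z ^ 2) ≠ 0 ∧ Q (qq z ^ 3) ≠ 0 ∧ Q (qq z ^ 4) ≠ 0 ∧
    Q (qq z ^ 6) ≠ 0 ∧ Q (qq z ^ 12) ≠ 0 := by
  have hq := norm_qq_lt hz
  exact ⟨Q_ne hq, Q_ne_pow hq (by norm_num), Q_ne_pow hq (by norm_num),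
    Q_ne_pow hq (by norm_num), Q_ne_pow hq (by norm_num), Q_ne_pow hq (by norm_num)⟩

lemma X1_w24 : X1 (-1 / (24 * z)) = 3 * ((Q (qq z ^ 6) ^ 2)⁻¹ * Q (qq z ^ 3) ^ 4 *
    Q (qq z ^ 2) ^ 2 * (Q (qq z) ^ 4)⁻¹) := by
  obtain ⟨e2, e4, e6, e8, e12, e24⟩ := w24_G hz
  obtain ⟨g1, g2, g3, g4, g6, g12⟩ := w24_Q hz
  obtain ⟨n1, n2, n3, n4, n6, n12⟩ := w24_Qne hz
  have h0 := z_ne hz
  have ht := tt_ne z
  have hI : Complex.I ≠ 0 := Complex.I_ne_zero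
  rw [X1_eq]
  unfold Gs
  rw [e2, e4, e6, e8, e12, e24, g1, g2, g3, g6, zpow_neg_one, zpow_one, zpow_neg]
  norm_cast
  generalize Q (qq z) = q1 at *
  generalize Q (qq z ^ 2) = q2 at *
  generalize Q (qq z ^ 3) = q3 at *
  generalize Q (qq z ^ 6) = q6 at *
  generalize tt z = t at *
  push_cast
  simp only [pow_zero, one_mul, mul_one]
  field_simp
  ring_nf

lemma AA_w24 : AA (-1 / (24 * z)) ^ 2 = 4 * (Q (qq z ^ 12) * (Q (qq z ^ 6) ^ 3)⁻¹ *
    (Q (qq z ^ 4) ^ 3)⁻¹ * Q (qq z ^ 3) ^ 2 * Q (qq z ^ 2) ^ 9 * (Q (qq z) ^ 6)⁻¹) ^ 2 := by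
  obtain ⟨e2, e4, e6, e8, e12, e24⟩ := w24_G hz
  obtain ⟨g1, g2, g3, g4, g6, g12⟩ := w24_Q hz
  obtain ⟨n1, n2, n3, n4, n6, n12⟩ := w24_Qne hz
  have h0 := z_ne hz
  have ht := tt_ne z
  have hI : Complex.I ≠ 0 := Complex.I_ne_zero
  rw [AA_sq]
  unfold Gs
  rw [e2, e4, e6, e8, e12, e24, g1, g2, g3, g4, g6, g12, zpow_one, zpow_neg, zpow_neg, zpow_neg]
  norm_cast
  generalize Q (qq z) = q1 at *
  generalize Q (qq z ^ 2) = q2 at *
  generalize Q (qq z ^ 3) = q3 at *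
  generalize Q (qq z ^ 4) = q4 at *
  generalize Q (qq z ^ 6) = q6 at *
  generalize Q (qq z ^ 12) = q12 at *
  generalize tt z = t at *
  push_cast
  field_simp
  ring_nf

lemma CC_w24 : CC (-1 / (24 * z)) ^ 2 = 36 * ((Q (qq z ^ 12) ^ 3)⁻¹ * Q (qq z ^ 6) ^ 7 *
    Q (qq z ^ 4) * (Q (qq z ^ 3) ^ 2)⁻¹ * (Q (qq z ^ 2))⁻¹ * (Q (qq z) ^ 2)⁻¹) ^ 2 := by
  obtain ⟨e2, e4, e6, e8, e12, e24⟩ := w24_G hz
  obtain ⟨g1, g2, g3, g4, g6, g12⟩ := w24_Q hz
  obtain ⟨n1, n2, n3, n4, n6, n12⟩ := w24_Qne hz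
  have h0 := z_ne hz
  have ht := tt_ne z
  have hI : Complex.I ≠ 0 := Complex.I_ne_zero
  rw [CC_sq]
  unfold Gs
  rw [e2, e4, e6, e8, e12, e24, g1, g2, g3, g4, g6, g12, zpow_neg_one, zpow_one, zpow_neg,
    zpow_neg, zpow_neg]
  norm_cast
  generalize Q (qq z) = q1 at *
  generalize Q (qq z ^ 2) = q2 at *
  generalize Q (qq z ^ 3) = q3 at *
  generalize Q (qq z ^ 4) = q4 at *
  generalize Q (qq z ^ 6) = q6 at *
  generalize Q (qq z ^ 12) = q12 at *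
  generalize tt z = t at *
  push_cast
  field_simp
  ring_nf

end w24

section w3

variable {z : ℂ} (hz : 0 < z.im)
include hz

lemma w3_aux : (8 * z + 3 : ℂ) ≠ 0 := by
  intro h
  have := congrArg Complex.im h
  simp at this
  exact hz.ne' this

lemma w3_pos : 0 < ((3 * z + 1) / (24 * z + 9) : ℂ).im := by
  have h := (im_moebius (a := 1) (b := 1) (c := 8) (d := 9) (by norm_num)
    (im_mul hz 3 (by norm_num))).1
  push_cast at h
  convert h using 2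
  congr 1 <;> ring

lemma w3_G : G (2 * ((3 * z + 1) / (24 * z + 9))) = ze ^ (10 : ℤ) * (24 * z + 9) * G (6 * z) ∧
    G (4 * ((3 * z + 1) / (24 * z + 9))) = ze ^ (2 : ℤ) * (24 * z + 9) * G (12 * z) ∧
    G (6 * ((3 * z + 1) / (24 * z + 9))) = ze ^ (0 : ℤ) * (8 * z + 3) * G (2 * z) ∧
    G (8 * ((3 * z + 1) / (24 * z + 9))) = ze ^ (7 : ℤ) * (24 * z + 9) * G (24 * z) ∧
    G (12 * ((3 * z + 1) / (24 * z + 9))) = ze ^ (0 : ℤ) * (8 * z + 3) * G (4 * z) ∧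
    G (24 * ((3 * z + 1) / (24 * z + 9))) = ze ^ (3 : ℤ) * (8 * z + 3) * G (8 * z) := by
  have h0 := w3_aux hz
  have h7 : (24 * z + 9 : ℂ) = 3 * (8 * z + 3) := by ring
  have e2 := G_moebius (a := 1) (b := 2) (c := 4) (d := 9) (by norm_num)
    (im_mul hz 6 (by norm_num))
  have e4 := G_moebius (a := 1) (b := 4) (c := 2) (d := 9) (by norm_num)
    (im_mul hz 12 (by norm_num))
  have e6 := G_moebius (a := 3) (b := 2) (c := 4) (d := 3) (by norm_num)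
    (im_mul hz 2 (by norm_num))
  have e8 := G_moebius (a := 1) (b := 8) (c := 1) (d := 9) (by norm_num)
    (im_mul hz 24 (by norm_num))
  have e12 := G_moebius (a := 3) (b := 4) (c := 2) (d := 3) (by norm_num)
    (im_mul hz 4 (by norm_num))
  have e24 := G_moebius (a := 3) (b := 8) (c := 1) (d := 3) (by norm_num)
    (im_mul hz 8 (by norm_num))
  rw [ze_congr (m := kap (1 : ℤ) 2 4 9) (n := 10) (by norm_num [kap])] at e2
  rw [ze_congr (m := kap (1 : ℤ) 4 2 9) (n := 2) (by norm_num [kap])] at e4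
  rw [ze_congr (m := kap (3 : ℤ) 2 4 3) (n := 0) (by norm_num [kap])] at e6
  rw [ze_congr (m := kap (1 : ℤ) 8 1 9) (n := 7) (by norm_num [kap])] at e8
  rw [ze_congr (m := kap (3 : ℤ) 4 2 3) (n := 0) (by norm_num [kap])] at e12
  rw [ze_congr (m := kap (3 : ℤ) 8 1 3) (n := 3) (by norm_num [kap])] at e24
  push_cast at e2 e4 e6 e8 e12 e24
  refine ⟨?_, ?_, ?_, ?_, ?_, ?_⟩
  · rw [show 2 * ((3 * z + 1) / (24 * z + 9)) = (1 * (6 * z) + 2) / (4 * (6 * z) + 9) by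
      rw [← mul_div_assoc]; congr 1 <;> ring, e2]; ring
  · rw [show 4 * ((3 * z + 1) / (24 * z + 9)) = (1 * (12 * z) + 4) / (2 * (12 * z) + 9) by
      rw [← mul_div_assoc]; congr 1 <;> ring, e4]; ring
  · rw [show 6 * ((3 * z + 1) / (24 * z + 9)) = (3 * (2 * z) + 2) / (4 * (2 * z) + 3) by
      rw [h7, ← mul_div_assoc, div_eq_div_iff (mul_ne_zero (by norm_num) h0)
        (by rw [show 4 * (2 * z) + 3 = 8 * z + 3 by ring]; exact h0)]
      ring, e6]; ring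
  · rw [show 8 * ((3 * z + 1) / (24 * z + 9)) = (1 * (24 * z) + 8) / (1 * (24 * z) + 9) by
      rw [← mul_div_assoc]; congr 1 <;> ring, e8]; ring
  · rw [show 12 * ((3 * z + 1) / (24 * z + 9)) = (3 * (4 * z) + 4) / (2 * (4 * z) + 3) by
      rw [h7, ← mul_div_assoc, div_eq_div_iff (mul_ne_zero (by norm_num) h0)
        (by rw [show 2 * (4 * z) + 3 = 8 * z + 3 by ring]; exact h0)]
      ring, e12]; ring
  · rw [show 24 * ((3 * z + 1) / (24 * z + 9)) = (3 * (8 * z) + 8) / (1 * (8 * z) + 3) by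
      rw [h7, ← mul_div_assoc, div_eq_div_iff (mul_ne_zero (by norm_num) h0)
        (by rw [show 1 * (8 * z) + 3 = 8 * z + 3 by ring]; exact h0)]
      ring, e24]; ring

lemma Gs_w3 (s2 s4 s6 s8 s12 s24 : ℤ) :
    Gs s2 s4 s6 s8 s12 s24 ((3 * z + 1) / (24 * z + 9)) =
      ze ^ (10 * s2 + 2 * s4 + 7 * s8 + 3 * s24) * 3 ^ (s2 + s4 + s8) *
      (8 * z + 3) ^ (s2 + s4 + s6 + s8 + s12 + s24) * Gs s6 s12 s2 s24 s4 s8 z := by
  obtain ⟨e2, e4, e6, e8, e12, e24⟩ := w3_G hz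
  have h0 := w3_aux hz
  unfold Gs
  rw [e2, e4, e6, e8, e12, e24, show (24 * z + 9 : ℂ) = 3 * (8 * z + 3) by ring]
  simp only [mul_zpow, zpow_add₀ h0, zpow_add₀ ze_ne, zpow_add₀ (by norm_num : (3 : ℂ) ≠ 0),
    zpow_mul, one_zpow, zpow_zero]
  ring

lemma X1_w3 : X1 ((3 * z + 1) / (24 * z + 9)) = -3 * (X1 z)⁻¹ := by
  rw [X1_eq, X1_eq, Gs_w3 hz, ze_congr (n := 6) (by norm_num)]
  have h6 : ze ^ (6 : ℤ) = -1 := by
    rw [show (6 : ℤ) = 3 * 2 by norm_num, zpow_mul, ze_3,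
      show Complex.I ^ (2 : ℤ) = Complex.I ^ 2 from zpow_ofNat _ 2, Complex.I_sq]
  rw [h6]
  unfold Gs
  simp only [zpow_zero, one_mul, mul_one, mul_inv, ← zpow_neg]
  norm_num

lemma AA_w3 : AA ((3 * z + 1) / (24 * z + 9)) ^ 2 = CC z ^ 2 * (X1 z ^ 2)⁻¹ := by
  rw [AA_sq, CC_sq, X1_eq, Gs_w3 hz, ze_dvd (by norm_num), show (1 + -3 + 2 : ℤ) = 0 by norm_num,
    show (1 + -3 + -3 + 2 + 9 + -6 : ℤ) = 0 by norm_num, zpow_zero, zpow_zero]
  have n2 := G_ne (im_mul hz 2 (by norm_num))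
  have n4 := G_ne (im_mul hz 4 (by norm_num))
  have n6 := G_ne (im_mul hz 6 (by norm_num))
  have n8 := G_ne (im_mul hz 8 (by norm_num))
  have n12 := G_ne (im_mul hz 12 (by norm_num))
  have n24 := G_ne (im_mul hz 24 (by norm_num))
  push_cast at n2 n4 n6 n8 n12 n24
  unfold Gs
  simp only [zpow_neg, zpow_zero, zpow_one, one_mul, mul_one]
  norm_cast
  field_simp

lemma CC_w3 : CC ((3 * z + 1) / (24 * z + 9)) ^ 2 = 9 * (AA z ^ 2 * (X1 z ^ 2)⁻¹) := by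
  rw [AA_sq, CC_sq, X1_eq, Gs_w3 hz, ze_dvd (by norm_num), show (-3 + 7 + -2 : ℤ) = 2 by norm_num,
    show (-3 + 7 + 1 + -2 + -1 + -2 : ℤ) = 0 by norm_num, zpow_zero,
    show (3 : ℂ) ^ (2 : ℤ) = 9 by norm_num]
  have n2 := G_ne (im_mul hz 2 (by norm_num))
  have n4 := G_ne (im_mul hz 4 (by norm_num))
  have n6 := G_ne (im_mul hz 6 (by norm_num))
  have n8 := G_ne (im_mul hz 8 (by norm_num))
  have n12 := G_ne (im_mul hz 12 (by norm_num))
  have n24 := G_ne (im_mul hz 24 (by norm_num))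
  push_cast at n2 n4 n6 n8 n12 n24
  unfold Gs
  simp only [zpow_neg, zpow_zero, zpow_one, one_mul, mul_one]
  norm_cast
  field_simp

lemma ff_w3 : ff ((3 * z + 1) / (24 * z + 9)) ^ 2 = (3 * (8 * z + 3) ^ 2) ^ 2 * ff z ^ 2 := by
  rw [ff_sq, ff_sq, Gs_w3 hz, ze_dvd (by norm_num)]
  unfold Gs
  simp only [zpow_zero, zpow_one, one_mul, mul_one]
  norm_cast
  ring

end w3

section wv

variable {z : ℂ} (hz : 0 < z.im)
include hz

lemma wv_aux : (12 * z + 1 : ℂ) ≠ 0 := by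
  intro h
  have := congrArg Complex.im h
  simp at this
  exact hz.ne' this

lemma wv_pos : 0 < (z / (12 * z + 1) : ℂ).im := by
  have h := (im_moebius (a := 1) (b := 0) (c := 12) (d := 1) (by norm_num) hz).1
  push_cast at h
  convert h using 2
  congr 1
  ring

lemma wv_G : G (2 * (z / (12 * z + 1))) = ze ^ (6 : ℤ) * (12 * z + 1) * G (2 * z) ∧
    G (4 * (z / (12 * z + 1))) = ze ^ (9 : ℤ) * (12 * z + 1) * G (4 * z) ∧
    G (6 * (z / (12 * z + 1))) = ze ^ (10 : ℤ) * (12 * z + 1) * G (6 * z) ∧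
    G (8 * (z / (12 * z + 1))) = ze ^ (10 : ℤ) * ((12 * z + 1) / 2) * G (2 * z + 1 / 2) ∧
    G (12 * (z / (12 * z + 1))) = ze ^ (11 : ℤ) * (12 * z + 1) * G (12 * z) ∧
    G (24 * (z / (12 * z + 1))) = ze ^ (11 : ℤ) * ((12 * z + 1) / 2) * G (6 * z + 1 / 2) := by
  have h0 := wv_aux hz
  have p2 := im_mul hz 2 (by norm_num)
  have p6 := im_mul hz 6 (by norm_num)
  push_cast at p2 p6
  have e2 := G_moebius (a := 1) (b := 0) (c := 6) (d := 1) (by norm_num)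
    (im_mul hz 2 (by norm_num))
  have e4 := G_moebius (a := 1) (b := 0) (c := 3) (d := 1) (by norm_num)
    (im_mul hz 4 (by norm_num))
  have e6 := G_moebius (a := 1) (b := 0) (c := 2) (d := 1) (by norm_num)
    (im_mul hz 6 (by norm_num))
  have e12 := G_moebius (a := 1) (b := 0) (c := 1) (d := 1) (by norm_num)
    (im_mul hz 12 (by norm_num))
  have e8 := G_moebius (a := 2) (b := -1) (c := 3) (d := -1) (w := 2 * z + 1 / 2) (by norm_num)
    (by simpa using hz)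
  have e24 := G_moebius (a := 2) (b := -1) (c := 1) (d := 0) (w := 6 * z + 1 / 2) (by norm_num)
    (by simpa using hz)
  rw [ze_congr (m := kap (1 : ℤ) 0 6 1) (n := 6) (by norm_num [kap])] at e2
  rw [ze_congr (m := kap (1 : ℤ) 0 3 1) (n := 9) (by norm_num [kap])] at e4
  rw [ze_congr (m := kap (1 : ℤ) 0 2 1) (n := 10) (by norm_num [kap])] at e6
  rw [ze_congr (m := kap (1 : ℤ) 0 1 1) (n := 11) (by norm_num [kap])] at e12
  rw [ze_congr (m := kap (2 : ℤ) (-1) 3 (-1)) (n := 10) (by norm_num [kap])] at e8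
  rw [ze_congr (m := kap (2 : ℤ) (-1) 1 0) (n := 11) (by norm_num [kap])] at e24
  push_cast at e2 e4 e6 e8 e12 e24
  refine ⟨?_, ?_, ?_, ?_, ?_, ?_⟩
  · rw [show 2 * (z / (12 * z + 1)) = (1 * (2 * z) + 0) / (6 * (2 * z) + 1) by
      rw [← mul_div_assoc]; congr 1 <;> ring, e2]; ring
  · rw [show 4 * (z / (12 * z + 1)) = (1 * (4 * z) + 0) / (3 * (4 * z) + 1) by
      rw [← mul_div_assoc]; congr 1 <;> ring, e4]; ring
  · rw [show 6 * (z / (12 * z + 1)) = (1 * (6 * z) + 0) / (2 * (6 * z) + 1) by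
      rw [← mul_div_assoc]; congr 1 <;> ring, e6]; ring
  · rw [show 8 * (z / (12 * z + 1)) = (2 * (2 * z + 1 / 2) + -1) / (3 * (2 * z + 1 / 2) + -1) by
      rw [show 3 * (2 * z + 1 / 2) + -1 = (12 * z + 1) / 2 by ring,
        show 2 * (2 * z + 1 / 2) + -1 = 4 * z by ring]
      field_simp
      ring, e8]; ring
  · rw [show 12 * (z / (12 * z + 1)) = (1 * (12 * z) + 0) / (1 * (12 * z) + 1) by
      rw [← mul_div_assoc]; congr 1 <;> ring, e12]; ring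
  · rw [show 24 * (z / (12 * z + 1)) = (2 * (6 * z + 1 / 2) + -1) / (1 * (6 * z + 1 / 2) + 0) by
      rw [show 1 * (6 * z + 1 / 2) + 0 = (12 * z + 1) / 2 by ring,
        show 2 * (6 * z + 1 / 2) + -1 = 12 * z by ring]
      field_simp
      ring, e24]; ring

/-- the two half translates -/
lemma wv_half : G (2 * z + 1 / 2) = kh * (G (4 * z) ^ 3 * (G (2 * z) * G (8 * z))⁻¹) ∧
    G (6 * z + 1 / 2) = kh * (G (12 * z) ^ 3 * (G (6 * z) * G (24 * z))⁻¹) := by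
  have p2 := im_mul hz 2 (by norm_num)
  have p6 := im_mul hz 6 (by norm_num)
  push_cast at p2 p6
  have n2 := G_ne (im_mul hz 2 (by norm_num))
  have n6 := G_ne (im_mul hz 6 (by norm_num))
  have n8 := G_ne (im_mul hz 8 (by norm_num))
  have n24 := G_ne (im_mul hz 24 (by norm_num))
  push_cast at n2 n6 n8 n24
  have e2 := G_half p2
  have e6 := G_half p6
  rw [show 4 * (2 * z) = 8 * z by ring, show 2 * (2 * z) = 4 * z by ring] at e2
  rw [show 4 * (6 * z) = 24 * z by ring, show 2 * (6 * z) = 12 * z by ring] at e6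
  constructor
  · rw [← mul_assoc, eq_mul_inv_iff_mul_eq₀ (mul_ne_zero n2 n8)]
    exact e2
  · rw [← mul_assoc, eq_mul_inv_iff_mul_eq₀ (mul_ne_zero n6 n24)]
    exact e6

lemma Gs_wv (s2 s4 s6 s8 s12 s24 : ℤ) :
    Gs s2 s4 s6 s8 s12 s24 (z / (12 * z + 1)) =
      ze ^ (6 * s2 + 9 * s4 + 10 * s6 + 10 * s8 + 11 * s12 + 11 * s24) * kh ^ (s8 + s24) *
      (2⁻¹) ^ (s8 + s24) * (12 * z + 1) ^ (s2 + s4 + s6 + s8 + s12 + s24) *
      Gs (s2 - s8) (s4 + 3 * s8) (s6 - s24) (-s8) (s12 + 3 * s24) (-s24) z := by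
  obtain ⟨e2, e4, e6, e8, e12, e24⟩ := wv_G hz
  obtain ⟨f8, f24⟩ := wv_half hz
  have h0 := wv_aux hz
  have n2 := G_ne (im_mul hz 2 (by norm_num))
  have n4 := G_ne (im_mul hz 4 (by norm_num))
  have n6 := G_ne (im_mul hz 6 (by norm_num))
  have n8 := G_ne (im_mul hz 8 (by norm_num))
  have n12 := G_ne (im_mul hz 12 (by norm_num))
  have n24 := G_ne (im_mul hz 24 (by norm_num))
  push_cast at n2 n4 n6 n8 n12 n24
  unfold Gs
  rw [e2, e4, e6, e8, e12, e24, f8, f24, sub_eq_add_neg s2, sub_eq_add_neg s6]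
  have t1 : ∀ (x : ℂ) (m : ℤ), (x ^ 3) ^ m = x ^ (3 * m) := fun x m => by
    rw [zpow_mul]; norm_cast
  simp only [mul_zpow, div_eq_mul_inv, zpow_add₀ h0, zpow_add₀ ze_ne, zpow_add₀ kh_ne,
    zpow_add₀ (by norm_num : (2⁻¹ : ℂ) ≠ 0), zpow_add₀ n2, zpow_add₀ n4, zpow_add₀ n6,
    zpow_add₀ n8, zpow_add₀ n12, zpow_add₀ n24, zpow_mul, inv_zpow, zpow_neg, mul_inv]
  simp only [zpow_ofNat]
  ring

omit hz in
lemma kh_zpow (n : ℤ) : kh ^ (2 * n) = ze ^ n := by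
  rw [zpow_mul, show kh ^ (2 : ℤ) = kh ^ 2 from zpow_ofNat _ 2, kh_sq]

omit hz in
lemma etas_ne' {z : ℂ} (hz : 0 < z.im) : ModularForm.eta (2 * z) ≠ 0 ∧
    ModularForm.eta (4 * z) ≠ 0 ∧ ModularForm.eta (6 * z) ≠ 0 ∧ ModularForm.eta (8 * z) ≠ 0 ∧
    ModularForm.eta (12 * z) ≠ 0 ∧ ModularForm.eta (24 * z) ≠ 0 := by
  have n2 := G_ne (im_mul hz 2 (by norm_num))
  have n4 := G_ne (im_mul hz 4 (by norm_num))
  have n6 := G_ne (im_mul hz 6 (by norm_num))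
  have n8 := G_ne (im_mul hz 8 (by norm_num))
  have n12 := G_ne (im_mul hz 12 (by norm_num))
  have n24 := G_ne (im_mul hz 24 (by norm_num))
  push_cast at n2 n4 n6 n8 n12 n24
  unfold G at n2 n4 n6 n8 n12 n24
  exact ⟨fun h => n2 (by rw [h]; norm_num), fun h => n4 (by rw [h]; norm_num),
    fun h => n6 (by rw [h]; norm_num), fun h => n8 (by rw [h]; norm_num),
    fun h => n12 (by rw [h]; norm_num), fun h => n24 (by rw [h]; norm_num)⟩

lemma X1_wv : X1 (z / (12 * z + 1)) = CC z * (AA z)⁻¹ := by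
  obtain ⟨n2, n4, n6, n8, n12, n24⟩ := etas_ne' hz
  rw [X1_eq, Gs_wv hz, show (2 + -2 : ℤ) = 0 by norm_num, zpow_zero, zpow_zero,
    show (0 + -1 + 0 + 2 + 1 + -2 : ℤ) = 0 by norm_num, zpow_zero, ze_dvd (by norm_num)]
  unfold Gs G CC AA
  norm_num
  norm_cast
  generalize ModularForm.eta (2 * z) = q2 at *
  generalize ModularForm.eta (4 * z) = q4 at *
  generalize ModularForm.eta (6 * z) = q6 at *
  generalize ModularForm.eta (8 * z) = q8 at *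
  generalize ModularForm.eta (12 * z) = q12 at *
  generalize ModularForm.eta (24 * z) = q24 at *
  field_simp

lemma AA_wv : AA (z / (12 * z + 1)) ^ 2 = 16 * (AA z ^ 2)⁻¹ := by
  obtain ⟨n2, n4, n6, n8, n12, n24⟩ := etas_ne' hz
  rw [AA_sq, Gs_wv hz, show (2 + -6 : ℤ) = 2 * (-2) by norm_num, kh_zpow,
    show (1 + -3 + -3 + 2 + 9 + -6 : ℤ) = 0 by norm_num, zpow_zero, ← zpow_add₀ ze_ne,
    ze_dvd (by norm_num)]
  unfold Gs G AA
  norm_num
  norm_cast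
  generalize ModularForm.eta (2 * z) = q2 at *
  generalize ModularForm.eta (4 * z) = q4 at *
  generalize ModularForm.eta (6 * z) = q6 at *
  generalize ModularForm.eta (8 * z) = q8 at *
  generalize ModularForm.eta (12 * z) = q12 at *
  generalize ModularForm.eta (24 * z) = q24 at *
  field_simp

lemma CC_wv : CC (z / (12 * z + 1)) ^ 2 = 16 * (X1 z ^ 2 * (AA z ^ 2)⁻¹) := by
  obtain ⟨n2, n4, n6, n8, n12, n24⟩ := etas_ne' hz
  rw [CC_sq, Gs_wv hz, show (-2 + -2 : ℤ) = 2 * (-2) by norm_num, kh_zpow,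
    show (-3 + 7 + 1 + -2 + -1 + -2 : ℤ) = 0 by norm_num, zpow_zero, ← zpow_add₀ ze_ne,
    ze_dvd (by norm_num)]
  unfold Gs G X1 AA
  norm_num
  norm_cast
  generalize ModularForm.eta (2 * z) = q2 at *
  generalize ModularForm.eta (4 * z) = q4 at *
  generalize ModularForm.eta (6 * z) = q6 at *
  generalize ModularForm.eta (8 * z) = q8 at *
  generalize ModularForm.eta (12 * z) = q12 at *
  generalize ModularForm.eta (24 * z) = q24 at *
  field_simp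

lemma ff_wv : ff (z / (12 * z + 1)) ^ 2 = ((12 * z + 1) ^ 2) ^ 2 * ff z ^ 2 := by
  rw [ff_sq, ff_sq, Gs_wv hz, show (0 + 0 : ℤ) = 0 by norm_num, zpow_zero, zpow_zero,
    ze_dvd (by norm_num)]
  norm_num
  left
  norm_cast
  ring

end wv

end Pool.Agent.Run7.h741.MH
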