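import Pool.Agent.Run7.h741.MH.Form
import Pool.Agent.W97.MT.Coef
import Pool.Agent.W97.MT.Dim
import Pool.Agent.W97.TW.Lfun
import Pool.Agent.W97.TW.Hecke

/-!
Coefficients and Hecke eigenvalues.
-/

set_option autoImplicit false

open UpperHalfPlane MatrixGroups CongruenceSubgroup Filter Topology
open scoped ModularForm Pointwise

namespace Pool.Agent.Run7.h741.MH

open Pool.Agent.W97.TW
open Pool.Agent.Run7.h741.MF (hqe num)
open Pool.Agent.W97.MT (qq qq_ne norm_qq norm_qq_lt im_mul z_ne H_open QV iI iI_pos iI_eventually tendsto_qq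
  S_QEXP S_INJ S_ODE S_SUB hasDerivAt_qq tpi_ne line_im line_re inv_I im_aux exists_qq dslope_analytic
  qParam_one cusp_expansion ap Tr)

section coef

variable {P : PowerSeries ℤ} (rP : W97.MT.Rep phi P)
include rP

lemma coeff_f24 (n : ℕ) : (qExpansion 1 form24).coeff n =
    ((PowerSeries.coeff n (PowerSeries.X * P) : ℤ) : ℂ) := by
  have h1 := ModularFormClass.qExpansion_coeff_unique
    (Γ := (Gamma0 24 : Subgroup (GL (Fin 2) ℝ))) (k := 2)
    (c := fun n => ((PowerSeries.coeff n (PowerSeries.X * P) : ℤ) : ℂ)) one_pos one_mem0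
    (f := form24) (fun τ => by
      have h2 : HasSum (fun n : ℕ => PowerSeries.coeff n (PowerSeries.map (Int.castRingHom ℂ)
        (PowerSeries.X * P)) * qq τ ^ n) (qq τ * phi (qq τ)) :=
          (W97.MT.Rep.X.mul rP) (qq τ) (norm_qq_lt τ.im_pos)
      simp only [PowerSeries.coeff_map, eq_intCast] at h2
      rw [form24_apply, ff_q]
      have h3 : Function.Periodic.qParam 1 (τ : ℂ) = qq τ := qParam_one τ
      rw [h3]
      simpa only [smul_eq_mul] using h2) n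
  exact h1.symm

lemma coeff_one (hP0 : PowerSeries.coeff 0 P = 1) : (qExpansion 1 form24).coeff 1 = 1 := by
  rw [coeff_f24 rP 1, show (1 : ℕ) = 0 + 1 by rfl, PowerSeries.coeff_succ_X_mul, hP0]
  norm_num

/-- the space of cusp forms is one-dimensional -/
lemma dim_one (hdim : S_DIM) (hP0 : PowerSeries.coeff 0 P = 1)
    (g : CuspForm (Gamma0 24 : Subgroup (GL (Fin 2) ℝ)) 2) : ∃ c : ℂ, ∀ z : ℍ, g z = c * form24 z := by
  have h1 := coeff_one rP hP0
  obtain ⟨c, hc⟩ : ∃ c : ℂ, c = (qExpansion 1 g).coeff 1 := ⟨_, rfl⟩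
  refine ⟨c, fun z => ?_⟩
  obtain ⟨G, hG⟩ : ∃ G : CuspForm (Gamma0 24 : Subgroup (GL (Fin 2) ℝ)) 2, G = g - c • form24 := ⟨_, rfl⟩
  have hGf : (G : ℍ → ℂ) = (g : ℍ → ℂ) - c • (form24 : ℍ → ℂ) := by
    rw [hG]
    rfl
  have ag := ModularFormClass.analyticAt_cuspFunction_zero g (one_pos : (0 : ℝ) < 1) one_mem0
  have af := ModularFormClass.analyticAt_cuspFunction_zero form24 (one_pos : (0 : ℝ) < 1) one_mem0
  have h2 : (qExpansion 1 G).coeff 1 = 0 := by
    have e0 := ModularFormClass.analyticAt_cuspFunction_zero (c • form24) (one_pos : (0 : ℝ) < 1) one_mem0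
    have e1 : qExpansion 1 (G : ℍ → ℂ) =
        qExpansion 1 (g : ℍ → ℂ) - qExpansion 1 (c • (form24 : ℍ → ℂ)) := by
      rw [hGf]
      exact UpperHalfPlane.qExpansion_sub ag e0
    have e2 : qExpansion 1 (c • (form24 : ℍ → ℂ)) = c • qExpansion 1 (form24 : ℍ → ℂ) :=
      UpperHalfPlane.qExpansion_smul af c
    rw [e1, e2, map_sub, PowerSeries.coeff_smul, h1, ← hc]
    simp
  have h3 := hdim G h2 z
  have h4 : G z = g z - c * form24 z := congrFun hGf z
  rw [h4] at h3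
  exact sub_eq_zero.1 h3

lemma hecke_f24 (hdim : S_DIM) (hP0 : PowerSeries.coeff 0 P = 1) {p : ℕ} (hp : p.Prime) (z : ℍ) :
    W97.MT.hecke 24 p form24 z = ((PowerSeries.coeff (p - 1) P : ℤ) : ℂ) * form24 z := by
  obtain ⟨c, hc⟩ := dim_one rP hdim hP0 (heckeForm form24 hp)
  have h1 : ∀ z : ℍ, heckeT 24 2 p form24 z = c * form24 z := hc
  have h2 := hecke_rec form24 hp.pos h1 1
  have h3 : A form24 1 = 1 := by
    unfold A
    exact coeff_one rP hP0
  have h4 : A form24 p = ((PowerSeries.coeff (p - 1) P : ℤ) : ℂ) := by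
    unfold A
    rw [coeff_f24 rP p]
    obtain ⟨m, rfl⟩ : ∃ m, p = m + 1 := ⟨p - 1, by have := hp.pos; omega⟩
    rw [PowerSeries.coeff_succ_X_mul]
    rfl
  have h5 : B form24 p 1 = A form24 p := by
    unfold B
    rw [if_neg (c := p ∣ 1) (fun h => hp.one_lt.ne' (Nat.dvd_one.1 h)), mul_zero, zero_add, mul_one]
  rw [h3, mul_one, h5, h4] at h2
  have h6 : W97.MT.hecke 24 p form24 z = heckeT 24 2 p form24 z := by
    unfold W97.MT.hecke heckeT
    norm_num
  rw [h6, h1, h2]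

end coef

/-- the formal identity -/
lemma formal {Ξ P : PowerSeries ℤ} (rΞ : W97.MT.Rep xi Ξ) (rP : W97.MT.Rep phi P) :
    (PowerSeries.X * PowerSeries.derivative ℤ Ξ - 2 * Ξ) ^ 2 = P ^ 2 *
      (4 * Ξ ^ 3 + 8 * PowerSeries.X ^ 2 * Ξ ^ 2 - 12 * PowerSeries.X ^ 4 * Ξ) := by
  rw [num 2, num 4, num 8, num 12]
  refine ((rΞ.theta.sub ((W97.MT.Rep.C 2).mul rΞ)).pow 2).unique (((rP.pow 2).mul
    ((((W97.MT.Rep.C 4).mul (rΞ.pow 3)).add (((W97.MT.Rep.C 8).mul
    (W97.MT.Rep.X.pow 2)).mul (rΞ.pow 2))).sub (((W97.MT.Rep.C 12).mul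
    (W97.MT.Rep.X.pow 4)).mul rΞ))).congr fun q hq1 => ?_)
  push_cast
  by_cases h0 : q = 0
  · rw [h0]; simp [xi_zero, phi_zero]; norm_num
  · obtain ⟨z, hz, rfl⟩ := exists_qq hq1 h0
    have h1 := g2_zero hcp hqe z hz
    unfold g2 at h1
    rw [← R0_q rΞ hz, ← qq_X1 hz]
    linear_combination (qq z ^ 3 * phi (qq z)) ^ 2 * h1

lemma exists_P : ∃ P Ξ σ : PowerSeries ℤ, W97.MT.Rep phi P ∧ W97.MT.Rep xi Ξ ∧
    PowerSeries.constantCoeff Ξ = 1 ∧ PowerSeries.constantCoeff σ = -2 ∧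
    PowerSeries.X * PowerSeries.derivative ℤ Ξ - 2 * Ξ = P * σ ∧
    σ ^ 2 = 4 * Ξ ^ 3 + 8 * PowerSeries.X ^ 2 * Ξ ^ 2 - 12 * PowerSeries.X ^ 4 * Ξ ∧
    PowerSeries.coeff 0 P = 1 ∧ PowerSeries.coeff 1 P = 0 ∧ PowerSeries.coeff 2 P = -1 := by
  obtain ⟨Ξ, A, C, P, rΞ, rA, rC, rP, tΞ, tA, tC, tP⟩ := expansions hqe
  have h1 := formal rΞ rP
  have cΞ : PowerSeries.constantCoeff Ξ = 1 := by
    have := tΞ 0 (by norm_num)
    simpa [lxi] using this
  have cP : PowerSeries.constantCoeff P = 1 := by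
    have := tP 0 (by norm_num)
    simpa [lphi] using this
  have hu : IsUnit P := by
    rw [PowerSeries.isUnit_iff_constantCoeff, cP]; exact isUnit_one
  obtain ⟨V, hV⟩ := hu.exists_right_inv
  have cV : PowerSeries.constantCoeff V = 1 := by
    have := congrArg PowerSeries.constantCoeff hV
    rw [map_mul, cP, one_mul, map_one] at this
    exact this
  refine ⟨P, Ξ, (PowerSeries.X * PowerSeries.derivative ℤ Ξ - 2 * Ξ) * V, rP, rΞ, cΞ, ?_, ?_, ?_,
    ?_, ?_, ?_⟩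
  · simp only [map_sub, map_mul, PowerSeries.constantCoeff_X, map_ofNat, cΞ, cV]
    norm_num
  · linear_combination (-(PowerSeries.X * PowerSeries.derivative ℤ Ξ - 2 * Ξ)) * hV
  · have e : (P * V) ^ 2 = 1 := by rw [hV, one_pow]
    linear_combination V ^ 2 * h1 +
      (4 * Ξ ^ 3 + 8 * PowerSeries.X ^ 2 * Ξ ^ 2 - 12 * PowerSeries.X ^ 4 * Ξ) * e
  · rw [tP 0 (by norm_num)]; rfl
  · rw [tP 1 (by norm_num)]; rfl
  · rw [tP 2 (by norm_num)]; rfl

/-- the coefficient modulo `p` -/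
lemma coeff_mod (hasse : S_HASSE) {Ξ P σ : PowerSeries ℤ}
    (cΞ : PowerSeries.constantCoeff Ξ = 1) (cσ : PowerSeries.constantCoeff σ = -2)
    (h2 : PowerSeries.X * PowerSeries.derivative ℤ Ξ - 2 * Ξ = P * σ)
    (h3 : σ ^ 2 = 4 * Ξ ^ 3 + 8 * PowerSeries.X ^ 2 * Ξ ^ 2 - 12 * PowerSeries.X ^ 4 * Ξ)
    {p : ℕ} (hp : p.Prime) (hp2 : p ≠ 2) :
    ((PowerSeries.coeff (p - 1) P : ℤ) : ZMod p) = (ap E24 p : ZMod p) := by
  have : Fact p.Prime := ⟨hp⟩
  set m := PowerSeries.map (Int.castRingHom (ZMod p)) with hm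
  have hX : m PowerSeries.X = PowerSeries.X := PowerSeries.map_X _
  have hd : m (PowerSeries.derivative ℤ Ξ) = PowerSeries.derivative (ZMod p) (m Ξ) := by
    ext n
    simp [hm, PowerSeries.coeff_derivative]
  have h4 := congrArg m h2
  have h5 := congrArg m h3
  simp only [map_sub, map_add, map_mul, map_pow, hX, hd, map_ofNat] at h4 h5
  have hcc : ∀ V : PowerSeries ℤ, PowerSeries.constantCoeff (m V) =
      ((PowerSeries.constantCoeff V : ℤ) : ZMod p) := by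
    intro V
    rw [← PowerSeries.coeff_zero_eq_constantCoeff_apply, ← PowerSeries.coeff_zero_eq_constantCoeff_apply,
      hm, PowerSeries.coeff_map]
    simp
  have h6 := hasse p hp2 (m P) (m Ξ) (m σ)
    (by rw [hcc, cΞ]; simp)
    (by rw [hcc, cσ]; simp)
    h4 h5
  rw [← h6, hm, PowerSeries.coeff_map]
  simp

end Pool.Agent.Run7.h741.MH
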