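import Pool.Agent.Run7.h741.MH.AL
import Pool.Agent.W97.MT.Cusps

/-!
The behaviour at the cusps of `X_0(24)`.
-/

set_option autoImplicit false

open Filter Topology

namespace Pool.Agent.Run7.h741.MH

open Pool.Agent.W97.TW
open Pool.Agent.W97.MT (qq tt tt_ne qq_ne tt_pow norm_qq norm_qq_lt eta_mul eta_one G_mul Q_ne
  Q_ne_pow G_ne im_mul z_ne H_open eta_diff QV QV_Q QV_Q1 QV_of_sq Q_contOn Q_contOn1 qq_cont
  comp_cont iI iI_pos Qq_analytic)

lemma eta_diffs {z : ℂ} (hz : 0 < z.im) :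
    DifferentiableAt ℂ (fun w : ℂ => ModularForm.eta (2 * w)) z ∧
    DifferentiableAt ℂ (fun w : ℂ => ModularForm.eta (4 * w)) z ∧
    DifferentiableAt ℂ (fun w : ℂ => ModularForm.eta (6 * w)) z ∧
    DifferentiableAt ℂ (fun w : ℂ => ModularForm.eta (8 * w)) z ∧
    DifferentiableAt ℂ (fun w : ℂ => ModularForm.eta (12 * w)) z ∧
    DifferentiableAt ℂ (fun w : ℂ => ModularForm.eta (24 * w)) z := by
  have h2 := eta_diff hz 2 (by norm_num)
  have h4 := eta_diff hz 4 (by norm_num)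
  have h6 := eta_diff hz 6 (by norm_num)
  have h8 := eta_diff hz 8 (by norm_num)
  have h12 := eta_diff hz 12 (by norm_num)
  have h24 := eta_diff hz 24 (by norm_num)
  push_cast at h2 h4 h6 h8 h12 h24
  exact ⟨h2, h4, h6, h8, h12, h24⟩

lemma ff_ne {z : ℂ} (hz : 0 < z.im) : ff z ≠ 0 := by
  obtain ⟨e2, e4, e6, e8, e12, e24⟩ := etas_ne' hz
  unfold ff
  positivity

lemma X1_ne {z : ℂ} (hz : 0 < z.im) : X1 z ≠ 0 := by
  obtain ⟨e2, e4, e6, e8, e12, e24⟩ := etas_ne' hz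
  unfold X1
  positivity

lemma AA_ne {z : ℂ} (hz : 0 < z.im) : AA z ≠ 0 := by
  obtain ⟨e2, e4, e6, e8, e12, e24⟩ := etas_ne' hz
  unfold AA
  positivity

lemma CC_ne {z : ℂ} (hz : 0 < z.im) : CC z ≠ 0 := by
  obtain ⟨e2, e4, e6, e8, e12, e24⟩ := etas_ne' hz
  unfold CC
  positivity

lemma RR_sq' {z : ℂ} (hz : 0 < z.im) : RR z ^ 2 = 4 * (AA z * X1 z * CC z) := by
  obtain ⟨e2, e4, e6, e8, e12, e24⟩ := etas_ne' hz
  exact RR_sq0 e2 e4 e6 e8 e12 e24

lemma ff_diff {z : ℂ} (hz : 0 < z.im) : DifferentiableAt ℂ ff z := by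
  obtain ⟨e2, e4, e6, e8, e12, e24⟩ := eta_diffs hz
  exact ((e2.mul e4).mul e6).mul e12

lemma X1_diff {z : ℂ} (hz : 0 < z.im) : DifferentiableAt ℂ X1 z := by
  obtain ⟨e2, e4, e6, e8, e12, e24⟩ := eta_diffs hz
  obtain ⟨n2, n4, n6, n8, n12, n24⟩ := etas_ne' hz
  exact ((((e4.pow 2).inv (pow_ne_zero _ n4)).mul (e8.pow 4)).mul (e12.pow 2)).mul
    ((e24.pow 4).inv (pow_ne_zero _ n24))

lemma AA_diff {z : ℂ} (hz : 0 < z.im) : DifferentiableAt ℂ AA z := by
  obtain ⟨e2, e4, e6, e8, e12, e24⟩ := eta_diffs hz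
  obtain ⟨n2, n4, n6, n8, n12, n24⟩ := etas_ne' hz
  exact ((((e2.mul ((e4.pow 3).inv (pow_ne_zero _ n4))).mul
    ((e6.pow 3).inv (pow_ne_zero _ n6))).mul (e8.pow 2)).mul (e12.pow 9)).mul
    ((e24.pow 6).inv (pow_ne_zero _ n24))

lemma CC_diff {z : ℂ} (hz : 0 < z.im) : DifferentiableAt ℂ CC z := by
  obtain ⟨e2, e4, e6, e8, e12, e24⟩ := eta_diffs hz
  obtain ⟨n2, n4, n6, n8, n12, n24⟩ := etas_ne' hz
  exact ((((((e2.pow 3).inv (pow_ne_zero _ n2)).mul (e4.pow 7)).mul e6).mul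
    ((e8.pow 2).inv (pow_ne_zero _ n8))).mul (e12.inv n12)).mul
    ((e24.pow 2).inv (pow_ne_zero _ n24))

lemma RR_diff {z : ℂ} (hz : 0 < z.im) : DifferentiableAt ℂ RR z := by
  obtain ⟨e2, e4, e6, e8, e12, e24⟩ := eta_diffs hz
  obtain ⟨n2, n4, n6, n8, n12, n24⟩ := etas_ne' hz
  exact ((((((e2.inv n2).mul e4).mul (e6.inv n6)).mul (e8.pow 2)).mul (e12.pow 5)).mul
    ((e24.pow 6).inv (pow_ne_zero _ n24))).const_mul (-2)

lemma X1_cont : ContinuousOn X1 {z : ℂ | 0 < z.im} := fun _ hz =>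
  (X1_diff hz).continuousAt.continuousWithinAt

lemma AA_cont : ContinuousOn AA {z : ℂ | 0 < z.im} := fun _ hz =>
  (AA_diff hz).continuousAt.continuousWithinAt

lemma CC_cont : ContinuousOn CC {z : ℂ | 0 < z.im} := fun _ hz =>
  (CC_diff hz).continuousAt.continuousWithinAt

lemma ff_cont : ContinuousOn ff {z : ℂ | 0 < z.im} := fun _ hz =>
  (ff_diff hz).continuousAt.continuousWithinAt

/-! ### the translation by one half -/

lemma X1_half {z : ℂ} (hz : 0 < z.im) : X1 (z + 1 / 2) = X1 z := by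
  have hz' : 0 < (z + 1 / 2).im := by simpa using hz
  rw [X1_q hz', X1_q hz, qq_half, neg_sq]
  congr 1
  unfold xi
  rw [show (-qq z) ^ 4 = qq z ^ 4 by ring, show (-qq z) ^ 8 = qq z ^ 8 by ring,
    show (-qq z) ^ 12 = qq z ^ 12 by ring, show (-qq z) ^ 24 = qq z ^ 24 by ring]

lemma AA_half {z : ℂ} (hz : 0 < z.im) : AA (z + 1 / 2) = AA z := by
  have hz' : 0 < (z + 1 / 2).im := by simpa using hz
  rw [AA_q hz', AA_q hz, qq_half, neg_sq]
  congr 1
  unfold xa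
  rw [show (-qq z) ^ 4 = qq z ^ 4 by ring, show (-qq z) ^ 8 = qq z ^ 8 by ring,
    show (-qq z) ^ 12 = qq z ^ 12 by ring, show (-qq z) ^ 24 = qq z ^ 24 by ring,
    show (-qq z) ^ 2 = qq z ^ 2 by ring, show (-qq z) ^ 6 = qq z ^ 6 by ring]

lemma CC_half {z : ℂ} (hz : 0 < z.im) : CC (z + 1 / 2) = CC z := by
  have hz' : 0 < (z + 1 / 2).im := by simpa using hz
  rw [CC_q hz', CC_q hz, qq_half, neg_sq]
  congr 1
  unfold xc
  rw [show (-qq z) ^ 4 = qq z ^ 4 by ring, show (-qq z) ^ 8 = qq z ^ 8 by ring,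
    show (-qq z) ^ 12 = qq z ^ 12 by ring, show (-qq z) ^ 24 = qq z ^ 24 by ring,
    show (-qq z) ^ 2 = qq z ^ 2 by ring, show (-qq z) ^ 6 = qq z ^ 6 by ring]

lemma phi_neg (q : ℂ) : phi (-q) = phi q := by
  unfold phi
  rw [show (-q) ^ 4 = q ^ 4 by ring, show (-q) ^ 12 = q ^ 12 by ring,
    show (-q) ^ 2 = q ^ 2 by ring, show (-q) ^ 6 = q ^ 6 by ring]

lemma ff_half (z : ℂ) : ff (z + 1 / 2) = -ff z := by
  rw [ff_q, ff_q, qq_half, phi_neg]
  ring

/-! ### expansions -/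

lemma xi_analytic : AnalyticAt ℂ xi 0 := by
  have e4 := Qq_analytic 4 (by norm_num)
  have e8 := Qq_analytic 8 (by norm_num)
  have e12 := Qq_analytic 12 (by norm_num)
  have e24 := Qq_analytic 24 (by norm_num)
  exact ((((e4.pow 2).inv (by simp [Q_zero])).mul (e8.pow 4)).mul (e12.pow 2)).mul
    ((e24.pow 4).inv (by simp [Q_zero]))

lemma xa_analytic : AnalyticAt ℂ xa 0 := by
  have e2 := Qq_analytic 2 (by norm_num)
  have e4 := Qq_analytic 4 (by norm_num)
  have e6 := Qq_analytic 6 (by norm_num)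
  have e8 := Qq_analytic 8 (by norm_num)
  have e12 := Qq_analytic 12 (by norm_num)
  have e24 := Qq_analytic 24 (by norm_num)
  exact ((((e2.mul ((e4.pow 3).inv (by simp [Q_zero]))).mul
    ((e6.pow 3).inv (by simp [Q_zero]))).mul (e8.pow 2)).mul (e12.pow 9)).mul
    ((e24.pow 6).inv (by simp [Q_zero]))

lemma xc_analytic : AnalyticAt ℂ xc 0 := by
  have e2 := Qq_analytic 2 (by norm_num)
  have e4 := Qq_analytic 4 (by norm_num)
  have e6 := Qq_analytic 6 (by norm_num)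
  have e8 := Qq_analytic 8 (by norm_num)
  have e12 := Qq_analytic 12 (by norm_num)
  have e24 := Qq_analytic 24 (by norm_num)
  exact ((((((e2.pow 3).inv (by simp [Q_zero])).mul (e4.pow 7)).mul e6).mul
    ((e8.pow 2).inv (by simp [Q_zero]))).mul (e12.inv (by simp [Q_zero]))).mul
    ((e24.pow 2).inv (by simp [Q_zero]))

lemma xi_zero : xi 0 = 1 := by
  unfold xi
  simp [Q_zero]

lemma xa_zero : xa 0 = 1 := by
  unfold xa
  simp [Q_zero]

lemma xc_zero : xc 0 = 1 := by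
  unfold xc
  simp [Q_zero]

lemma QV_xi : QV (fun z => xi (qq z)) 1 := (QV.comp xi_analytic).of_val xi_zero
lemma QV_xa : QV (fun z => xa (qq z)) 1 := (QV.comp xa_analytic).of_val xa_zero
lemma QV_xc : QV (fun z => xc (qq z)) 1 := (QV.comp xc_analytic).of_val xc_zero

lemma qq_X1 {z : ℂ} (hz : 0 < z.im) : qq z ^ 2 * X1 z = xi (qq z) := by
  rw [X1_q hz]
  field_simp [qq_ne z]

lemma qq_AA {z : ℂ} (hz : 0 < z.im) : qq z ^ 2 * AA z = xa (qq z) := by
  rw [AA_q hz]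
  field_simp [qq_ne z]

lemma qq_CC {z : ℂ} (hz : 0 < z.im) : qq z ^ 2 * CC z = xc (qq z) := by
  rw [CC_q hz]
  field_simp [qq_ne z]

/-- a quotient of two of the functions -/
lemma QV_ratio {f g a b : ℂ → ℂ} (ha : QV a 1) (hb : QV b 1)
    (hf : ∀ z : ℂ, 0 < z.im → qq z ^ 2 * f z = a z) (hg : ∀ z : ℂ, 0 < z.im → qq z ^ 2 * g z = b z) :
    QV (fun z => f z * (g z)⁻¹) 1 := by
  refine ((ha.mul (hb.inv one_ne_zero)).of_val (by norm_num)).of_eq (iI_pos.mono fun z hz => ?_)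
  have h0 := qq_ne z
  rw [← hf z hz, ← hg z hz, mul_inv]
  field_simp

/-- an inverse -/
lemma QV_inv {g b : ℂ → ℂ} (hb : QV b 1) (hg : ∀ z : ℂ, 0 < z.im → qq z ^ 2 * g z = b z) :
    QV (fun z => (g z)⁻¹) 0 := by
  refine (((QV.qq'.pow 2).mul (hb.inv one_ne_zero)).of_val (by norm_num)).of_eq
    (iI_pos.mono fun z hz => ?_)
  have h0 := qq_ne z
  rw [← hg z hz, mul_inv]
  field_simp

/-! ### the maps -/

/-- a change of variable multiplying the form by a constant -/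
structure IsMap (m j : ℂ → ℂ) : Prop where
  pos : ∀ z : ℂ, 0 < z.im → 0 < (m z).im
  der : ∀ z : ℂ, 0 < z.im → HasDerivAt m (j z) z
  jne : ∀ z : ℂ, 0 < z.im → j z ≠ 0
  jcont : ContinuousOn j {z : ℂ | 0 < z.im}
  ffj : ∀ z : ℂ, 0 < z.im → (ff (m z) * j z) ^ 2 = ff z ^ 2

/-- the data at a cusp -/
structure IsCusp (m j : ℂ → ℂ) (x a c : ℂ) : Prop where
  map : IsMap m j
  X : QV (fun z => X1 (m z)) x
  A : QV (fun z => AA (m z) ^ 2) a
  C : QV (fun z => CC (m z) ^ 2) c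

lemma IsMap.comp {m₁ j₁ m₂ j₂ : ℂ → ℂ} (h₁ : IsMap m₁ j₁) (h₂ : IsMap m₂ j₂) :
    IsMap (fun z => m₁ (m₂ z)) (fun z => j₁ (m₂ z) * j₂ z) where
  pos z hz := h₁.pos _ (h₂.pos z hz)
  der z hz := (h₁.der _ (h₂.pos z hz)).comp z (h₂.der z hz)
  jne z hz := mul_ne_zero (h₁.jne _ (h₂.pos z hz)) (h₂.jne z hz)
  jcont := (comp_cont h₂.pos h₂.der h₁.jcont).mul h₂.jcont
  ffj z hz := by
    have e1 := h₁.ffj _ (h₂.pos z hz)
    have e2 := h₂.ffj z hz
    calc (ff (m₁ (m₂ z)) * (j₁ (m₂ z) * j₂ z)) ^ 2 =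
        (ff (m₁ (m₂ z)) * j₁ (m₂ z)) ^ 2 * j₂ z ^ 2 := by ring
      _ = (ff (m₂ z) * j₂ z) ^ 2 := by rw [e1]; ring
      _ = ff z ^ 2 := e2

lemma IsMap.half {m j : ℂ → ℂ} (h : IsMap m j) : IsMap (fun z => m z + 1 / 2) j where
  pos z hz := by simpa using h.pos z hz
  der z hz := (h.der z hz).add_const _
  jne := h.jne
  jcont := h.jcont
  ffj z hz := by
    rw [ff_half]
    have := h.ffj z hz
    linear_combination this

lemma IsCusp.half {m j : ℂ → ℂ} {x a c : ℂ} (h : IsCusp m j x a c) :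
    IsCusp (fun z => m z + 1 / 2) j x a c where
  map := h.map.half
  X := h.X.of_eq (iI_pos.mono fun z hz => X1_half (h.map.pos z hz))
  A := h.A.of_eq (iI_pos.mono fun z hz => by
    rw [AA_half (h.map.pos z hz)])
  C := h.C.of_eq (iI_pos.mono fun z hz => by
    rw [CC_half (h.map.pos z hz)])

/-- `z ↦ -1/(24z)` -/
noncomputable def m24 (z : ℂ) : ℂ := -1 / (24 * z)

/-- `z ↦ (3z+1)/(24z+9)` -/
noncomputable def m3 (z : ℂ) : ℂ := (3 * z + 1) / (24 * z + 9)

/-- `z ↦ z/(12z+1)` -/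
noncomputable def mv (z : ℂ) : ℂ := z / (12 * z + 1)

/-- derivative of `m24` -/
noncomputable def j24 (z : ℂ) : ℂ := (24 * z ^ 2)⁻¹

/-- derivative of `m3` -/
noncomputable def j3 (z : ℂ) : ℂ := (3 * (8 * z + 3) ^ 2)⁻¹

/-- derivative of `mv` -/
noncomputable def jv (z : ℂ) : ℂ := ((12 * z + 1) ^ 2)⁻¹

lemma map24 : IsMap m24 j24 where
  pos z hz := w24_pos hz
  der z hz := by
    have h0 := z_ne hz
    have h1 : HasDerivAt (fun w : ℂ => 24 * w) 24 z := by
      simpa using (hasDerivAt_id z).const_mul (24 : ℂ)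
    have h2 := (hasDerivAt_const z (-1 : ℂ)).div h1 (mul_ne_zero (by norm_num) h0)
    unfold m24 j24
    refine h2.congr_deriv ?_
    field_simp
    ring
  jne z hz := inv_ne_zero (mul_ne_zero (by norm_num) (pow_ne_zero 2 (z_ne hz)))
  jcont := by
    intro z hz
    unfold j24
    exact ContinuousAt.continuousWithinAt (ContinuousAt.inv₀ (by fun_prop)
      (mul_ne_zero (by norm_num) (pow_ne_zero 2 (z_ne hz))))
  ffj z hz := by
    have h0 := z_ne hz
    unfold m24 j24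
    rw [mul_pow, ff_w24 hz]
    field_simp

lemma map3 : IsMap m3 j3 where
  pos z hz := w3_pos hz
  der z hz := by
    have h0 := w3_aux hz
    have h7 : (24 * z + 9 : ℂ) = 3 * (8 * z + 3) := by ring
    have h1 : HasDerivAt (fun w : ℂ => 24 * w + 9) 24 z := by
      simpa using ((hasDerivAt_id z).const_mul (24 : ℂ)).add_const 9
    have h1' : HasDerivAt (fun w : ℂ => 3 * w + 1) 3 z := by
      simpa using ((hasDerivAt_id z).const_mul (3 : ℂ)).add_const 1
    have h2 := h1'.div h1 (by rw [h7]; exact mul_ne_zero (by norm_num) h0)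
    unfold m3 j3
    refine h2.congr_deriv ?_
    rw [h7]
    field_simp
    ring
  jne z hz := inv_ne_zero (mul_ne_zero (by norm_num) (pow_ne_zero 2 (w3_aux hz)))
  jcont := by
    intro z hz
    unfold j3
    exact ContinuousAt.continuousWithinAt (ContinuousAt.inv₀ (by fun_prop)
      (mul_ne_zero (by norm_num) (pow_ne_zero 2 (w3_aux hz))))
  ffj z hz := by
    have h0 := w3_aux hz
    unfold m3 j3
    rw [mul_pow, ff_w3 hz]
    field_simp

lemma mapv : IsMap mv jv where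
  pos z hz := wv_pos hz
  der z hz := by
    have h0 := wv_aux hz
    have h1 : HasDerivAt (fun w : ℂ => 12 * w + 1) 12 z := by
      simpa using ((hasDerivAt_id z).const_mul (12 : ℂ)).add_const 1
    have h2 := (hasDerivAt_id z).div h1 h0
    unfold mv jv
    refine h2.congr_deriv ?_
    simp only [id]
    field_simp
    ring
  jne z hz := inv_ne_zero (pow_ne_zero 2 (wv_aux hz))
  jcont := by
    intro z hz
    unfold jv
    exact ContinuousAt.continuousWithinAt (ContinuousAt.inv₀ (by fun_prop)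
      (pow_ne_zero 2 (wv_aux hz)))
  ffj z hz := by
    have h0 := wv_aux hz
    unfold mv jv
    rw [mul_pow, ff_wv hz]
    field_simp

theorem cusp24 : IsCusp m24 j24 3 4 36 where
  map := map24
  X := by
    have q2 := QV_Q 2 (by norm_num)
    have q3 := QV_Q 3 (by norm_num)
    have q6 := QV_Q 6 (by norm_num)
    exact (((QV.const 3).mul (((((q6.pow 2).inv (by norm_num)).mul (q3.pow 4)).mul (q2.pow 2)).mul
      ((QV_Q1.pow 4).inv (by norm_num)))).of_val (by norm_num)).of_eq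
      (iI_pos.mono fun z hz => X1_w24 hz)
  A := by
    have q2 := QV_Q 2 (by norm_num)
    have q3 := QV_Q 3 (by norm_num)
    have q4 := QV_Q 4 (by norm_num)
    have q6 := QV_Q 6 (by norm_num)
    have q12 := QV_Q 12 (by norm_num)
    exact (((QV.const 4).mul ((((((q12.mul ((q6.pow 3).inv (by norm_num))).mul
      ((q4.pow 3).inv (by norm_num))).mul (q3.pow 2)).mul (q2.pow 9)).mul
      ((QV_Q1.pow 6).inv (by norm_num))).pow 2)).of_val (by norm_num)).of_eq
      (iI_pos.mono fun z hz => AA_w24 hz)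
  C := by
    have q2 := QV_Q 2 (by norm_num)
    have q3 := QV_Q 3 (by norm_num)
    have q4 := QV_Q 4 (by norm_num)
    have q6 := QV_Q 6 (by norm_num)
    have q12 := QV_Q 12 (by norm_num)
    have h1 := ((q12.pow 3).inv (by norm_num)).mul (q6.pow 7)
    have h2 := (((h1.mul q4).mul ((q3.pow 2).inv (by norm_num))).mul (q2.inv (by norm_num))).mul
      ((QV_Q1.pow 2).inv (by norm_num))
    exact (((QV.const 36).mul (h2.pow 2)).of_val (by norm_num)).of_eq
      (iI_pos.mono fun z hz => CC_w24 hz)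

theorem cusp3 : IsCusp m3 j3 0 1 9 where
  map := map3
  X := (((QV.const (-3)).mul (QV_inv QV_xi fun z hz => qq_X1 hz)).of_val (by norm_num)).of_eq
    (iI_pos.mono fun z hz => X1_w3 hz)
  A := (((QV_ratio QV_xc QV_xi (fun z hz => qq_CC hz) fun z hz => qq_X1 hz).pow 2).of_val
    (by norm_num)).of_eq (iI_pos.mono fun z hz => by
      change AA ((3 * z + 1) / (24 * z + 9)) ^ 2 = _
      rw [AA_w3 hz, mul_pow, inv_pow])
  C := (((QV.const 9).mul ((QV_ratio QV_xa QV_xi (fun z hz => qq_AA hz)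
    fun z hz => qq_X1 hz).pow 2)).of_val (by norm_num)).of_eq (iI_pos.mono fun z hz => by
      change CC ((3 * z + 1) / (24 * z + 9)) ^ 2 = _
      rw [CC_w3 hz, mul_pow, inv_pow])

theorem cuspv : IsCusp mv jv 1 0 16 where
  map := mapv
  X := (QV_ratio QV_xc QV_xa (fun z hz => qq_CC hz) fun z hz => qq_AA hz).of_eq
    (iI_pos.mono fun z hz => X1_wv hz)
  A := (((QV.const 16).mul ((QV_inv QV_xa fun z hz => qq_AA hz).pow 2)).of_val
    (by norm_num)).of_eq (iI_pos.mono fun z hz => by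
      change AA (z / (12 * z + 1)) ^ 2 = _
      rw [AA_wv hz, inv_pow])
  C := (((QV.const 16).mul ((QV_ratio QV_xi QV_xa (fun z hz => qq_X1 hz)
    fun z hz => qq_AA hz).pow 2)).of_val (by norm_num)).of_eq (iI_pos.mono fun z hz => by
      change CC (z / (12 * z + 1)) ^ 2 = _
      rw [CC_wv hz, mul_pow, inv_pow])

theorem cusp324 : IsCusp (fun z => m3 (m24 z)) (fun z => j3 (m24 z) * j24 z) (-1) 4 4 where
  map := map3.comp map24
  X := (((QV.const (-3)).mul (cusp24.X.inv (by norm_num))).of_val (by norm_num)).of_eq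
    (iI_pos.mono fun z hz => X1_w3 (map24.pos z hz))
  A := ((cusp24.C.mul ((cusp24.X.pow 2).inv (by norm_num))).of_val (by norm_num)).of_eq
    (iI_pos.mono fun z hz => AA_w3 (map24.pos z hz))
  C := (((QV.const 9).mul (cusp24.A.mul ((cusp24.X.pow 2).inv (by norm_num)))).of_val
    (by norm_num)).of_eq (iI_pos.mono fun z hz => CC_w3 (map24.pos z hz))

theorem cuspv3 : ∃ x, IsCusp (fun z => mv (m3 z)) (fun z => jv (m3 z) * j3 z) x 16 0 := by
  have hA : QV (fun z => AA (mv (m3 z)) ^ 2) 16 := by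
    refine (((QV.const 16).mul ((QV_ratio QV_xi QV_xc (fun z hz => qq_X1 hz)
      fun z hz => qq_CC hz).pow 2)).of_val (by norm_num)).of_eq (iI_pos.mono fun z hz => ?_)
    change AA (m3 z / (12 * m3 z + 1)) ^ 2 = _
    rw [AA_wv (map3.pos z hz)]
    change 16 * (AA ((3 * z + 1) / (24 * z + 9)) ^ 2)⁻¹ = _
    have h1 := X1_ne hz
    have h2 := CC_ne hz
    rw [AA_w3 hz]
    field_simp
  have hC : QV (fun z => CC (mv (m3 z)) ^ 2) 0 := by
    refine (((QV.const 144).mul ((QV_inv QV_xc fun z hz => qq_CC hz).pow 2)).of_val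
      (by norm_num)).of_eq (iI_pos.mono fun z hz => ?_)
    change CC (m3 z / (12 * m3 z + 1)) ^ 2 = _
    rw [CC_wv (map3.pos z hz)]
    change 16 * (X1 ((3 * z + 1) / (24 * z + 9)) ^ 2 *
      (AA ((3 * z + 1) / (24 * z + 9)) ^ 2)⁻¹) = _
    have h1 := X1_ne hz
    have h2 := CC_ne hz
    rw [AA_w3 hz, X1_w3 hz]
    field_simp
    norm_num
  have hX : ∀ z : ℂ, 0 < z.im → X1 (mv (m3 z)) ^ 2 = (3 * (AA z * (CC z)⁻¹)) ^ 2 := by
    intro z hz
    change X1 (m3 z / (12 * m3 z + 1)) ^ 2 = _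
    rw [X1_wv (map3.pos z hz), mul_pow, inv_pow]
    change CC ((3 * z + 1) / (24 * z + 9)) ^ 2 * (AA ((3 * z + 1) / (24 * z + 9)) ^ 2)⁻¹ = _
    have h1 := X1_ne hz
    have h2 := CC_ne hz
    rw [AA_w3 hz, CC_w3 hz]
    field_simp
    ring
  have h := (QV.const 3).mul (QV_ratio QV_xa QV_xc (fun z hz => qq_AA hz) fun z hz => qq_CC hz)
  rcases QV_of_sq (comp_cont (mapv.comp map3).pos (mapv.comp map3).der X1_cont)
    (continuousOn_const.mul (AA_cont.mul (CC_cont.inv₀ fun z hz => CC_ne hz))) hX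
    (fun z hz => mul_ne_zero (by norm_num) (mul_ne_zero (AA_ne hz) (inv_ne_zero (CC_ne hz)))) h
    with h7 | h7
  · exact ⟨_, mapv.comp map3, h7, hA, hC⟩
  · exact ⟨_, mapv.comp map3, h7, hA, hC⟩

lemma mv3_eq {z : ℂ} (hz : 0 < z.im) : mv (m3 z) = (3 * z + 1) / (60 * z + 21) := by
  have h0 := w3_aux hz
  have h1 := wv_aux (map3.pos z hz)
  unfold mv
  unfold m3 at h1 ⊢
  have h7 : (24 * z + 9 : ℂ) = 3 * (8 * z + 3) := by ring
  have h3 : (24 * z + 9 : ℂ) ≠ 0 := by rw [h7]; exact mul_ne_zero (by norm_num) h0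
  have h2 : (60 * z + 21 : ℂ) = (12 * ((3 * z + 1) / (24 * z + 9)) + 1) * (24 * z + 9) := by
    rw [add_mul, mul_assoc, div_mul_cancel₀ _ h3]
    ring
  rw [h2, div_div, mul_comm (24 * z + 9)]

lemma m324_eq {z : ℂ} (hz : 0 < z.im) : m3 (m24 z) = (8 * z - 1) / (72 * z - 8) := by
  have h0 := z_ne hz
  have h1 := w3_aux (map24.pos z hz)
  unfold m3
  unfold m24 at h1 ⊢
  have h2 : (24 * (-1 / (24 * z)) + 9 : ℂ) = (72 * z - 8) / (8 * z) := by
    field_simp
    ring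
  have h3 : (3 * (-1 / (24 * z)) + 1 : ℂ) = (8 * z - 1) / (8 * z) := by
    field_simp
    ring
  rw [h2, h3, div_div_div_cancel_right₀ (mul_ne_zero (by norm_num) h0)]

end Pool.Agent.Run7.h741.MH
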