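import Pool.Agent.W97.MT.Eta
import Pool.Agent.Run7.h741.MH.Stm

/-!
Eta products on `X_0(24)`.
-/

set_option autoImplicit false

open UpperHalfPlane MatrixGroups CongruenceSubgroup Filter Topology
open scoped ModularForm Pointwise

namespace Pool.Agent.Run7.h741.MH

open Pool.Agent.W97.TW
open Pool.Agent.W97.MT (qq tt tt_ne qq_ne tt_pow norm_qq norm_qq_lt eta_mul eta_one G_mul Q_ne
  Q_ne_pow G_ne im_mul ze_dvd)

/-- `η(2z)η(4z)η(6z)η(12z)` -/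
noncomputable def ff (z : ℂ) : ℂ :=
  ModularForm.eta (2 * z) * ModularForm.eta (4 * z) * ModularForm.eta (6 * z) *
    ModularForm.eta (12 * z)

/-- the function `x - 2` -/
noncomputable def AA (z : ℂ) : ℂ :=
  ModularForm.eta (2 * z) * (ModularForm.eta (4 * z) ^ 3)⁻¹ * (ModularForm.eta (6 * z) ^ 3)⁻¹ *
    ModularForm.eta (8 * z) ^ 2 * ModularForm.eta (12 * z) ^ 9 * (ModularForm.eta (24 * z) ^ 6)⁻¹

/-- the function `x - 1` -/
noncomputable def X1 (z : ℂ) : ℂ :=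
  (ModularForm.eta (4 * z) ^ 2)⁻¹ * ModularForm.eta (8 * z) ^ 4 * ModularForm.eta (12 * z) ^ 2 *
    (ModularForm.eta (24 * z) ^ 4)⁻¹

/-- the function `x + 2` -/
noncomputable def CC (z : ℂ) : ℂ :=
  (ModularForm.eta (2 * z) ^ 3)⁻¹ * ModularForm.eta (4 * z) ^ 7 * ModularForm.eta (6 * z) *
    (ModularForm.eta (8 * z) ^ 2)⁻¹ * (ModularForm.eta (12 * z))⁻¹ *
    (ModularForm.eta (24 * z) ^ 2)⁻¹

/-- the function `-2y` -/
noncomputable def RR (z : ℂ) : ℂ :=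
  -2 * ((ModularForm.eta (2 * z))⁻¹ * ModularForm.eta (4 * z) * (ModularForm.eta (6 * z))⁻¹ *
    ModularForm.eta (8 * z) ^ 2 * ModularForm.eta (12 * z) ^ 5 * (ModularForm.eta (24 * z) ^ 6)⁻¹)

/-- the expansion of `X1` -/
noncomputable def xi (q : ℂ) : ℂ :=
  (Q (q ^ 4) ^ 2)⁻¹ * Q (q ^ 8) ^ 4 * Q (q ^ 12) ^ 2 * (Q (q ^ 24) ^ 4)⁻¹

/-- the expansion of `AA` -/
noncomputable def xa (q : ℂ) : ℂ :=
  Q (q ^ 2) * (Q (q ^ 4) ^ 3)⁻¹ * (Q (q ^ 6) ^ 3)⁻¹ * Q (q ^ 8) ^ 2 * Q (q ^ 12) ^ 9 *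
    (Q (q ^ 24) ^ 6)⁻¹

/-- the expansion of `CC` -/
noncomputable def xc (q : ℂ) : ℂ :=
  (Q (q ^ 2) ^ 3)⁻¹ * Q (q ^ 4) ^ 7 * Q (q ^ 6) * (Q (q ^ 8) ^ 2)⁻¹ * (Q (q ^ 12))⁻¹ *
    (Q (q ^ 24) ^ 2)⁻¹

/-- the expansion of `RR` -/
noncomputable def rho (q : ℂ) : ℂ :=
  -2 * ((Q (q ^ 2))⁻¹ * Q (q ^ 4) * (Q (q ^ 6))⁻¹ * Q (q ^ 8) ^ 2 * Q (q ^ 12) ^ 5 *
    (Q (q ^ 24) ^ 6)⁻¹)

/-- the expansion of `ff` -/
noncomputable def phi (q : ℂ) : ℂ := Q (q ^ 2) * Q (q ^ 4) * Q (q ^ 6) * Q (q ^ 12)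

lemma etas (z : ℂ) : ModularForm.eta (2 * z) = tt z ^ 2 * Q (qq z ^ 2) ∧
    ModularForm.eta (4 * z) = tt z ^ 4 * Q (qq z ^ 4) ∧
    ModularForm.eta (6 * z) = tt z ^ 6 * Q (qq z ^ 6) ∧
    ModularForm.eta (8 * z) = tt z ^ 8 * Q (qq z ^ 8) ∧
    ModularForm.eta (12 * z) = tt z ^ 12 * Q (qq z ^ 12) ∧
    ModularForm.eta (24 * z) = tt z ^ 24 * Q (qq z ^ 24) := by
  have h2 := eta_mul 2 z
  have h4 := eta_mul 4 z
  have h6 := eta_mul 6 z
  have h8 := eta_mul 8 z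
  have h12 := eta_mul 12 z
  have h24 := eta_mul 24 z
  push_cast at h2 h4 h6 h8 h12 h24
  exact ⟨h2, h4, h6, h8, h12, h24⟩

lemma Q_nes {z : ℂ} (hz : 0 < z.im) : Q (qq z ^ 2) ≠ 0 ∧ Q (qq z ^ 4) ≠ 0 ∧ Q (qq z ^ 6) ≠ 0 ∧
    Q (qq z ^ 8) ≠ 0 ∧ Q (qq z ^ 12) ≠ 0 ∧ Q (qq z ^ 24) ≠ 0 := by
  have hq := norm_qq_lt hz
  exact ⟨Q_ne_pow hq (by norm_num), Q_ne_pow hq (by norm_num), Q_ne_pow hq (by norm_num),
    Q_ne_pow hq (by norm_num), Q_ne_pow hq (by norm_num), Q_ne_pow hq (by norm_num)⟩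

lemma ff_q (z : ℂ) : ff z = qq z * phi (qq z) := by
  obtain ⟨h2, h4, h6, h8, h12, h24⟩ := etas z
  unfold ff phi
  rw [h2, h4, h6, h12, ← tt_pow]
  ring

lemma X1_q {z : ℂ} (hz : 0 < z.im) : X1 z = xi (qq z) / qq z ^ 2 := by
  obtain ⟨h2, h4, h6, h8, h12, h24⟩ := etas z
  obtain ⟨n2, n4, n6, n8, n12, n24⟩ := Q_nes hz
  have ht := tt_ne z
  unfold X1 xi
  rw [h4, h8, h12, h24]
  have hq2 : qq z ^ 2 = tt z ^ 48 := by rw [← tt_pow]; ring
  rw [hq2]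
  generalize Q (qq z ^ 4) = q4 at *
  generalize Q (qq z ^ 8) = q8 at *
  generalize Q (qq z ^ 12) = q12 at *
  generalize Q (qq z ^ 24) = q24 at *
  generalize tt z = t at *
  field_simp

lemma AA_q {z : ℂ} (hz : 0 < z.im) : AA z = xa (qq z) / qq z ^ 2 := by
  obtain ⟨h2, h4, h6, h8, h12, h24⟩ := etas z
  obtain ⟨n2, n4, n6, n8, n12, n24⟩ := Q_nes hz
  have ht := tt_ne z
  unfold AA xa
  rw [h2, h4, h6, h8, h12, h24]
  have hq2 : qq z ^ 2 = tt z ^ 48 := by rw [← tt_pow]; ring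
  rw [hq2]
  generalize Q (qq z ^ 2) = q2 at *
  generalize Q (qq z ^ 4) = q4 at *
  generalize Q (qq z ^ 6) = q6 at *
  generalize Q (qq z ^ 8) = q8 at *
  generalize Q (qq z ^ 12) = q12 at *
  generalize Q (qq z ^ 24) = q24 at *
  generalize tt z = t at *
  field_simp

lemma CC_q {z : ℂ} (hz : 0 < z.im) : CC z = xc (qq z) / qq z ^ 2 := by
  obtain ⟨h2, h4, h6, h8, h12, h24⟩ := etas z
  obtain ⟨n2, n4, n6, n8, n12, n24⟩ := Q_nes hz
  have ht := tt_ne z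
  unfold CC xc
  rw [h2, h4, h6, h8, h12, h24]
  have hq2 : qq z ^ 2 = tt z ^ 48 := by rw [← tt_pow]; ring
  rw [hq2]
  generalize Q (qq z ^ 2) = q2 at *
  generalize Q (qq z ^ 4) = q4 at *
  generalize Q (qq z ^ 6) = q6 at *
  generalize Q (qq z ^ 8) = q8 at *
  generalize Q (qq z ^ 12) = q12 at *
  generalize Q (qq z ^ 24) = q24 at *
  generalize tt z = t at *
  field_simp

lemma RR_q {z : ℂ} (hz : 0 < z.im) : RR z = rho (qq z) / qq z ^ 3 := by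
  obtain ⟨h2, h4, h6, h8, h12, h24⟩ := etas z
  obtain ⟨n2, n4, n6, n8, n12, n24⟩ := Q_nes hz
  have ht := tt_ne z
  unfold RR rho
  rw [h2, h4, h6, h8, h12, h24]
  have hq2 : qq z ^ 3 = tt z ^ 72 := by rw [← tt_pow]; ring
  rw [hq2]
  generalize Q (qq z ^ 2) = q2 at *
  generalize Q (qq z ^ 4) = q4 at *
  generalize Q (qq z ^ 6) = q6 at *
  generalize Q (qq z ^ 8) = q8 at *
  generalize Q (qq z ^ 12) = q12 at *
  generalize Q (qq z ^ 24) = q24 at *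
  generalize tt z = t at *
  field_simp

/-- general product of powers of `η²` -/
noncomputable def Gs (a b c d e f : ℤ) (z : ℂ) : ℂ :=
  G (2 * z) ^ a * G (4 * z) ^ b * G (6 * z) ^ c * G (8 * z) ^ d * G (12 * z) ^ e * G (24 * z) ^ f

lemma ff_sq (z : ℂ) : ff z ^ 2 = Gs 1 1 1 0 1 0 z := by
  unfold ff Gs G
  simp only [zpow_one, zpow_zero]
  ring

lemma AA_sq (z : ℂ) : AA z ^ 2 = Gs 1 (-3) (-3) 2 9 (-6) z := by
  unfold AA Gs G
  rw [zpow_one, zpow_neg, zpow_neg, zpow_neg]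
  norm_cast
  simp only [mul_pow, inv_pow]
  ring

lemma X1_eq (z : ℂ) : X1 z = Gs 0 (-1) 0 2 1 (-2) z := by
  unfold X1 Gs G
  rw [zpow_neg_one, zpow_zero, zpow_one, zpow_neg]
  norm_cast
  simp only [← pow_mul]
  ring

lemma CC_sq (z : ℂ) : CC z ^ 2 = Gs (-3) 7 1 (-2) (-1) (-2) z := by
  unfold CC Gs G
  rw [zpow_neg_one, zpow_one, zpow_neg, zpow_neg, zpow_neg]
  norm_cast
  simp only [mul_pow, inv_pow]
  ring

/-- the equation of the curve, as an identity of eta products -/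
lemma RR_sq0 {z : ℂ} (h2 : ModularForm.eta (2 * z) ≠ 0) (h4 : ModularForm.eta (4 * z) ≠ 0)
    (h6 : ModularForm.eta (6 * z) ≠ 0) (h8 : ModularForm.eta (8 * z) ≠ 0)
    (h12 : ModularForm.eta (12 * z) ≠ 0) (h24 : ModularForm.eta (24 * z) ≠ 0) :
    RR z ^ 2 = 4 * (AA z * X1 z * CC z) := by
  unfold RR AA X1 CC
  generalize ModularForm.eta (2 * z) = q2 at *
  generalize ModularForm.eta (4 * z) = q4 at *
  generalize ModularForm.eta (6 * z) = q6 at *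
  generalize ModularForm.eta (8 * z) = q8 at *
  generalize ModularForm.eta (12 * z) = q12 at *
  generalize ModularForm.eta (24 * z) = q24 at *
  field_simp
  ring

lemma kap24_3 : ∀ a b c d : ZMod 3, a * d - b * (24 * c) = 1 →
    (kap a (2 * b) (12 * c) d + kap a (4 * b) (6 * c) d + kap a (6 * b) (4 * c) d +
      kap a (12 * b) (2 * c) d = 0) ∧
    (kap a (2 * b) (12 * c) d - 3 * kap a (4 * b) (6 * c) d - 3 * kap a (6 * b) (4 * c) d +
      2 * kap a (8 * b) (3 * c) d + 9 * kap a (12 * b) (2 * c) d - 6 * kap a (24 * b) c d = 0) ∧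
    (-kap a (4 * b) (6 * c) d + 2 * kap a (8 * b) (3 * c) d + kap a (12 * b) (2 * c) d -
      2 * kap a (24 * b) c d = 0) ∧
    (-3 * kap a (2 * b) (12 * c) d + 7 * kap a (4 * b) (6 * c) d + kap a (6 * b) (4 * c) d -
      2 * kap a (8 * b) (3 * c) d - kap a (12 * b) (2 * c) d - 2 * kap a (24 * b) c d = 0) := by
  decide

lemma kap24_4 : ∀ a b c d : ZMod 4, a * d - b * (24 * c) = 1 →
    (kap a (2 * b) (12 * c) d + kap a (4 * b) (6 * c) d + kap a (6 * b) (4 * c) d +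
      kap a (12 * b) (2 * c) d = 0) ∧
    (kap a (2 * b) (12 * c) d - 3 * kap a (4 * b) (6 * c) d - 3 * kap a (6 * b) (4 * c) d +
      2 * kap a (8 * b) (3 * c) d + 9 * kap a (12 * b) (2 * c) d - 6 * kap a (24 * b) c d = 0) ∧
    (-kap a (4 * b) (6 * c) d + 2 * kap a (8 * b) (3 * c) d + kap a (12 * b) (2 * c) d -
      2 * kap a (24 * b) c d = 0) ∧
    (-3 * kap a (2 * b) (12 * c) d + 7 * kap a (4 * b) (6 * c) d + kap a (6 * b) (4 * c) d -
      2 * kap a (8 * b) (3 * c) d - kap a (12 * b) (2 * c) d - 2 * kap a (24 * b) c d = 0) := by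
  decide

/-- the basic transformations under `Γ_0(24)` -/
lemma G_gamma {a b c d : ℤ} (h : a * d - b * (24 * c) = 1) {z : ℂ} (hz : 0 < z.im) :
    0 < ((a * z + b) / (24 * c * z + d) : ℂ).im ∧ (24 * c * z + d : ℂ) ≠ 0 ∧
    G (2 * ((a * z + b) / (24 * c * z + d))) =
      ze ^ (kap a (2 * b) (12 * c) d) * (24 * c * z + d) * G (2 * z) ∧
    G (4 * ((a * z + b) / (24 * c * z + d))) =
      ze ^ (kap a (4 * b) (6 * c) d) * (24 * c * z + d) * G (4 * z) ∧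
    G (6 * ((a * z + b) / (24 * c * z + d))) =
      ze ^ (kap a (6 * b) (4 * c) d) * (24 * c * z + d) * G (6 * z) ∧
    G (8 * ((a * z + b) / (24 * c * z + d))) =
      ze ^ (kap a (8 * b) (3 * c) d) * (24 * c * z + d) * G (8 * z) ∧
    G (12 * ((a * z + b) / (24 * c * z + d))) =
      ze ^ (kap a (12 * b) (2 * c) d) * (24 * c * z + d) * G (12 * z) ∧
    G (24 * ((a * z + b) / (24 * c * z + d))) =
      ze ^ (kap a (24 * b) c d) * (24 * c * z + d) * G (24 * z) := by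
  have h' : a * d - b * (24 * c) = 1 := h
  have h0 := im_moebius h hz
  have e2 := G_moebius (a := a) (b := 2 * b) (c := 12 * c) (d := d) (by linarith)
    (im_mul hz 2 (by norm_num))
  have e4 := G_moebius (a := a) (b := 4 * b) (c := 6 * c) (d := d) (by linarith)
    (im_mul hz 4 (by norm_num))
  have e6 := G_moebius (a := a) (b := 6 * b) (c := 4 * c) (d := d) (by linarith)
    (im_mul hz 6 (by norm_num))
  have e8 := G_moebius (a := a) (b := 8 * b) (c := 3 * c) (d := d) (by linarith)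
    (im_mul hz 8 (by norm_num))
  have e12 := G_moebius (a := a) (b := 12 * b) (c := 2 * c) (d := d) (by linarith)
    (im_mul hz 12 (by norm_num))
  have e24 := G_moebius (a := a) (b := 24 * b) (c := c) (d := d) (by linarith)
    (im_mul hz 24 (by norm_num))
  push_cast at h0 e2 e4 e6 e8 e12 e24
  refine ⟨h0.1, h0.2, ?_, ?_, ?_, ?_, ?_, ?_⟩
  · rw [show (2 : ℂ) * ((a * z + b) / (24 * c * z + d)) =
        (a * (2 * z) + 2 * b) / (12 * c * (2 * z) + d) by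
      rw [← mul_div_assoc]; congr 1 <;> ring, e2]; ring
  · rw [show (4 : ℂ) * ((a * z + b) / (24 * c * z + d)) =
        (a * (4 * z) + 4 * b) / (6 * c * (4 * z) + d) by
      rw [← mul_div_assoc]; congr 1 <;> ring, e4]; ring
  · rw [show (6 : ℂ) * ((a * z + b) / (24 * c * z + d)) =
        (a * (6 * z) + 6 * b) / (4 * c * (6 * z) + d) by
      rw [← mul_div_assoc]; congr 1 <;> ring, e6]; ring
  · rw [show (8 : ℂ) * ((a * z + b) / (24 * c * z + d)) =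
        (a * (8 * z) + 8 * b) / (3 * c * (8 * z) + d) by
      rw [← mul_div_assoc]; congr 1 <;> ring, e8]; ring
  · rw [show (12 : ℂ) * ((a * z + b) / (24 * c * z + d)) =
        (a * (12 * z) + 12 * b) / (2 * c * (12 * z) + d) by
      rw [← mul_div_assoc]; congr 1 <;> ring, e12]; ring
  · rw [show (24 : ℂ) * ((a * z + b) / (24 * c * z + d)) =
        (a * (24 * z) + 24 * b) / (c * (24 * z) + d) by
      rw [← mul_div_assoc]; congr 1 <;> ring, e24]; ring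

lemma Gs_gamma (s2 s4 s6 s8 s12 s24 : ℤ) {a b c d : ℤ} (h : a * d - b * (24 * c) = 1) {z : ℂ}
    (hz : 0 < z.im) :
    Gs s2 s4 s6 s8 s12 s24 ((a * z + b) / (24 * c * z + d)) =
      ze ^ (s2 * kap a (2 * b) (12 * c) d + s4 * kap a (4 * b) (6 * c) d +
        s6 * kap a (6 * b) (4 * c) d + s8 * kap a (8 * b) (3 * c) d +
        s12 * kap a (12 * b) (2 * c) d + s24 * kap a (24 * b) c d) *
      (24 * c * z + d) ^ (s2 + s4 + s6 + s8 + s12 + s24) * Gs s2 s4 s6 s8 s12 s24 z := by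
  obtain ⟨-, hj, e2, e4, e6, e8, e12, e24⟩ := G_gamma h hz
  unfold Gs
  rw [e2, e4, e6, e8, e12, e24]
  simp only [mul_zpow, zpow_add₀ hj, zpow_add₀ ze_ne, zpow_mul]
  have : ∀ (x : ℂ) (m n : ℤ), (x ^ m) ^ n = (x ^ n) ^ m := fun x m n => by
    rw [← zpow_mul, ← zpow_mul, mul_comm]
  rw [this ze _ s2, this ze _ s4, this ze _ s6, this ze _ s8, this ze _ s12, this ze _ s24]
  ring

lemma phases {a b c d : ℤ} (h : a * d - b * (24 * c) = 1) :
    (12 : ℤ) ∣ (kap a (2 * b) (12 * c) d + kap a (4 * b) (6 * c) d + kap a (6 * b) (4 * c) d +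
      kap a (12 * b) (2 * c) d) ∧
    (12 : ℤ) ∣ (kap a (2 * b) (12 * c) d - 3 * kap a (4 * b) (6 * c) d -
      3 * kap a (6 * b) (4 * c) d + 2 * kap a (8 * b) (3 * c) d + 9 * kap a (12 * b) (2 * c) d -
      6 * kap a (24 * b) c d) ∧
    (12 : ℤ) ∣ (-kap a (4 * b) (6 * c) d + 2 * kap a (8 * b) (3 * c) d +
      kap a (12 * b) (2 * c) d - 2 * kap a (24 * b) c d) ∧
    (12 : ℤ) ∣ (-3 * kap a (2 * b) (12 * c) d + 7 * kap a (4 * b) (6 * c) d +
      kap a (6 * b) (4 * c) d - 2 * kap a (8 * b) (3 * c) d - kap a (12 * b) (2 * c) d -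
      2 * kap a (24 * b) c d) := by
  have h3 := kap24_3 a b c d (by exact_mod_cast congrArg (Int.cast : ℤ → ZMod 3) h)
  have h4 := kap24_4 a b c d (by exact_mod_cast congrArg (Int.cast : ℤ → ZMod 4) h)
  refine ⟨dvd12 ?_ ?_, dvd12 ?_ ?_, dvd12 ?_ ?_, dvd12 ?_ ?_⟩ <;> push_cast [cast_kap]
  · exact h3.1
  · exact h4.1
  · exact h3.2.1
  · exact h4.2.1
  · exact h3.2.2.1
  · exact h4.2.2.1
  · exact h3.2.2.2
  · exact h4.2.2.2

/-- invariance of `AA²` -/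
lemma AA_sq_gamma {a b c d : ℤ} (h : a * d - b * (24 * c) = 1) {z : ℂ} (hz : 0 < z.im) :
    AA ((a * z + b) / (24 * c * z + d)) ^ 2 = AA z ^ 2 := by
  rw [AA_sq, AA_sq, Gs_gamma _ _ _ _ _ _ h hz,
    show (1 : ℤ) * kap a (2 * b) (12 * c) d + -3 * kap a (4 * b) (6 * c) d +
      -3 * kap a (6 * b) (4 * c) d + 2 * kap a (8 * b) (3 * c) d + 9 * kap a (12 * b) (2 * c) d +
      -6 * kap a (24 * b) c d = kap a (2 * b) (12 * c) d - 3 * kap a (4 * b) (6 * c) d -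
      3 * kap a (6 * b) (4 * c) d + 2 * kap a (8 * b) (3 * c) d + 9 * kap a (12 * b) (2 * c) d -
      6 * kap a (24 * b) c d by ring, ze_dvd (phases h).2.1]
  norm_num

/-- invariance of `CC²` -/
lemma CC_sq_gamma {a b c d : ℤ} (h : a * d - b * (24 * c) = 1) {z : ℂ} (hz : 0 < z.im) :
    CC ((a * z + b) / (24 * c * z + d)) ^ 2 = CC z ^ 2 := by
  rw [CC_sq, CC_sq, Gs_gamma _ _ _ _ _ _ h hz,
    show (-3 : ℤ) * kap a (2 * b) (12 * c) d + 7 * kap a (4 * b) (6 * c) d +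
      1 * kap a (6 * b) (4 * c) d + -2 * kap a (8 * b) (3 * c) d + -1 * kap a (12 * b) (2 * c) d +
      -2 * kap a (24 * b) c d = -3 * kap a (2 * b) (12 * c) d + 7 * kap a (4 * b) (6 * c) d +
      kap a (6 * b) (4 * c) d - 2 * kap a (8 * b) (3 * c) d - kap a (12 * b) (2 * c) d -
      2 * kap a (24 * b) c d by ring, ze_dvd (phases h).2.2.2]
  norm_num

/-- invariance of `X1` -/
lemma X1_gamma {a b c d : ℤ} (h : a * d - b * (24 * c) = 1) {z : ℂ} (hz : 0 < z.im) :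
    X1 ((a * z + b) / (24 * c * z + d)) = X1 z := by
  rw [X1_eq, X1_eq, Gs_gamma _ _ _ _ _ _ h hz,
    show (0 : ℤ) * kap a (2 * b) (12 * c) d + -1 * kap a (4 * b) (6 * c) d +
      0 * kap a (6 * b) (4 * c) d + 2 * kap a (8 * b) (3 * c) d + 1 * kap a (12 * b) (2 * c) d +
      -2 * kap a (24 * b) c d = -kap a (4 * b) (6 * c) d + 2 * kap a (8 * b) (3 * c) d +
      kap a (12 * b) (2 * c) d - 2 * kap a (24 * b) c d by ring, ze_dvd (phases h).2.2.1]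
  norm_num

/-- weight four invariance of `ff²` -/
lemma ff_sq_gamma {a b c d : ℤ} (h : a * d - b * (24 * c) = 1) {z : ℂ} (hz : 0 < z.im) :
    ff ((a * z + b) / (24 * c * z + d)) ^ 2 = (24 * c * z + d) ^ 4 * ff z ^ 2 := by
  rw [ff_sq, ff_sq, Gs_gamma _ _ _ _ _ _ h hz]
  rw [show (1 : ℤ) * kap a (2 * b) (12 * c) d + 1 * kap a (4 * b) (6 * c) d +
    1 * kap a (6 * b) (4 * c) d + 0 * kap a (8 * b) (3 * c) d + 1 * kap a (12 * b) (2 * c) d +
    0 * kap a (24 * b) c d = kap a (2 * b) (12 * c) d + kap a (4 * b) (6 * c) d +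
    kap a (6 * b) (4 * c) d + kap a (12 * b) (2 * c) d by ring, ze_dvd (phases h).1]
  norm_num

end Pool.Agent.Run7.h741.MH
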