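import Pool.Agent.Run7.h741.MH.Coef

/-!
The newform of level 24 and its coefficients.
-/

set_option autoImplicit false

open UpperHalfPlane MatrixGroups CongruenceSubgroup Filter Topology MeasureTheory
open scoped ModularForm Pointwise

namespace Pool.Agent.Run7.h741.MH

open Pool.Agent.W97.TW
open Pool.Agent.W97.MT (qq qq_ne norm_qq norm_qq_lt im_mul z_ne H_open QV iI iI_pos iI_eventually tendsto_qq
  S_QEXP S_INJ S_ODE S_SUB hasDerivAt_qq tpi_ne line_im line_re inv_I im_aux exists_qq dslope_analytic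
  qParam_one cusp_expansion ap affCount Tr prim)
open Pool.Agent.Run7.h741.MF (hqe hinj hode hsub hsup hhint)

lemma form24_of {w : ℂ} (hw : 0 < w.im) : form24 (ofComplex w) = ff w := by
  rw [ofComplex_apply_of_im_pos hw, form24_apply]

lemma line_eq (z : ℂ) (hz : 0 ≤ z.im) : Set.EqOn
    (fun t : ℝ => form24 (ofComplex (z + t * Complex.I))) (fun t : ℝ => ff (z + t * Complex.I))
    (Set.Ioi 0) := by
  intro t ht
  have ht' : 0 < t := ht
  exact form24_of (by rw [line_im]; linarith)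

lemma prim_eq (z : ℂ) (hz : 0 ≤ z.im) :
    prim form24 z = 2 * Real.pi * ∫ t in Set.Ioi (0 : ℝ), ff (z + t * Complex.I) := by
  unfold prim
  rw [setIntegral_congr_fun measurableSet_Ioi (line_eq z hz)]

lemma prim_rat (r : ℚ) : prim form24 (r : ℂ) = II r := prim_eq _ (by simp)

lemma ff_ne_zero : ∃ z : ℍ, form24 z ≠ 0 := by
  exact ⟨UpperHalfPlane.I, ff_ne UpperHalfPlane.I.im_pos⟩

/-- integrability on the vertical half-lines -/
lemma int_ff {r : ℚ} (hr : IsCoprime (r.den : ℤ) 24) :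
    IntegrableOn (fun t : ℝ => ff ((r : ℂ) + t * Complex.I)) (Set.Ioi 0) := by
  obtain ⟨C24, l24⟩ := exists_limit cusp24.map
  exact (hit_prim cusp24.map l24 (by simp) (exists_hit_coprime r hr)).1

lemma int_rat {r : ℚ} (hr : IsCoprime (r.den : ℤ) 24) :
    IntegrableOn (fun t : ℝ => form24 (ofComplex ((r : ℂ) + t * Complex.I))) (Set.Ioi 0) :=
  (int_ff hr).congr_fun (line_eq _ (by simp)).symm measurableSet_Ioi

/-- Hecke operators and the integrals, with the integrability where it is needed -/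
theorem hint0 (N p : ℕ) (f : ℍ → ℂ) (a : ℂ) (hp : p.Prime) (r : ℚ)
    (hint : IntegrableOn (fun t : ℝ => f (ofComplex (((p * r : ℚ) : ℂ) + t * Complex.I))) (Set.Ioi 0))
    (hint2 : ∀ b : ℕ, IntegrableOn (fun t : ℝ => f (ofComplex ((((r + b) / p : ℚ) : ℂ) +
      t * Complex.I))) (Set.Ioi 0))
    (hh : ∀ z : ℍ, W97.MT.hecke N p f z = a * f z) :
    a * prim f r = (if p ∣ N then 0 else prim f ((p * r : ℚ) : ℂ)) +
      ∑ b ∈ Finset.range p, prim f (((r + b) / p : ℚ) : ℂ) := by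
  have hp0 : (0 : ℝ) < p := by exact_mod_cast hp.pos
  have hpC : (p : ℂ) ≠ 0 := by exact_mod_cast hp.ne_zero
  set F : ℚ → ℝ → ℂ := fun r t => f (ofComplex ((r : ℂ) + t * Complex.I)) with hF
  have hprim : ∀ s : ℚ, prim f (s : ℂ) = 2 * Real.pi * ∫ t in Set.Ioi (0 : ℝ), F s t := fun s => rfl
  have key : ∀ t : ℝ, 0 < t → a * F r t =
      (if p ∣ N then 0 else (p : ℂ) * F (p * r) (p * t)) +
        (∑ b ∈ Finset.range p, F ((r + b) / p) ((p : ℝ)⁻¹ * t)) / p := by
    intro t ht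
    have him : 0 < ((r : ℂ) + t * Complex.I).im := by simp [ht]
    have h1 := hh (ofComplex ((r : ℂ) + t * Complex.I))
    rw [hF]
    simp only
    rw [← h1, W97.MT.hecke]
    have hc : ((ofComplex ((r : ℂ) + t * Complex.I) : ℍ) : ℂ) = (r : ℂ) + t * Complex.I := by
      rw [ofComplex_apply_of_im_pos him]
    rw [hc]
    congr 1
    · congr 1
      congr 3
      push_cast; ring
    · congr 1
      apply Finset.sum_congr rfl
      intro b _
      congr 2
      push_cast
      field_simp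
      ring
  have hi1 : IntegrableOn (fun t => F (p * r) (p * t)) (Set.Ioi 0) := by
    rw [integrableOn_Ioi_comp_mul_left_iff (F (p * r)) 0 hp0, mul_zero]
    exact hint
  have hi2 : ∀ b : ℕ, IntegrableOn (fun t => F ((r + b) / p) ((p : ℝ)⁻¹ * t)) (Set.Ioi 0) := by
    intro b
    rw [integrableOn_Ioi_comp_mul_left_iff (F ((r + b) / p)) 0 (inv_pos.2 hp0), mul_zero]
    exact hint2 b
  have hv1 : ∫ t in Set.Ioi (0 : ℝ), F (p * r) (p * t) =
      (p : ℂ)⁻¹ * ∫ t in Set.Ioi (0 : ℝ), F (p * r) t := by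
    rw [integral_comp_mul_left_Ioi _ 0 hp0, mul_zero, Complex.real_smul]; push_cast; rfl
  have hv2 : ∀ b : ℕ, ∫ t in Set.Ioi (0 : ℝ), F ((r + b) / p) ((p : ℝ)⁻¹ * t) =
      (p : ℂ) * ∫ t in Set.Ioi (0 : ℝ), F ((r + b) / p) t := by
    intro b
    rw [integral_comp_mul_left_Ioi _ 0 (inv_pos.2 hp0), mul_zero, inv_inv, Complex.real_smul]
    push_cast; rfl
  have hint1 : a * ∫ t in Set.Ioi (0 : ℝ), F r t =
      (if p ∣ N then 0 else ∫ t in Set.Ioi (0 : ℝ), F (p * r) t) +
        ∑ b ∈ Finset.range p, ∫ t in Set.Ioi (0 : ℝ), F ((r + b) / p) t := by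
    rw [← integral_const_mul, setIntegral_congr_fun measurableSet_Ioi (fun t ht => key t ht)]
    have hsum : IntegrableOn (fun t => (∑ b ∈ Finset.range p, F ((r + b) / p) ((p : ℝ)⁻¹ * t)) /
        (p : ℂ)) (Set.Ioi 0) := by
      apply Integrable.div_const
      exact integrable_finset_sum _ (fun b _ => hi2 b)
    have hsumv : ∫ t in Set.Ioi (0 : ℝ), (∑ b ∈ Finset.range p, F ((r + b) / p) ((p : ℝ)⁻¹ * t)) /
        (p : ℂ) = ∑ b ∈ Finset.range p, ∫ t in Set.Ioi (0 : ℝ), F ((r + b) / p) t := by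
      rw [integral_div, integral_finset_sum _ (fun b _ => hi2 b)]
      simp_rw [hv2]
      rw [← Finset.mul_sum]
      field_simp
    by_cases hN : p ∣ N
    · simp only [hN, if_true, zero_add]
      exact hsumv
    · simp only [hN, if_false]
      rw [integral_add (hi1.const_mul _) hsum, hsumv, integral_const_mul, hv1]
      congr 1
      field_simp
  rw [hprim r]
  have h3 : a * (2 * Real.pi * ∫ t in Set.Ioi (0 : ℝ), F r t) =
      2 * Real.pi * (a * ∫ t in Set.Ioi (0 : ℝ), F r t) := by ring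
  rw [h3, hint1, mul_add, Finset.mul_sum]
  congr 1
  · split_ifs
    · simp
    · rw [hprim]

/-- an integer multiple of a point of order four -/
lemma four_dvd (L : PeriodPair) (x : ℂ) (h1 : x ∉ L.lattice) (h2 : 2 * x ∉ L.lattice)
    (h4 : 4 * x ∈ L.lattice) (n : ℤ) (hn : (n : ℂ) * x ∈ L.lattice) : (4 : ℤ) ∣ n := by
  have key : ∀ m k : ℤ, (m : ℂ) * x ∈ L.lattice → ((k * m : ℤ) : ℂ) * x ∈ L.lattice := by
    intro m k hm
    have := L.lattice.smul_mem k hm
    rw [zsmul_eq_mul] at this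
    push_cast
    rwa [mul_assoc]
  have h4' : ((4 : ℤ) : ℂ) * x ∈ L.lattice := by exact_mod_cast h4
  have hr : ((n % 4 : ℤ) : ℂ) * x ∈ L.lattice := by
    have h1 := sub_mem hn (key 4 (n / 4) h4')
    have h2 : ((n % 4 : ℤ) : ℂ) * x = (n : ℂ) * x - ((n / 4 * 4 : ℤ) : ℂ) * x := by
      have : (n % 4 : ℤ) = n - n / 4 * 4 := by omega
      rw [this]; push_cast; ring
    rw [h2]; exact h1
  have hn1 : ¬ ((1 : ℤ) : ℂ) * x ∈ L.lattice := by simpa using h1
  have hn2 : ¬ ((2 : ℤ) : ℂ) * x ∈ L.lattice := by exact_mod_cast h2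
  have hcases : n % 4 = 0 ∨ n % 4 = 1 ∨ n % 4 = 2 ∨ n % 4 = 3 := by omega
  rcases hcases with h | h | h | h
  · omega
  · rw [h] at hr; exact absurd hr hn1
  · rw [h] at hr; exact absurd hr hn2
  · rw [h] at hr
    have := sub_mem h4' hr
    refine absurd ?_ hn1
    convert this using 1
    push_cast; ring

/-- the coefficients of the form and of the curve -/
theorem coef_eq (hdim : S_DIM) (L : PeriodPair) (g2 : L.g₂ = 52 / 3) (g3 : L.g₃ = -280 / 27)
    {P Ξ σ : PowerSeries ℤ} (rP : W97.MT.Rep phi P)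
    (cΞ : PowerSeries.constantCoeff Ξ = 1) (cσ : PowerSeries.constantCoeff σ = -2)
    (d2 : PowerSeries.X * PowerSeries.derivative ℤ Ξ - 2 * Ξ = P * σ)
    (d3 : σ ^ 2 = 4 * Ξ ^ 3 + 8 * PowerSeries.X ^ 2 * Ξ ^ 2 - 12 * PowerSeries.X ^ 4 * Ξ)
    (hP0 : PowerSeries.coeff 0 P = 1) (hP1 : PowerSeries.coeff 1 P = 0)
    (hP2 : PowerSeries.coeff 2 P = -1) {l : ℕ} (hl : l.Prime) :
    PowerSeries.coeff (l - 1) P = ap E24 l := by
  obtain ⟨m2, m3, mb⟩ := Run7.h209.P24.h_min
  by_cases l2 : l = 2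
  · subst l2
    rw [show 2 - 1 = 1 by rfl, hP1]
    unfold ap; rw [m2]; rfl
  by_cases l3 : l = 3
  · subst l3
    rw [show 3 - 1 = 2 by rfl, hP2]
    unfold ap; rw [m3]; rfl
  have h5 : 5 ≤ l := by
    have := hl.two_le
    by_contra h
    have : l = 4 := by omega
    rw [this] at hl
    norm_num at hl
  set A : ℤ := PowerSeries.coeff (l - 1) P with hA
  obtain ⟨i1, i2, i4, i7⟩ := integrals L g2 g3
  have hH : ∀ z : ℍ, W97.MT.hecke 24 l form24 z = (A : ℂ) * form24 z := fun z =>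
    hecke_f24 rP hdim hP0 hl z
  -- the bound
  have hb : |A| ≤ l + 1 := by
    have h1 := hsup 24 form24 ff_ne_zero l hl A hH
    rw [Complex.norm_intCast] at h1
    exact_mod_cast h1
  -- modulo l
  have hmod : (l : ℤ) ∣ A - ap E24 l := by
    have h1 := coeff_mod Run7.h209.P24.h_hasse cΞ cσ d2 d3 hl l2
    have h2 := (ZMod.intCast_eq_intCast_iff_dvd_sub _ _ _).1 h1
    have h3 := (dvd_neg (α := ℤ)).2 h2
    rwa [neg_sub] at h3
  -- modulo 4
  have hcl : IsCoprime (l : ℤ) 24 := by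
    have h1 : Nat.Coprime l 24 := by
      rw [show 24 = 2 ^ 3 * 3 by norm_num]
      exact Nat.Coprime.mul_right (Nat.Coprime.pow_right 3 ((Nat.coprime_primes hl
        Nat.prime_two).2 l2)) ((Nat.coprime_primes hl Nat.prime_three).2 l3)
    exact_mod_cast Nat.isCoprime_iff_coprime.2 h1
  have hl24 : ¬ l ∣ 24 := by
    intro h
    have h1 : (l : ℤ) ∣ 24 := by exact_mod_cast h
    have h2 := hcl.isUnit_of_dvd' (dvd_refl _) h1
    rw [Int.isUnit_iff] at h2
    omega
  have hcb : ∀ b : ℕ, IsCoprime (((((0 : ℚ) + b) / l : ℚ).den : ℤ)) 24 := by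
    intro b
    have hden : (((((0 : ℚ) + b) / l : ℚ).den : ℤ)) ∣ l := by
      have := Rat.den_dvd (b : ℤ) (l : ℤ)
      rw [zero_add]
      rwa [Rat.divInt_eq_div, Int.cast_natCast, Int.cast_natCast] at this
    exact hcl.of_isCoprime_of_dvd_left hden
  have h4A : (4 : ℤ) ∣ l + 1 - A := by
    apply four_dvd L (II 0) i1 i2 i4
    have h1 := hint0 24 l form24 A hl 0 (int_rat (r := l * 0) (by
      rw [mul_zero]; exact isCoprime_one_left)) (fun b => int_rat (hcb b)) hH
    rw [if_neg hl24, prim_rat, prim_rat, mul_zero] at h1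
    have h2 : ∀ b ∈ Finset.range l, prim form24 (((0 + b) / l : ℚ) : ℂ) - II 0 ∈ L.lattice := by
      intro b _
      rw [prim_rat]
      exact i7 _ (hcb b)
    have h3 := sum_mem h2
    rw [Finset.sum_sub_distrib, Finset.sum_const, Finset.card_range, nsmul_eq_mul] at h3
    have h4 : ((l + 1 - A : ℤ) : ℂ) * II 0 =
        -((∑ b ∈ Finset.range l, prim form24 (((0 + b) / l : ℚ) : ℂ)) - (l : ℂ) * II 0) := by
      push_cast at h1 ⊢
      linear_combination (-1 : ℂ) * h1
    rw [h4]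
    exact neg_mem h3
  have h4E : (4 : ℤ) ∣ l + 1 - ap E24 l := by
    have h1 := Run7.h209.P24.h_four l hl l2 l3
    have h2 : ((4 : ℕ) : ℤ) ∣ ((affCount E24 l + 1 : ℕ) : ℤ) := Int.natCast_dvd_natCast.2 h1
    unfold ap
    push_cast at h2
    convert h2 using 1
    ring
  have h4 : (4 : ℤ) ∣ A - ap E24 l := by omega
  have hE : |ap E24 l| ≤ l := by
    have h1 := mb l hl
    unfold ap
    rw [abs_le]
    omega
  have hcop : IsCoprime (4 : ℤ) (l : ℤ) := by
    have h1 : Nat.Coprime 4 l := by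
      rw [show 4 = 2 ^ 2 by norm_num]
      exact Nat.Coprime.pow_left 2 ((Nat.coprime_primes Nat.prime_two hl).2 (Ne.symm l2))
    exact_mod_cast Nat.isCoprime_iff_coprime.2 h1
  obtain ⟨k, hk⟩ := hcop.mul_dvd h4 hmod
  have hA' := abs_le.1 hb
  have hE' := abs_le.1 hE
  have hk0 : k = 0 := by
    have h1 : |A - ap E24 l| < 4 * l := by
      rw [abs_lt]
      constructor <;> [linarith [hA'.1, hE'.2]; linarith [hA'.2, hE'.1]]
    rw [hk, abs_mul, abs_of_pos (by positivity : (0 : ℤ) < 4 * l)] at h1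
    have h2 : |k| < 1 := by nlinarith [abs_nonneg k]
    exact Int.abs_lt_one_iff.1 h2
  rw [hk0, mul_zero] at hk
  linarith

end Pool.Agent.Run7.h741.MH
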