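import Pool.Agent.Run7.h741.MH.Eta

/-!
The translation by one half.
-/

set_option autoImplicit false

open Filter Topology

namespace Pool.Agent.Run7.h741.MH

open Pool.Agent.W97.TW
open Pool.Agent.W97.MT (qq tt tt_ne qq_ne tt_pow norm_qq norm_qq_lt eta_mul eta_one G_mul Q_ne
  Q_ne_pow G_ne im_mul ze_dvd)

/-- the product over the odd exponents -/
noncomputable def Od (q : ℂ) : ℂ := ∏' k : ℕ, (1 - q ^ (2 * k + 1))

lemma mult_aux {q : ℂ} (hq : ‖q‖ < 1) {e : ℕ → ℕ} (he : ∀ k, k ≤ e k) :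
    Multipliable fun k : ℕ => (1 - q ^ (e k)) := by
  have h : Summable fun k : ℕ => ‖-q ^ (e k)‖ := by
    refine Summable.of_nonneg_of_le (fun k => norm_nonneg _) (fun k => ?_)
      (summable_geometric_of_lt_one (norm_nonneg q) hq)
    rw [norm_neg, norm_pow]
    exact pow_le_pow_of_le_one (norm_nonneg q) hq.le (he k)
  have := multipliable_one_add_of_summable h
  simpa [sub_eq_add_neg] using this

lemma Q_split {q : ℂ} (hq : ‖q‖ < 1) : Q q = Od q * Q (q ^ 2) := by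
  have h1 : Multipliable fun k : ℕ => (1 - q ^ (2 * k + 1)) := mult_aux hq fun k => by omega
  have h2 : Multipliable fun k : ℕ => (1 - q ^ (2 * k + 1 + 1)) := mult_aux hq fun k => by omega
  have h3 := tprod_even_mul_odd (f := fun i : ℕ => (1 - q ^ (i + 1))) h1 h2
  unfold Q Od
  rw [← h3]
  congr 1
  refine tprod_congr fun k => ?_
  rw [← pow_mul]
  congr 2

lemma Od_mul {q : ℂ} (hq : ‖q‖ < 1) : Od q * Od (-q) = Od (q ^ 2) := by
  have h1 : Multipliable fun k : ℕ => (1 - q ^ (2 * k + 1)) := mult_aux hq fun k => by omega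
  have h2 : Multipliable fun k : ℕ => (1 - (-q) ^ (2 * k + 1)) :=
    mult_aux (by rwa [norm_neg]) fun k => by omega
  unfold Od
  rw [← h1.tprod_mul h2]
  refine tprod_congr fun k => ?_
  rw [Odd.neg_pow ⟨k, rfl⟩, ← pow_mul]
  ring

lemma Q_neg {q : ℂ} (hq : ‖q‖ < 1) : Q (-q) * Q q * Q (q ^ 4) = Q (q ^ 2) ^ 3 := by
  have h1 := Q_split hq
  have h2 := Q_split (q := -q) (by rwa [norm_neg])
  have hq2 : ‖q ^ 2‖ < 1 := by
    rw [norm_pow]; exact pow_lt_one₀ (norm_nonneg _) hq two_ne_zero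
  have h3 := Q_split hq2
  have h4 := Od_mul hq
  rw [neg_sq] at h2
  rw [← pow_mul] at h3
  norm_num at h3
  calc Q (-q) * Q q * Q (q ^ 4) = (Od q * Od (-q)) * Q (q ^ 4) * Q (q ^ 2) ^ 2 := by
        rw [h2, h1]; ring
    _ = Q (q ^ 2) ^ 3 := by rw [h4, ← h3]; ring

/-- the constant of the translation -/
noncomputable def kh : ℂ := tt (1 / 2) ^ 2

lemma kh_sq : kh ^ 2 = ze := by
  unfold kh tt ze
  rw [← pow_mul, ← Complex.exp_nat_mul]
  congr 1
  push_cast
  ring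

lemma kh_ne : kh ≠ 0 := pow_ne_zero 2 (tt_ne _)

lemma tt_add (z w : ℂ) : tt (z + w) = tt z * tt w := by
  unfold tt
  rw [← Complex.exp_add]
  congr 1
  ring

lemma qq_half (z : ℂ) : qq (z + 1 / 2) = -qq z := by
  unfold qq
  rw [show 2 * Real.pi * Complex.I * (z + 1 / 2) = 2 * Real.pi * Complex.I * z +
    Real.pi * Complex.I by ring, Complex.exp_add, Complex.exp_pi_mul_I]
  ring

lemma G_half {w : ℂ} (hw : 0 < w.im) :
    G (w + 1 / 2) * (G w * G (4 * w)) = kh * G (2 * w) ^ 3 := by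
  have h1 := eta_one w
  have h2 := eta_mul 2 w
  have h4 := eta_mul 4 w
  have h0 := eta_one (w + 1 / 2)
  push_cast at h2 h4
  have h5 := Q_neg (norm_qq_lt hw)
  unfold G kh
  rw [h0, h1, h2, h4, tt_add, qq_half]
  linear_combination (tt w ^ 12 * tt (1 / 2) ^ 2) * (Q (-qq w) * Q (qq w) * Q (qq w ^ 4) +
    Q (qq w ^ 2) ^ 3) * h5

end Pool.Agent.Run7.h741.MH
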