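import Pool.Agent.W97.MT.QX
import Pool.Agent.Run7.h741.MF.QX
import Pool.Agent.Run7.h741.MH.Eta

/-!
The first coefficients of the expansions of level `24`.
-/

set_option autoImplicit false

open PowerSeries

namespace Pool.Agent.Run7.h741.MH

open Pool.Agent.W97.TW
open Pool.Agent.W97.MT (RepC Q_ne Q_ne_pow S_QEXP Tr)
open Pool.Agent.Run7.h741.MF (Ts mulL addL subL thL dilL l1 num tr_euler)


/-- expansion of `X1` -/
def lxi : List ℤ := [1, 0, 0, 0, 2, 0, 0, 0, 1, 0, 0, 0, 0, 0]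

/-- expansion of `AA` -/
def lxa : List ℤ := [1, 0, -1, 0, 2, 0, 0, 0, 1, 0, 0, 0, 0, 0]

/-- expansion of `CC` -/
def lxc : List ℤ := [1, 0, 3, 0, 2, 0, 0, 0, 1, 0, 0, 0, 0, 0]

/-- expansion of `ff` -/
def lphi : List ℤ := [1, 0, -1, 0, -2, 0, 0, 0, 1, 0, 4, 0, -2, 0]

theorem expansions (hq : S_QEXP) : ∃ Ξ A C P : ℤ⟦X⟧, W97.MT.Rep xi Ξ ∧ W97.MT.Rep xa A ∧
    W97.MT.Rep xc C ∧ W97.MT.Rep phi P ∧ Tr Ξ lxi ∧ Tr A lxa ∧ Tr C lxc ∧ Tr P lphi := by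
  obtain ⟨φ, h1, hr, hx⟩ := hq
  have hR : W97.MT.Rep Q φ := fun q hq => by
    have := hr q hq
    simpa [Q] using this
  have t1 := tr_euler hx
  have two : (2 : ℕ) ≠ 0 := by norm_num
  have four : (4 : ℕ) ≠ 0 := by norm_num
  have six : (6 : ℕ) ≠ 0 := by norm_num
  have eight : (8 : ℕ) ≠ 0 := by norm_num
  have tl : (12 : ℕ) ≠ 0 := by norm_num
  have tf : (24 : ℕ) ≠ 0 := by norm_num
  have r2 := hR.expand 2 two
  have r4 := hR.expand 4 four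
  have r6 := hR.expand 6 six
  have r8 := hR.expand 8 eight
  have r12 := hR.expand 12 tl
  have r24 := hR.expand 24 tf
  have t2 := t1.expand two
  have t4 := t1.expand four
  have t6 := t1.expand six
  have t8 := t1.expand eight
  have t12 := t1.expand tl
  have t24 := t1.expand tf
  set E2 := PowerSeries.expand 2 two φ with hE2
  set E4 := PowerSeries.expand 4 four φ with hE4
  set E6 := PowerSeries.expand 6 six φ with hE6
  set E8 := PowerSeries.expand 8 eight φ with hE8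
  set E12 := PowerSeries.expand 12 tl φ with hE12
  set E24 := PowerSeries.expand 24 tf φ with hE24
  have c2 : constantCoeff E2 = 1 := by rw [hE2]; simpa using h1
  have c4 : constantCoeff E4 = 1 := by rw [hE4]; simpa using h1
  have c6 : constantCoeff E6 = 1 := by rw [hE6]; simpa using h1
  have c8 : constantCoeff E8 = 1 := by rw [hE8]; simpa using h1
  have c12 : constantCoeff E12 = 1 := by rw [hE12]; simpa using h1
  have c24 : constantCoeff E24 = 1 := by rw [hE24]; simpa using h1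
  have hinv : ∀ (E : ℤ⟦X⟧) (k : ℕ), constantCoeff E = 1 → ∃ V : ℤ⟦X⟧, E ^ k * V = 1 :=
    fun E k hE => by
      have hu : IsUnit (E ^ k) := by
        rw [PowerSeries.isUnit_iff_constantCoeff, map_pow, hE, one_pow]; exact isUnit_one
      exact hu.exists_right_inv
  obtain ⟨V42, h42⟩ := hinv E4 2 c4
  obtain ⟨V43, h43⟩ := hinv E4 3 c4
  obtain ⟨V63, h63⟩ := hinv E6 3 c6
  obtain ⟨V23, h23⟩ := hinv E2 3 c2
  obtain ⟨V82, h82⟩ := hinv E8 2 c8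
  obtain ⟨V121, h121⟩ := hinv E12 1 c12
  obtain ⟨V242, h242⟩ := hinv E24 2 c24
  obtain ⟨V244, h244⟩ := hinv E24 4 c24
  obtain ⟨V246, h246⟩ := hinv E24 6 c24
  have i42 := (r4.pow 2).inv h42 fun q hq => pow_ne_zero _ (Q_ne_pow hq four)
  have i43 := (r4.pow 3).inv h43 fun q hq => pow_ne_zero _ (Q_ne_pow hq four)
  have i63 := (r6.pow 3).inv h63 fun q hq => pow_ne_zero _ (Q_ne_pow hq six)
  have i23 := (r2.pow 3).inv h23 fun q hq => pow_ne_zero _ (Q_ne_pow hq two)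
  have i82 := (r8.pow 2).inv h82 fun q hq => pow_ne_zero _ (Q_ne_pow hq eight)
  have i121 := (r12.pow 1).inv h121 fun q hq => pow_ne_zero _ (Q_ne_pow hq tl)
  have i242 := (r24.pow 2).inv h242 fun q hq => pow_ne_zero _ (Q_ne_pow hq tf)
  have i244 := (r24.pow 4).inv h244 fun q hq => pow_ne_zero _ (Q_ne_pow hq tf)
  have i246 := (r24.pow 6).inv h246 fun q hq => pow_ne_zero _ (Q_ne_pow hq tf)
  have tΞ : Ts (V42 * E8 ^ 4 * E12 ^ 2 * V244) lxi := by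
    refine MF.Ts.cancel (W := E4 ^ 2 * E24 ^ 4)
      (b := mulL (MF.Ts.powL (dilL 8 l1) 4) (MF.Ts.powL (dilL 12 l1) 2)) ?_
      ((t4.pow 2).mul (t24.pow 4)) (by rw [map_mul, map_pow, map_pow, c4, c24]; norm_num)
      (by decide +kernel)
    refine ((t8.pow 4).mul (t12.pow 2)).of_eq ?_
    linear_combination (-(E8 ^ 4 * E12 ^ 2 * (V244 * E24 ^ 4))) * h42 - E8 ^ 4 * E12 ^ 2 * h244
  have tA : Ts (E2 * V43 * V63 * E8 ^ 2 * E12 ^ 9 * V246) lxa := by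
    refine MF.Ts.cancel (W := (E4 ^ 3 * E6 ^ 3) * E24 ^ 6)
      (b := mulL (mulL (dilL 2 l1) (MF.Ts.powL (dilL 8 l1) 2)) (MF.Ts.powL (dilL 12 l1) 9)) ?_
      (((t4.pow 3).mul (t6.pow 3)).mul (t24.pow 6))
      (by rw [map_mul, map_mul, map_pow, map_pow, map_pow, c4, c6, c24]; norm_num)
      (by decide +kernel)
    refine ((t2.mul (t8.pow 2)).mul (t12.pow 9)).of_eq ?_
    linear_combination (-(E2 * E8 ^ 2 * E12 ^ 9 * (V63 * E6 ^ 3) * (V246 * E24 ^ 6))) * h43 -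
      (E2 * E8 ^ 2 * E12 ^ 9 * (V246 * E24 ^ 6)) * h63 - E2 * E8 ^ 2 * E12 ^ 9 * h246
  have tC : Ts (V23 * E4 ^ 7 * E6 * V82 * V121 * V242) lxc := by
    refine MF.Ts.cancel (W := (E2 ^ 3 * E8 ^ 2) * (E12 ^ 1 * E24 ^ 2))
      (b := mulL (MF.Ts.powL (dilL 4 l1) 7) (dilL 6 l1)) ?_
      (((t2.pow 3).mul (t8.pow 2)).mul ((t12.pow 1).mul (t24.pow 2)))
      (by rw [map_mul, map_mul, map_mul, map_pow, map_pow, map_pow, map_pow, c2, c8, c12, c24]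
          norm_num)
      (by decide +kernel)
    refine ((t4.pow 7).mul t6).of_eq ?_
    linear_combination (-(E4 ^ 7 * E6 * (V82 * E8 ^ 2) * (V121 * E12 ^ 1) * (V242 * E24 ^ 2))) * h23 -
      (E4 ^ 7 * E6 * (V121 * E12 ^ 1) * (V242 * E24 ^ 2)) * h82 -
      (E4 ^ 7 * E6 * (V242 * E24 ^ 2)) * h121 - (E4 ^ 7 * E6) * h242
  have tP : Ts (E2 * E4 * E6 * E12) lphi := by
    refine (((t2.mul t4).mul t6).mul t12).congr ?_
    decide +kernel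
  refine ⟨V42 * E8 ^ 4 * E12 ^ 2 * V244, E2 * V43 * V63 * E8 ^ 2 * E12 ^ 9 * V246,
    V23 * E4 ^ 7 * E6 * V82 * V121 * V242, E2 * E4 * E6 * E12, ?_, ?_, ?_, ?_,
    tΞ.tr, tA.tr, tC.tr, tP.tr⟩
  · exact ((i42.mul (r8.pow 4)).mul (r12.pow 2)).mul i244
  · exact ((((r2.mul i43).mul i63).mul (r8.pow 2)).mul (r12.pow 9)).mul i246
  · have h := (((((i23.mul (r4.pow 7)).mul r6).mul i82).mul i121).mul i242)
    refine h.congr fun q hq => ?_
    unfold xc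
    rw [pow_one]
  · exact ((r2.mul r4).mul r6).mul r12

theorem identity_a {Ξ A : ℤ⟦X⟧} (hΞ : Tr Ξ lxi) (hA : Tr A lxa) : PowerSeries.X ^ 13 ∣
    A ^ 2 - (Ξ - PowerSeries.X ^ 2) ^ 2 := by
  refine W97.MT.Tr.dvd_of_zero ?_
  refine W97.MT.Tr.congr ((hA.pow 2).sub ((hΞ.sub (W97.MT.Tr.X.pow 2)).pow 2)) ?_
  decide +kernel

theorem identity_c {Ξ C : ℤ⟦X⟧} (hΞ : Tr Ξ lxi) (hC : Tr C lxc) : PowerSeries.X ^ 13 ∣
    C ^ 2 - (Ξ + 3 * PowerSeries.X ^ 2) ^ 2 := by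
  refine W97.MT.Tr.dvd_of_zero ?_
  rw [num 3]
  refine W97.MT.Tr.congr ((hC.pow 2).sub ((hΞ.add ((W97.MT.Tr.C 3).mul
    (W97.MT.Tr.X.pow 2))).pow 2)) ?_
  decide +kernel

theorem identity_two {Ξ P : ℤ⟦X⟧} (hΞ : Tr Ξ lxi) (hP : Tr P lphi) : PowerSeries.X ^ 13 ∣
    (PowerSeries.X * derivative ℤ Ξ - 2 * Ξ) ^ 2 - P ^ 2 * (4 * Ξ ^ 3 +
      8 * (PowerSeries.X * Ξ) ^ 2 - 12 * (PowerSeries.X ^ 4 * Ξ)) := by
  refine W97.MT.Tr.dvd_of_zero ?_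
  rw [num 2, num 4, num 8, num 12]
  refine W97.MT.Tr.congr (((hΞ.theta.sub ((W97.MT.Tr.C 2).mul hΞ)).pow 2).sub ((hP.pow 2).mul
    ((((W97.MT.Tr.C 4).mul (hΞ.pow 3)).add ((W97.MT.Tr.C 8).mul ((W97.MT.Tr.X.mul hΞ).pow 2))).sub
    ((W97.MT.Tr.C 12).mul ((W97.MT.Tr.X.pow 4).mul hΞ))))) ?_
  decide +kernel

end Pool.Agent.Run7.h741.MH
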