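import Pool.Agent.Run7.h741.MH.Mult
import Pool.Agent.Run7.h741.MH.QX
import Pool.Agent.W97.MT.Ident

/-!
The identities between the modular functions.
-/

set_option autoImplicit false

open Filter Topology

namespace Pool.Agent.Run7.h741.MH

open Pool.Agent.W97.TW
open Pool.Agent.Run7.h741.MF (num)
open Pool.Agent.W97.MT (qq tt tt_ne qq_ne tt_pow norm_qq norm_qq_lt eta_mul eta_one G_mul Q_ne
  Q_ne_pow G_ne im_mul z_ne H_open eta_diff QV QV_Q QV_Q1 QV_of_sq Q_contOn Q_contOn1 qq_cont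
  comp_cont iI iI_pos S_QEXP Rep RepC QV_zero_of_dvd mul_zero_or Qq_analytic hasDerivAt_qq tpi_ne
  eq_or_eq_neg)

/-- invariance under `Γ_0(24)` -/
def Inv (g : ℂ → ℂ) : Prop := ∀ a b c d : ℤ, a * d - b * (24 * c) = 1 → ∀ z : ℂ, 0 < z.im →
  g ((a * z + b) / (24 * c * z + d)) = g z

theorem cp_zero (hcp : S_CP) {g : ℂ → ℂ} (hd : ∀ z : ℂ, 0 < z.im → DifferentiableAt ℂ g z)
    (hinv : Inv g) (h1 : QV g 0)
    (H : ∀ (m j : ℂ → ℂ) (x a c : ℂ), IsCusp m j x a c → ∃ v, QV (fun z => g (m z)) v) :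
    ∀ z : ℂ, 0 < z.im → g z = 0 := by
  obtain ⟨v1, e1⟩ := H _ _ _ _ _ cusp24
  obtain ⟨v2, e2⟩ := H _ _ _ _ _ cusp24.half
  obtain ⟨v3, e3⟩ := H _ _ _ _ _ cusp3
  obtain ⟨v4, e4⟩ := H _ _ _ _ _ cuspv
  obtain ⟨x, hx⟩ := cuspv3
  obtain ⟨v5, e5⟩ := H _ _ _ _ _ hx
  obtain ⟨v6, e6⟩ := H _ _ _ _ _ cusp324
  obtain ⟨v7, e7⟩ := H _ _ _ _ _ cusp324.half
  have e5' : QV (fun z => g ((3 * z + 1) / (60 * z + 21))) v5 :=
    e5.of_eq (iI_pos.mono fun z hz => by rw [mv3_eq hz])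
  have e6' : QV (fun z => g ((8 * z - 1) / (72 * z - 8))) v6 :=
    e6.of_eq (iI_pos.mono fun z hz => by rw [m324_eq hz])
  have e7' : QV (fun z => g ((8 * z - 1) / (72 * z - 8) + 1 / 2)) v7 :=
    e7.of_eq (iI_pos.mono fun z hz => by rw [m324_eq hz])
  obtain ⟨c, hc⟩ := hcp g (fun z hz => (hd z hz).differentiableWithinAt) hinv h1.bounded'
    e1.bounded e2.bounded e3.bounded e4.bounded e5'.bounded e6'.bounded e7'.bounded
  have h3 : QV g c := (QV.const c).of_eq (iI_pos.mono fun z hz => hc z hz)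
  have h4 := h3.val_unique h1
  intro z hz
  rw [hc z hz, h4]

lemma phi_zero : phi 0 = 1 := by
  unfold phi
  simp [Q_zero]

lemma phi_analytic : AnalyticAt ℂ phi 0 := by
  have e2 := Qq_analytic 2 (by norm_num)
  have e4 := Qq_analytic 4 (by norm_num)
  have e6 := Qq_analytic 6 (by norm_num)
  have e12 := Qq_analytic 12 (by norm_num)
  exact ((e2.mul e4).mul e6).mul e12

lemma QV_phi : QV (fun z => phi (qq z)) 1 := (QV.comp phi_analytic).of_val phi_zero

lemma rho_zero : rho 0 = -2 := by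
  unfold rho
  simp [Q_zero]

lemma rho_analytic : AnalyticAt ℂ rho 0 := by
  have e2 := Qq_analytic 2 (by norm_num)
  have e4 := Qq_analytic 4 (by norm_num)
  have e6 := Qq_analytic 6 (by norm_num)
  have e8 := Qq_analytic 8 (by norm_num)
  have e12 := Qq_analytic 12 (by norm_num)
  have e24 := Qq_analytic 24 (by norm_num)
  exact analyticAt_const.mul <| (((((e2.inv (by simp [Q_zero])).mul e4).mul (e6.inv (by simp [Q_zero]))).mul
    (e8.pow 2)).mul (e12.pow 5)).mul ((e24.pow 6).inv (by simp [Q_zero]))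

/-- the first identity -/
noncomputable def ga (z : ℂ) : ℂ := AA z ^ 2 - (X1 z - 1) ^ 2

/-- the second identity -/
noncomputable def gc (z : ℂ) : ℂ := CC z ^ 2 - (X1 z + 3) ^ 2

theorem ga_zero (hcp : S_CP) (hq : S_QEXP) : ∀ z : ℂ, 0 < z.im → ga z = 0 := by
  obtain ⟨Ξ, A, C, P, rΞ, rA, rC, rP, tΞ, tA, tC, tP⟩ := expansions hq
  have hid := identity_a tΞ tA
  have hrep := (rA.pow 2).sub ((rΞ.sub (Rep.X.pow 2)).pow 2)
  refine cp_zero hcp (fun z hz => ((AA_diff hz).pow 2).sub (((X1_diff hz).sub_const 1).pow 2))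
    (fun a b c d h z hz => by unfold ga; rw [AA_sq_gamma h hz, X1_gamma h hz])
    (QV_zero_of_dvd (m := 4) hrep (dvd_trans (pow_dvd_pow _ (by norm_num)) hid) ?_) ?_
  · intro z hz
    unfold ga
    rw [← qq_X1 hz, ← qq_AA hz]
    ring
  · intro m j x a c h
    exact ⟨_, h.A.sub ((h.X.sub (QV.const 1)).pow 2)⟩

theorem gc_zero (hcp : S_CP) (hq : S_QEXP) : ∀ z : ℂ, 0 < z.im → gc z = 0 := by
  obtain ⟨Ξ, A, C, P, rΞ, rA, rC, rP, tΞ, tA, tC, tP⟩ := expansions hq
  have hid := identity_c tΞ tC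
  rw [num 3] at hid
  have hrep := (rC.pow 2).sub ((rΞ.add ((Rep.C 3).mul (Rep.X.pow 2))).pow 2)
  refine cp_zero hcp (fun z hz => ((CC_diff hz).pow 2).sub (((X1_diff hz).add_const 3).pow 2))
    (fun a b c d h z hz => by unfold gc; rw [CC_sq_gamma h hz, X1_gamma h hz])
    (QV_zero_of_dvd (m := 4) hrep (dvd_trans (pow_dvd_pow _ (by norm_num)) hid) ?_) ?_
  · intro z hz
    unfold gc
    rw [← qq_X1 hz, ← qq_CC hz]
    push_cast
    ring
  · intro m j x a c h
    exact ⟨_, h.C.sub ((h.X.add (QV.const 3)).pow 2)⟩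

lemma QV_XX : QV (fun z => qq z ^ 2 * X1 z) 1 :=
  QV_xi.of_eq (iI_pos.mono fun z hz => qq_X1 hz)

lemma QV_AA : QV (fun z => qq z ^ 2 * AA z) 1 :=
  QV_xa.of_eq (iI_pos.mono fun z hz => qq_AA hz)

lemma QV_CC : QV (fun z => qq z ^ 2 * CC z) 1 :=
  QV_xc.of_eq (iI_pos.mono fun z hz => qq_CC hz)

/-- the first identity -/
theorem AA_eq (hcp : S_CP) (hq : S_QEXP) : ∀ z : ℂ, 0 < z.im → AA z = X1 z - 1 := by
  have h0 := ga_zero hcp hq
  have h := mul_zero_or (f := fun z => AA z - (X1 z - 1)) (g := fun z => AA z + (X1 z - 1))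
    (fun z hz => (AA_diff hz).sub ((X1_diff hz).sub_const 1))
    (fun z hz => (AA_diff hz).add ((X1_diff hz).sub_const 1)) (fun z hz => by
      have := h0 z hz
      unfold ga at this
      linear_combination this)
  rcases h with h | h
  · intro z hz
    exact sub_eq_zero.1 (h z hz)
  · exfalso
    have h1 := (QV_AA.add (QV_XX.sub (QV.qq'.pow 2))).of_eq (f := fun _ => 0)
      (iI_pos.mono fun z hz => by
        have := h z hz
        linear_combination (-(qq z ^ 2)) * this)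
    have h2 := h1.val_unique (QV.const 0)
    norm_num at h2

/-- the second identity -/
theorem CC_eq (hcp : S_CP) (hq : S_QEXP) : ∀ z : ℂ, 0 < z.im → CC z = X1 z + 3 := by
  have h0 := gc_zero hcp hq
  have h := mul_zero_or (f := fun z => CC z - (X1 z + 3)) (g := fun z => CC z + (X1 z + 3))
    (fun z hz => (CC_diff hz).sub ((X1_diff hz).add_const 3))
    (fun z hz => (CC_diff hz).add ((X1_diff hz).add_const 3)) (fun z hz => by
      have := h0 z hz
      unfold gc at this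
      linear_combination this)
  rcases h with h | h
  · intro z hz
    exact sub_eq_zero.1 (h z hz)
  · exfalso
    have h1 := (QV_CC.add (QV_XX.add ((QV.const 3).mul (QV.qq'.pow 2)))).of_eq (f := fun _ => 0)
      (iI_pos.mono fun z hz => by
        have := h z hz
        linear_combination (-(qq z ^ 2)) * this)
    have h2 := h1.val_unique (QV.const 0)
    norm_num at h2

/-- the equation of the curve -/
theorem RR_sq (hcp : S_CP) (hq : S_QEXP) {z : ℂ} (hz : 0 < z.im) :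
    RR z ^ 2 = 4 * X1 z ^ 3 + 8 * X1 z ^ 2 - 12 * X1 z := by
  rw [RR_sq' hz, AA_eq hcp hq z hz, CC_eq hcp hq z hz]
  ring

/-- `dx / (2πi f dz)` -/
noncomputable def R0 (z : ℂ) : ℂ := deriv X1 z / (2 * Real.pi * Complex.I * ff z)

lemma R0_diff {z : ℂ} (hz : 0 < z.im) : DifferentiableAt ℂ R0 z := by
  have h1 : DifferentiableOn ℂ X1 {z : ℂ | 0 < z.im} := fun w hw =>
    (X1_diff hw).differentiableWithinAt
  have h2 := (h1.deriv H_open).differentiableAt (H_open.mem_nhds hz)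
  exact h2.div ((ff_diff hz).const_mul _) (mul_ne_zero tpi_ne (ff_ne hz))

lemma hasDerivAt_gamma {a b c d : ℤ} (h : a * d - b * (24 * c) = 1) {z : ℂ} (hz : 0 < z.im) :
    HasDerivAt (fun z : ℂ => (a * z + b) / (24 * c * z + d)) (((24 * c * z + d) ^ 2)⁻¹) z := by
  have h0 := (G_gamma h hz).2.1
  have h1 : HasDerivAt (fun w : ℂ => (a : ℂ) * w + b) a z := by
    simpa using ((hasDerivAt_id z).const_mul (a : ℂ)).add_const (b : ℂ)
  have h2 : HasDerivAt (fun w : ℂ => 24 * (c : ℂ) * w + d) (24 * c) z := by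
    simpa using ((hasDerivAt_id z).const_mul (24 * (c : ℂ))).add_const (d : ℂ)
  refine (h1.div h2 h0).congr_deriv ?_
  have h3 : (a : ℂ) * d - b * (24 * c) = 1 := by exact_mod_cast h
  field_simp
  linear_combination h3

/-- the derivative of `X1` is of weight two -/
lemma deriv_X1_gamma {a b c d : ℤ} (h : a * d - b * (24 * c) = 1)
    {z : ℂ} (hz : 0 < z.im) :
    deriv X1 ((a * z + b) / (24 * c * z + d)) = (24 * c * z + d) ^ 2 * deriv X1 z := by
  have h0 := (G_gamma h hz).2.1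
  have hm := (G_gamma h hz).1
  have h1 := (X1_diff hm).hasDerivAt.comp z (hasDerivAt_gamma h hz)
  have h2 : X1 ∘ (fun z : ℂ => (a * z + b) / (24 * c * z + d)) =ᶠ[𝓝 z] X1 := by
    filter_upwards [H_open.mem_nhds hz] with w hw
    exact X1_gamma h hw
  have h3 := (h1.congr_of_eventuallyEq h2.symm).deriv
  rw [h3, mul_comm (deriv X1 _), ← mul_assoc, mul_inv_cancel₀ (pow_ne_zero 2 h0), one_mul]

/-- the function comparing `R0²` with the cubic -/
noncomputable def g2 (z : ℂ) : ℂ := R0 z ^ 2 - (4 * X1 z ^ 3 + 8 * X1 z ^ 2 - 12 * X1 z)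

lemma g2_diff {z : ℂ} (hz : 0 < z.im) : DifferentiableAt ℂ g2 z := by
  have h1 := X1_diff hz
  have h2 := R0_diff hz
  unfold g2
  fun_prop

lemma g2_inv : Inv g2 := by
  intro a b c d h z hz
  have h0 := (G_gamma h hz).2.1
  have hf := ff_ne hz
  unfold g2 R0
  rw [X1_gamma h hz, deriv_X1_gamma h hz, div_pow, mul_pow _ (ff _),
    ff_sq_gamma h hz]
  congr 1
  field_simp

/-- `R0²` at a cusp -/
lemma R0_cusp {m j : ℂ → ℂ} {x a c : ℂ} (h : IsCusp m j x a c) :
    ∃ v, QV (fun z => R0 (m z) ^ 2) v := by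
  obtain ⟨k, hk, h1⟩ := h.X.deriv'
  refine ⟨_, (((QV.comp hk).mul (QV_phi.inv one_ne_zero)).pow 2).of_eq ?_⟩
  filter_upwards [h1, iI_pos] with z hz hp
  have h2 := (X1_diff (h.map.pos z hp)).hasDerivAt.comp z (h.map.der z hp)
  have h3 := h2.unique hz
  have h4 := h.map.ffj z hp
  have hf := ff_ne hp
  have hj := h.map.jne z hp
  have hfm := ff_ne (h.map.pos z hp)
  have hq := qq_ne z
  have hph : phi (qq z) ≠ 0 := by
    intro h0
    rw [ff_q, h0, mul_zero] at hf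
    exact hf rfl
  have h5 : R0 (m z) ^ 2 = (deriv X1 (m z) * j z) ^ 2 / ((2 * Real.pi * Complex.I) ^ 2 *
      (ff (m z) * j z) ^ 2) := by
    unfold R0
    field_simp
  have hI : (Complex.I : ℂ) ≠ 0 := Complex.I_ne_zero
  have hpi : (Real.pi : ℂ) ≠ 0 := by exact_mod_cast Real.pi_ne_zero
  rw [h5, h3, h4, ff_q]
  field_simp

lemma g2_cusp {m j : ℂ → ℂ} {x a c : ℂ} (h : IsCusp m j x a c) : ∃ v, QV (fun z => g2 (m z)) v := by
  obtain ⟨v, hv⟩ := R0_cusp h
  exact ⟨_, hv.sub ((((QV.const 4).mul (h.X.pow 3)).add ((QV.const 8).mul (h.X.pow 2))).sub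
    ((QV.const 12).mul h.X))⟩

/-- `R0` in terms of `q` -/
lemma R0_q {Ξ : PowerSeries ℤ} (hΞ : W97.MT.Rep xi Ξ) {z : ℂ} (hz : 0 < z.im) :
    qq z ^ 3 * (R0 z * phi (qq z)) = qq z * deriv xi (qq z) - 2 * xi (qq z) := by
  have hx : DifferentiableAt ℂ xi (qq z) :=
    (RepC.differentiableOn hΞ).differentiableAt (Metric.isOpen_ball.mem_nhds
      (by simpa using norm_qq_lt hz))
  have hq := qq_ne z
  have h1 := (hx.hasDerivAt.comp z (hasDerivAt_qq z)).div ((hasDerivAt_qq z).pow 2)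
    (pow_ne_zero 2 hq)
  have h2 : X1 =ᶠ[𝓝 z] (xi ∘ qq) / (qq ^ 2) := by
    filter_upwards [H_open.mem_nhds hz] with w hw
    exact X1_q hw
  have h3 := (h1.congr_of_eventuallyEq h2).deriv
  have hf := ff_ne hz
  have hph : phi (qq z) ≠ 0 := by
    intro h0
    rw [ff_q, h0, mul_zero] at hf
    exact hf rfl
  have hI : (Complex.I : ℂ) ≠ 0 := Complex.I_ne_zero
  have hpi : (Real.pi : ℂ) ≠ 0 := by exact_mod_cast Real.pi_ne_zero
  unfold R0
  rw [h3, ff_q]
  simp only [Function.comp_apply, Pi.pow_apply]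
  field_simp
  push_cast
  ring

theorem g2_zero (hcp : S_CP) (hq : S_QEXP) : ∀ z : ℂ, 0 < z.im → g2 z = 0 := by
  obtain ⟨Ξ, A, C, P, rΞ, rA, rC, rP, tΞ, tA, tC, tP⟩ := expansions hq
  have hid := identity_two tΞ tP
  rw [num 2, num 4, num 8, num 12] at hid
  have hrep := ((rΞ.theta.sub ((Rep.C 2).mul rΞ)).pow 2).sub ((rP.pow 2).mul
    ((((Rep.C 4).mul (rΞ.pow 3)).add ((Rep.C 8).mul ((Rep.X.mul rΞ).pow 2))).sub
    ((Rep.C 12).mul ((Rep.X.pow 4).mul rΞ))))
  have h0 : QV (fun z => phi (qq z) ^ 2 * g2 z) 0 := by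
    refine QV_zero_of_dvd (m := 6) hrep (dvd_trans (pow_dvd_pow _ (by norm_num)) hid) ?_
    intro z hz
    unfold g2
    push_cast
    rw [← R0_q rΞ hz, ← qq_X1 hz]
    ring
  have h0' : QV g2 0 := by
    refine ((((QV_phi.pow 2).inv (by norm_num)).mul h0).of_eq (iI_pos.mono fun z hz => ?_)).of_val
      (by simp)
    have hf := ff_ne hz
    have hph : phi (qq z) ≠ 0 := by
      intro h0
      rw [ff_q, h0, mul_zero] at hf
      exact hf rfl
    field_simp
  exact cp_zero hcp (fun z hz => g2_diff hz) g2_inv h0' fun m j x a c h => g2_cusp h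

lemma QV_R {Ξ : PowerSeries ℤ} (hΞ : W97.MT.Rep xi Ξ) : QV (fun z => qq z ^ 3 * R0 z) (-2) := by
  have h1 : AnalyticAt ℂ (deriv xi) 0 := hΞ.analyticAt_zero.deriv
  refine ((((QV.qq'.mul (QV.comp h1)).sub ((QV.const 2).mul QV_xi)).mul
    (QV_phi.inv one_ne_zero)).of_eq (iI_pos.mono fun z hz => ?_)).of_val (by norm_num)
  have hf := ff_ne hz
  have hph : phi (qq z) ≠ 0 := by
    intro h0
    rw [ff_q, h0, mul_zero] at hf
    exact hf rfl
  rw [← R0_q hΞ hz]
  field_simp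

lemma QV_RR : QV (fun z => qq z ^ 3 * RR z) (-2) := by
  refine ((QV.comp rho_analytic).of_val rho_zero).of_eq (iI_pos.mono fun z hz => ?_)
  rw [RR_q hz]
  field_simp [qq_ne z]

/-- the differential -/
theorem R0_eq (hcp : S_CP) (hq : S_QEXP) : ∀ z : ℂ, 0 < z.im → R0 z = RR z := by
  obtain ⟨Ξ, A, C, P, rΞ, rA, rC, rP, tΞ, tA, tC, tP⟩ := expansions hq
  have h := mul_zero_or (f := fun z => R0 z - RR z) (g := fun z => R0 z + RR z) (fun z hz => by
        have h1 := R0_diff hz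
        have h2 := RR_diff hz
        fun_prop) (fun z hz => by
        have h1 := R0_diff hz
        have h2 := RR_diff hz
        fun_prop) (fun z hz => by
        have h1 := g2_zero hcp hq z hz
        have h2 := RR_sq hcp hq hz
        unfold g2 at h1
        linear_combination h1 - h2)
  rcases h with h | h
  · intro z hz
    exact sub_eq_zero.1 (h z hz)
  · exfalso
    have h1 := ((QV_R rΞ).add (QV_RR)).of_eq (f := fun _ => 0) (iI_pos.mono fun z hz => by
      have := h z hz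
      linear_combination (-(qq z ^ 3)) * this)
    have h2 := h1.val_unique (QV.const 0)
    norm_num at h2

theorem deriv_X1 (hcp : S_CP) (hq : S_QEXP) {z : ℂ} (hz : 0 < z.im) :
    deriv X1 z = 2 * Real.pi * Complex.I * ff z * RR z := by
  rw [← R0_eq hcp hq z hz]
  unfold R0
  rw [mul_div_cancel₀ _ (mul_ne_zero tpi_ne (ff_ne hz))]

/-- the sign of a map -/
lemma IsMap.sign {m j : ℂ → ℂ} (h : IsMap m j) :
    ∃ ε : ℂ, (ε = 1 ∨ ε = -1) ∧ ∀ z : ℂ, 0 < z.im → ff (m z) * j z = ε * ff z := by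
  have hc : ContinuousOn (fun z => ff (m z) * j z) {z : ℂ | 0 < z.im} :=
    (comp_cont h.pos h.der ff_cont).mul h.jcont
  rcases eq_or_eq_neg hc ff_cont h.ffj (fun z hz => ff_ne hz) with h1 | h1
  · exact ⟨1, Or.inl rfl, fun z hz => by rw [h1 z hz]; ring⟩
  · exact ⟨-1, Or.inr rfl, fun z hz => by rw [h1 z hz]; ring⟩

lemma ff_add_one (z : ℂ) : ff (z + 1) = ff z := by
  rw [ff_q, ff_q, qq_one]

/-- `R` changes sign with `X1` fixed -/
lemma RR_ne {z : ℂ} (hz : 0 < z.im) : RR z ≠ 0 := by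
  intro h
  have h1 := RR_sq' hz
  rw [h] at h1
  have := mul_ne_zero (mul_ne_zero (AA_ne hz) (X1_ne hz)) (CC_ne hz)
  apply this
  linear_combination (-1 / 4 : ℂ) * h1

end Pool.Agent.Run7.h741.MH
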