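import Pool.Agent.Run7.h741.MH.Fin
import Pool.Agent.TH940.Cen
import Pool.Agent.Run7.h555.P15.Lb

/-!
The facts on the newform of level 24 needed for the `L`-functions of the twists.
-/

set_option autoImplicit false

open UpperHalfPlane MatrixGroups CongruenceSubgroup Filter Topology MeasureTheory
open scoped ModularForm Pointwise

namespace Pool.Agent.Run7.h741.MH

open Pool.Agent.W97.TW
open Pool.Agent.W97.MT (qq qq_ne norm_qq norm_qq_lt im_mul z_ne H_open QV iI iI_pos iI_eventually tendsto_qq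
  S_QEXP S_INJ S_ODE S_SUB hasDerivAt_qq tpi_ne line_im line_re inv_I im_aux exists_qq dslope_analytic
  qParam_one cusp_expansion ap affCount Tr prim const_of_deriv)
open Pool.Agent.Run7.h741.MF (hqe hinj hode hsub hsup hhint)

/-- all the facts on the coefficients that come from the `q`-expansion -/
theorem facts (hdim : S_DIM) :
    (∀ n : ℕ, ∃ c : ℤ, (qExpansion 1 form24).coeff n = (c : ℂ)) ∧
    (qExpansion 1 form24).coeff 1 = 1 ∧
    (∀ l : ℕ, l.Prime → (qExpansion 1 form24).coeff l = (ap E24 l : ℂ)) ∧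
    (∀ (p : ℕ), p.Prime → ∀ z : ℍ, heckeT 24 2 p form24 z = (ap E24 p : ℂ) * form24 z) := by
  obtain ⟨L, Op, Om, hOp, hOm, g2, g3, hL⟩ := Run7.h209.P24.h_lat
  obtain ⟨P, Ξ, σ, rP, rΞ, cΞ, cσ, d2, d3, hP0, hP1, hP2⟩ := exists_P
  have hcoef : ∀ l : ℕ, l.Prime → PowerSeries.coeff (l - 1) P = ap E24 l := fun l hl =>
    coef_eq hdim L g2 g3 rP cΞ cσ d2 d3 hP0 hP1 hP2 hl
  refine ⟨fun n => ⟨_, coeff_f24 rP n⟩, coeff_one rP hP0, ?_, ?_⟩
  · intro l hl
    have h1 := coeff_f24 rP (l : ℕ)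
    have h2 := hcoef l hl
    obtain ⟨m, hm⟩ : ∃ m, (l : ℕ) = m + 1 := ⟨l - 1, by have := hl.pos; omega⟩
    rw [hm] at h2
    rw [Nat.add_sub_cancel] at h2
    rw [h1, hm, PowerSeries.coeff_succ_X_mul, h2]
  · intro p hp z
    have h1 := hecke_f24 rP hdim hP0 hp z
    rw [hcoef p hp] at h1
    have h6 : Pool.Agent.W97.MT.hecke 24 p form24 z = heckeT 24 2 p form24 z := by
      unfold Pool.Agent.W97.MT.hecke heckeT
      norm_num
    rw [← h6]
    exact h1

/-- the Fricke involution -/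
theorem fricke_ex : ∃ w : ℝ, (w = 1 ∨ w = -1) ∧ ∀ τ τ' : ℍ, (τ' : ℂ) * (((24 : ℕ) : ℂ) * (τ : ℂ)) = -1 →
    form24 τ' = -(w : ℂ) * ((24 : ℕ) : ℂ) * (τ : ℂ) ^ 2 * form24 τ := by
  obtain ⟨ε, hε, h⟩ := map24.sign
  have key : ∀ τ τ' : ℍ, (τ' : ℂ) * (((24 : ℕ) : ℂ) * (τ : ℂ)) = -1 →
      form24 τ' = ε * ((24 : ℕ) : ℂ) * (τ : ℂ) ^ 2 * form24 τ := by
    intro τ τ' hτ
    have h0 : (τ : ℂ) ≠ 0 := z_ne τ.im_pos
    push_cast at hτ
    have e1 : (τ' : ℂ) = m24 τ := by
      unfold m24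
      rw [eq_div_iff (mul_ne_zero (by norm_num) h0)]
      exact hτ
    have e2 := h τ τ.im_pos
    rw [← e1] at e2
    rw [form24_apply, form24_apply]
    unfold j24 at e2
    have h24 : (24 * (τ : ℂ) ^ 2) ≠ 0 := mul_ne_zero (by norm_num) (pow_ne_zero 2 h0)
    rw [← div_eq_mul_inv, div_eq_iff h24] at e2
    rw [e2]
    push_cast
    ring
  rcases hε with rfl | rfl
  · exact ⟨-1, Or.inr rfl, fun τ τ' hτ => by rw [key τ τ' hτ]; push_cast; ring⟩
  · exact ⟨1, Or.inl rfl, fun τ τ' hτ => by rw [key τ τ' hτ]; push_cast; ring⟩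

/-- the two primitives agree -/
theorem prim_F {z : ℂ} (hz : 0 < z.im) : TH940.prim form24 z = F z := by
  obtain ⟨C, hC⟩ := const_of_deriv (g := fun z => TH940.prim form24 z - F z) fun z hz => by
    have e1 := TH940.prim_deriv form24 ⟨z, hz⟩
    have e2 := e1.sub (F_deriv hz)
    refine e2.congr_deriv ?_
    have e3 : form24 ⟨z, hz⟩ = ff z := form24_apply _
    rw [e3]
    ring
  have h1 := TH940.prim_line form24 0
  have h2 : Tendsto (fun T : ℝ => F ((((0 : ℝ) : ℂ)) + (T : ℂ) * Complex.I)) atTop (𝓝 0) :=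
    F_line_tendsto ((0 : ℝ) : ℂ)
  have h3 := h1.sub h2
  rw [sub_zero] at h3
  have h4 : Tendsto (fun _ : ℝ => C) atTop (𝓝 0) := by
    refine h3.congr' ?_
    filter_upwards [eventually_gt_atTop 0] with T hT
    exact hC _ (by simpa using hT)
  have h5 := tendsto_nhds_unique h4 tendsto_const_nhds
  have h6 := hC z hz
  beta_reduce at h6
  rw [← h5] at h6
  exact sub_eq_zero.1 h6

/-- the boundary values of the primitive -/
theorem F_lim {u n : ℤ} (hn : 0 < n) (hun : IsCoprime u n) (h3 : IsCoprime n 24) :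
    Tendsto (fun t : ℝ => F ((u : ℂ) / n + t * Complex.I)) (𝓝[>] 0) (𝓝 (II ((u : ℚ) / n))) := by
  have h1 : IsCoprime (24 * u) n := (h3.symm).mul_left hun
  obtain ⟨w, y, hwy⟩ := h1
  have hdet : 24 * u * w - n * (-y) = 1 := by linarith
  obtain ⟨C, lC⟩ := exists_limit cusp24.map
  have h := hit_per cusp24.map (r := (u : ℂ) / n) lC (by
      have : (u : ℂ) / n = (((u : ℝ) / n : ℝ) : ℂ) := by push_cast; rfl
      rw [this]; exact Complex.ofReal_im _) (a := -(-y)) (b := u) (c := -w) (d := n)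
    (K := 24 * (n : ℝ) ^ 2) (x := -w / n) (by linarith) (by positivity)
    (fun s hs => hit24_id hn hdet s hs)
  have e : II ((u : ℚ) / n) = C + per (-(-y)) u (-w) n := by
    rw [← h.2.2]
    unfold II
    push_cast
    rfl
  rw [e]
  exact h.2.1

theorem prim_lim {u n : ℤ} (hn : 0 < n) (hun : IsCoprime u n) (h3 : IsCoprime n 24) :
    Tendsto (fun t : ℝ => TH940.prim form24 ((u : ℂ) / n + t * Complex.I)) (𝓝[>] 0)
      (𝓝 (II ((u : ℚ) / n))) := by
  refine (F_lim hn hun h3).congr' ?_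
  filter_upwards [self_mem_nhdsWithin] with t ht
  have ht0 : (0 : ℝ) < t := ht
  refine (prim_F ?_).symm
  rw [line_im]
  have : ((u : ℂ) / n) = (((u : ℝ) / n : ℝ) : ℂ) := by push_cast; rfl
  rw [this, Complex.ofReal_im]
  linarith

/-- the boundary values -/
theorem bd_24 : Run7.h555.P15.Bd (N := 24) form24 II := by
  intro q _ hq u
  have hn : (0 : ℤ) < q := by
    have := Nat.pos_of_ne_zero (NeZero.ne q)
    exact_mod_cast this
  have hun : IsCoprime ((((u : ZMod q).val : ℕ)) : ℤ) (q : ℤ) :=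
    Nat.isCoprime_iff_coprime.2 (ZMod.val_coe_unit_coprime u)
  have h24 : IsCoprime (q : ℤ) 24 := by
    have := Nat.isCoprime_iff_coprime.2 hq
    exact_mod_cast this
  have h := prim_lim hn hun h24
  push_cast at h ⊢
  exact h

/-- the facts on the form -/
theorem facts24 (hdim : S_DIM)
    (good : ∀ l : ℕ, l.Prime → ¬ l ∣ 24 → |(ap E24 l : ℝ)| ≤ 2 * Real.sqrt l)
    (bad : ∀ l : ℕ, l.Prime → l ∣ 24 → |(ap E24 l : ℝ)| ≤ 1) :
    Run7.h555.P15.Facts 24 form24 (ap E24) where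
  int := (facts hdim).1
  one := (facts hdim).2.1
  pr := (facts hdim).2.2.1
  hecke := (facts hdim).2.2.2
  fricke := fricke_ex
  good := good
  bad := bad

end Pool.Agent.Run7.h741.MH
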