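import Pool.Agent.Run7.h741.MH.Cusps

/-!
The sign of the multiplier: `η(z)³η(3z)³` on `Γ_0(3)`.
-/

set_option autoImplicit false

open Filter Topology

namespace Pool.Agent.Run7.h741.MH

open Pool.Agent.W97.TW
open Pool.Agent.W97.MT (qq tt tt_ne qq_ne tt_pow norm_qq norm_qq_lt eta_mul eta_one G_mul Q_ne
  Q_ne_pow G_ne im_mul z_ne H_open eta_diff QV QV_Q QV_Q1 QV_of_sq Q_contOn Q_contOn1 qq_cont
  comp_cont iI iI_pos Qq_analytic eq_or_eq_neg)

/-- `(η(z)η(3z))³` -/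
noncomputable def K3 (z : ℂ) : ℂ := (ModularForm.eta z * ModularForm.eta (3 * z)) ^ 3

lemma K3_ne {z : ℂ} (hz : 0 < z.im) : K3 z ≠ 0 := by
  have h3 := ModularForm.eta_ne_zero (im_mul hz 3 (by norm_num))
  push_cast at h3
  exact pow_ne_zero 3 (mul_ne_zero (ModularForm.eta_ne_zero hz) h3)

lemma K3_cont : ContinuousOn K3 {z : ℂ | 0 < z.im} := fun z hz => by
  have h1 := eta_diff hz 1 (by norm_num)
  have h3 := eta_diff hz 3 (by norm_num)
  push_cast at h1 h3
  simp only [one_mul] at h1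
  exact ((h1.mul h3).pow 3).continuousAt.continuousWithinAt

lemma qq_one (z : ℂ) : qq (z + 1) = qq z := by
  unfold qq
  rw [show 2 * Real.pi * Complex.I * (z + 1) = 2 * Real.pi * Complex.I * z +
    2 * Real.pi * Complex.I by ring, Complex.exp_add, Complex.exp_two_pi_mul_I, mul_one]

lemma tt_one_pow : tt 1 ^ 12 = -1 := by
  unfold tt
  rw [← Complex.exp_nat_mul, show ((12 : ℕ) : ℂ) * (2 * Real.pi * Complex.I * 1 / 24) =
    Real.pi * Complex.I by push_cast; ring, Complex.exp_pi_mul_I]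

lemma K3_q (z : ℂ) : K3 z = tt z ^ 12 * (Q (qq z) * Q (qq z ^ 3)) ^ 3 := by
  have h1 := eta_one z
  have h3 := eta_mul 3 z
  push_cast at h3
  unfold K3
  rw [h1, h3]
  ring

lemma K3_T (z : ℂ) : K3 (z + 1) = -K3 z := by
  rw [K3_q, K3_q, qq_one, tt_add, mul_pow, tt_one_pow]
  ring

lemma K3_Ti (z : ℂ) : K3 (z - 1) = -K3 z := by
  have := K3_T (z - 1)
  rw [sub_add_cancel] at this
  rw [this, neg_neg]

lemma im_W {z : ℂ} (hz : 0 < z.im) : 0 < (-1 / (3 * z)).im := by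
  have h := (im_moebius (a := 0) (b := -1) (c := 1) (d := 0) (by norm_num)
    (im_mul hz 3 (by norm_num))).1
  simpa using h

lemma K3_W_sq {z : ℂ} (hz : 0 < z.im) : K3 (-1 / (3 * z)) ^ 2 = -27 * z ^ 6 * K3 z ^ 2 := by
  have h0 := z_ne hz
  have e1 : G (-1 / (3 * z)) = -Complex.I * (3 * z) * G (3 * z) := G_S (im_mul hz 3 (by norm_num))
  have e3 : G (3 * (-1 / (3 * z))) = -Complex.I * z * G z := by
    rw [show (3 : ℂ) * (-1 / (3 * z)) = -1 / z by field_simp]
    exact G_S hz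
  have h : ∀ w : ℂ, K3 w ^ 2 = (G w * G (3 * w)) ^ 3 := fun w => by
    unfold K3 G; ring
  rw [h, h, e1, e3]
  have hI : Complex.I ^ 2 = -1 := Complex.I_sq
  linear_combination (27 * z ^ 6 * (G z * G (3 * z)) ^ 3) *
    (Complex.I ^ 4 - Complex.I ^ 2 + 1) * hI

/-- the Fricke involution -/
lemma K3_W : ∃ κ : ℂ, κ ^ 2 = -27 ∧ ∀ z : ℂ, 0 < z.im → K3 (-1 / (3 * z)) = κ * z ^ 3 * K3 z := by
  have hk : ((Real.sqrt 27 : ℝ) : ℂ) ^ 2 = 27 := by
    have : (Real.sqrt 27) ^ 2 = 27 := Real.sq_sqrt (by norm_num)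
    exact_mod_cast this
  have hk2 : (Complex.I * (Real.sqrt 27 : ℝ)) ^ 2 = (-27 : ℂ) := by
    rw [mul_pow, hk, Complex.I_sq]; ring
  have hk0 : Complex.I * ((Real.sqrt 27 : ℝ) : ℂ) ≠ 0 := fun h => by
    rw [h] at hk2; norm_num at hk2
  have hc : ContinuousOn (fun z : ℂ => K3 (-1 / (3 * z))) {z : ℂ | 0 < z.im} := by
    refine K3_cont.comp ?_ fun z hz => im_W hz
    intro z hz
    exact ContinuousAt.continuousWithinAt (ContinuousAt.div (by fun_prop) (by fun_prop)
      (mul_ne_zero (by norm_num) (z_ne hz)))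
  have hg : ContinuousOn (fun z : ℂ => Complex.I * ((Real.sqrt 27 : ℝ) : ℂ) * z ^ 3 * K3 z)
      {z : ℂ | 0 < z.im} := (by fun_prop : ContinuousOn (fun z : ℂ =>
      Complex.I * ((Real.sqrt 27 : ℝ) : ℂ) * z ^ 3) _).mul K3_cont
  rcases eq_or_eq_neg hc hg (fun z hz => by
      rw [K3_W_sq hz]
      linear_combination (-(z ^ 6 * K3 z ^ 2)) * hk2) (fun z hz =>
      mul_ne_zero (mul_ne_zero hk0 (pow_ne_zero 3 (z_ne hz))) (K3_ne hz)) with h | h
  · exact ⟨_, hk2, h⟩
  · refine ⟨-(Complex.I * ((Real.sqrt 27 : ℝ) : ℂ)), by rw [neg_sq, hk2], fun z hz => ?_⟩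
    rw [h z hz]
    ring

lemma im_P {z : ℂ} (hz : 0 < z.im) : 0 < (z / (3 * z + 1)).im ∧ (3 * z + 1 : ℂ) ≠ 0 := by
  have h := im_moebius (a := 1) (b := 0) (c := 3) (d := 1) (by norm_num) hz
  push_cast at h
  rw [one_mul, add_zero] at h
  exact h

lemma im_Pi {z : ℂ} (hz : 0 < z.im) : 0 < (z / (1 - 3 * z)).im ∧ (1 - 3 * z : ℂ) ≠ 0 := by
  have h := im_moebius (a := 1) (b := 0) (c := -3) (d := 1) (by norm_num) hz
  push_cast at h
  rw [one_mul, add_zero, show (-3 * z + 1 : ℂ) = 1 - 3 * z by ring] at h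
  exact h

lemma K3_P {z : ℂ} (hz : 0 < z.im) : K3 (z / (3 * z + 1)) = -(3 * z + 1) ^ 3 * K3 z := by
  obtain ⟨κ, hκ, h⟩ := K3_W
  have h0 := z_ne hz
  obtain ⟨-, h1⟩ := im_P hz
  have hw := im_W hz
  have hu : 0 < (-1 / (3 * z) - 1).im := by simpa using hw
  have e1 : z / (3 * z + 1) = -1 / (3 * (-1 / (3 * z) - 1)) := by
    have : 3 * (-1 / (3 * z) - 1) = -(3 * z + 1) / z := by
      field_simp
      ring
    rw [this]
    field_simp
  rw [e1, h _ hu, K3_Ti, h z hz]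
  have e2 : (-1 / (3 * z) - 1) * z = -(3 * z + 1) / 3 := by
    field_simp
    ring
  have e3 : κ * (-1 / (3 * z) - 1) ^ 3 * -(κ * z ^ 3 * K3 z) =
      -(κ ^ 2) * ((-1 / (3 * z) - 1) * z) ^ 3 * K3 z := by ring
  rw [e3, e2, hκ]
  ring

lemma K3_Pi {z : ℂ} (hz : 0 < z.im) : K3 (z / (1 - 3 * z)) = -(1 - 3 * z) ^ 3 * K3 z := by
  obtain ⟨hp, h1⟩ := im_Pi hz
  have h := K3_P hp
  have e1 : 3 * (z / (1 - 3 * z)) + 1 = (1 - 3 * z)⁻¹ := by
    field_simp
    ring
  have e2 : z / (1 - 3 * z) / (3 * (z / (1 - 3 * z)) + 1) = z := by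
    rw [e1, div_inv_eq_mul, div_mul_cancel₀ _ h1]
  rw [e2, e1] at h
  rw [h, ← mul_assoc]
  have e3 : -(1 - 3 * z) ^ 3 * -(1 - 3 * z)⁻¹ ^ 3 = 1 := by
    rw [neg_mul_neg, ← mul_pow, mul_inv_cancel₀ h1, one_pow]
  rw [e3, one_mul]

/-- the character modulo three -/
def ch (d : ℤ) : ℤ := if d % 3 = 1 then 1 else -1

/-- the sign -/
def sg (a b c d : ℤ) : ℤ := if (b + c + (1 + a) * (1 + d)) % 2 = 0 then ch d else -ch d

lemma ch_add (d k : ℤ) : ch (d + 3 * k) = ch d := by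
  unfold ch
  rw [Int.add_mul_emod_self_left]

lemma par {x y : ℤ} (h : (x + y) % 2 = 1) (u : ℤ) : (if x % 2 = 0 then u else -u) =
    -(if y % 2 = 0 then u else -u) := by
  have h1 : x % 2 = 0 ∨ x % 2 = 1 := by omega
  rcases h1 with h1 | h1
  · rw [if_pos h1, if_neg (by omega)]; ring
  · rw [if_neg (by omega), if_pos (by omega)]

lemma sg_T {a b c d : ℤ} (h : a * d - b * (3 * c) = 1) : sg a (b + a) c (d + 3 * c) = -sg a b c d := by
  unfold sg
  rw [ch_add]
  apply par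
  have h2 : (a % 2 = 0 ∧ c % 2 = 1) ∨ a % 2 = 1 := by
    by_cases ha : a % 2 = 1
    · exact Or.inr ha
    · left
      refine ⟨by omega, ?_⟩
      by_contra hc
      obtain ⟨x, hx⟩ : ∃ x, a = 2 * x := ⟨a / 2, by omega⟩
      obtain ⟨y, hy⟩ : ∃ y, c = 2 * y := ⟨c / 2, by omega⟩
      rw [hx, hy] at h
      have : 2 * (x * d - b * (3 * y)) = 1 := by linarith
      omega
  have e : b + a + c + (1 + a) * (1 + (d + 3 * c)) + (b + c + (1 + a) * (1 + d)) =
      a + (1 + a) * c + 2 * (b + c + (1 + a) * (1 + d) + (1 + a) * c) := by ring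
  rw [e, Int.add_mul_emod_self_left]
  rcases h2 with ⟨h1, h2⟩ | h1
  · rw [Int.add_emod, Int.mul_emod, Int.add_emod 1 a, h1, h2]; rfl
  · rw [Int.add_emod, Int.mul_emod, Int.add_emod 1 a, h1]
    simp

lemma sg_P {a b c d : ℤ} (h : a * d - b * (3 * c) = 1) : sg (a + 3 * b) b (c + d) d = -sg a b c d := by
  unfold sg
  apply par
  have h2 : (d % 2 = 0 ∧ b % 2 = 1) ∨ d % 2 = 1 := by
    by_cases ha : d % 2 = 1
    · exact Or.inr ha
    · left
      refine ⟨by omega, ?_⟩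
      by_contra hc
      obtain ⟨x, hx⟩ : ∃ x, d = 2 * x := ⟨d / 2, by omega⟩
      obtain ⟨y, hy⟩ : ∃ y, b = 2 * y := ⟨b / 2, by omega⟩
      rw [hx, hy] at h
      have : 2 * (a * x - y * (3 * c)) = 1 := by linarith
      omega
  have e : b + (c + d) + (1 + (a + 3 * b)) * (1 + d) + (b + c + (1 + a) * (1 + d)) =
      d + b * (1 + d) + 2 * (b + c + (1 + a) * (1 + d) + b * (1 + d)) := by ring
  rw [e, Int.add_mul_emod_self_left]
  rcases h2 with ⟨h1, h2⟩ | h1
  · rw [Int.add_emod, Int.mul_emod, Int.add_emod 1 d, h1, h2]; rfl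
  · rw [Int.add_emod, Int.mul_emod, Int.add_emod 1 d, h1]
    simp

/-- the transformation law -/
def St (a b c d : ℤ) : Prop := a * d - b * (3 * c) = 1 ∧ ∀ z : ℂ, 0 < z.im →
  K3 ((a * z + b) / (3 * c * z + d)) = (sg a b c d : ℂ) * (3 * c * z + d) ^ 3 * K3 z

lemma St.T {a b c d : ℤ} (h : St a b c d) : St a (b + a) c (d + 3 * c) := by
  obtain ⟨h1, h2⟩ := h
  refine ⟨by linarith, fun z hz => ?_⟩
  have hz' : 0 < (z + 1).im := by simpa using hz
  have h3 := h2 (z + 1) hz'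
  rw [K3_T] at h3
  rw [sg_T h1]
  push_cast
  rw [show (a * z + (b + a) : ℂ) = a * (z + 1) + b by ring,
    show (3 * c * z + (d + 3 * c) : ℂ) = 3 * c * (z + 1) + d by ring, h3]
  ring

lemma St.Ti {a b c d : ℤ} (h : St a (b + a) c (d + 3 * c)) : St a b c d := by
  obtain ⟨h1, h2⟩ := h
  have h1' : a * d - b * (3 * c) = 1 := by linarith
  refine ⟨h1', fun z hz => ?_⟩
  have hz' : 0 < (z - 1).im := by simpa using hz
  have h3 := h2 (z - 1) hz'
  rw [K3_Ti, sg_T h1'] at h3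
  push_cast at h3
  rw [show (a * (z - 1) + (b + a) : ℂ) = a * z + b by ring,
    show (3 * c * (z - 1) + (d + 3 * c) : ℂ) = 3 * c * z + d by ring] at h3
  rw [h3]
  ring

lemma St.P {a b c d : ℤ} (h : St a b c d) : St (a + 3 * b) b (c + d) d := by
  obtain ⟨h1, h2⟩ := h
  refine ⟨by linarith, fun z hz => ?_⟩
  obtain ⟨hp, hn⟩ := im_P hz
  have h3 := h2 _ hp
  rw [K3_P hz] at h3
  rw [sg_P h1]
  have e1 : (a * (z / (3 * z + 1)) + b : ℂ) = (a * z + b * (3 * z + 1)) / (3 * z + 1) := by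
    rw [add_div, mul_div_cancel_right₀ _ hn, mul_div_assoc]
  have e2 : (3 * c * (z / (3 * z + 1)) + d : ℂ) = (3 * c * z + d * (3 * z + 1)) / (3 * z + 1) := by
    rw [add_div, mul_div_cancel_right₀ _ hn, mul_div_assoc]
  rw [e1, e2, div_div_div_cancel_right₀ hn] at h3
  push_cast
  rw [show ((a + 3 * b) * z + b : ℂ) = a * z + b * (3 * z + 1) by ring,
    show (3 * (c + d) * z + d : ℂ) = 3 * c * z + d * (3 * z + 1) by ring, h3]
  field_simp

lemma St.Pi {a b c d : ℤ} (h : St (a + 3 * b) b (c + d) d) : St a b c d := by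
  obtain ⟨h1, h2⟩ := h
  have h1' : a * d - b * (3 * c) = 1 := by linarith
  refine ⟨h1', fun z hz => ?_⟩
  obtain ⟨hp, hn⟩ := im_Pi hz
  have h3 := h2 _ hp
  rw [K3_Pi hz, sg_P h1'] at h3
  push_cast at h3
  have e1 : ((a + 3 * b) * (z / (1 - 3 * z)) + b : ℂ) = (a * z + b) / (1 - 3 * z) := by
    field_simp
    ring
  have e2 : (3 * (c + d) * (z / (1 - 3 * z)) + d : ℂ) = (3 * c * z + d) / (1 - 3 * z) := by
    field_simp
    ring
  rw [e1, e2, div_div_div_cancel_right₀ hn] at h3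
  rw [h3]
  field_simp

lemma St.Tk {a b c d : ℤ} (k : ℤ) (h : St a (b + k * a) c (d + 3 * (k * c))) : St a b c d := by
  induction k using Int.induction_on with
  | zero => simpa using h
  | succ n ih =>
    apply ih
    apply St.Ti
    convert h using 1 <;> ring
  | pred n ih =>
    apply ih
    have := St.T h
    convert this using 1 <;> ring

lemma St.Pk {a b c d : ℤ} (k : ℤ) (h : St (a + 3 * (k * b)) b (c + k * d) d) : St a b c d := by
  induction k using Int.induction_on with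
  | zero => simpa using h
  | succ n ih =>
    apply ih
    apply St.Pi
    convert h using 1 <;> ring
  | pred n ih =>
    apply ih
    have := St.P h
    convert this using 1 <;> ring

lemma St_base {a b d : ℤ} (h : a * d = 1) : St a b 0 d := by
  apply St.Tk (-(b * a))
  have ha : a = 1 ∨ a = -1 := Int.isUnit_iff.1 (IsUnit.of_mul_eq_one _ h)
  rcases ha with rfl | rfl
  · have hd : d = 1 := by linarith
    subst hd
    refine ⟨by ring, fun z hz => ?_⟩
    rw [show b + -(b * 1) * 1 = 0 by ring, show (1 : ℤ) + 3 * (-(b * 1) * 0) = 1 by ring]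
    have : sg 1 0 0 1 = 1 := by decide
    rw [this]
    push_cast
    norm_num
  · have hd : d = -1 := by linarith
    subst hd
    refine ⟨by ring, fun z hz => ?_⟩
    rw [show b + -(b * -1) * -1 = 0 by ring, show (-1 : ℤ) + 3 * (-(b * -1) * 0) = -1 by ring]
    have : sg (-1) 0 0 (-1) = -1 := by decide
    rw [this]
    push_cast
    norm_num

/-- nearest integer -/
lemma near (x y : ℤ) (hy : y ≠ 0) : ∃ k : ℤ, 2 * |x + k * y| ≤ |y| := by
  refine ⟨-((2 * x + |y|) / (2 * |y|)) * SignType.sign y, ?_⟩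
  have hy' : 0 < |y| := abs_pos.2 hy
  have e : -((2 * x + |y|) / (2 * |y|)) * (SignType.sign y : ℤ) * y =
      -((2 * x + |y|) / (2 * |y|) * |y|) := by
    have : (SignType.sign y : ℤ) * y = |y| := by
      rcases lt_trichotomy y 0 with h | h | h
      · rw [sign_neg h, abs_of_neg h]; simp
      · exact absurd h hy
      · rw [sign_pos h, abs_of_pos h]; simp
    rw [mul_assoc, this]; ring
  rw [e]
  have h1 := Int.emod_add_mul_ediv (2 * x + |y|) (2 * |y|)
  have h2 := Int.emod_nonneg (2 * x + |y|) (by positivity : 2 * |y| ≠ 0)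
  have h3 := Int.emod_lt_of_pos (2 * x + |y|) (by positivity : 0 < 2 * |y|)
  set r := (2 * x + |y|) % (2 * |y|)
  set t := (2 * x + |y|) / (2 * |y|)
  have h4 : 2 * (x + -(t * |y|)) = r - |y| := by linarith
  have h5 : |2 * (x + -(t * |y|))| ≤ |y| := by
    rw [h4, abs_le]
    constructor <;> linarith
  rwa [abs_mul, abs_two] at h5

theorem St_all : ∀ (n : ℕ) (a b c d : ℤ), a * d - b * (3 * c) = 1 → c.natAbs ≤ n → St a b c d := by
  intro n
  induction n with
  | zero =>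
    intro a b c d h hc
    have : c = 0 := by omega
    subst this
    exact St_base (by linarith)
  | succ n ih =>
    intro a b c d h hc
    by_cases hc0 : c = 0
    · subst hc0
      exact St_base (by linarith)
    obtain ⟨k, hk⟩ := near d (3 * c) (by omega)
    apply St.Tk k
    have e : d + k * (3 * c) = d + 3 * (k * c) := by ring
    rw [e] at hk
    set d' := d + 3 * (k * c) with hd'
    set b' := b + k * a with hb'
    have hdet : a * d' - b' * (3 * c) = 1 := by rw [hd', hb']; linarith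
    have hd0 : d' ≠ 0 := by
      intro h0
      rw [h0] at hdet
      have : 3 * (-(b' * c)) = 1 := by linarith
      omega
    obtain ⟨l, hl⟩ := near c d' hd0
    apply St.Pk l
    refine ih _ _ _ _ (by linarith) ?_
    have h1 : |3 * c| = 3 * |c| := by rw [abs_mul]; norm_num
    rw [h1] at hk
    have h2 : 4 * |c + l * d'| ≤ 3 * |c| := by linarith
    have h3 : 0 < |c| := abs_pos.2 hc0
    have h4 : |c + l * d'| < |c| := by linarith
    have h5 := Int.natCast_natAbs (c + l * d')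
    have h6 := Int.natCast_natAbs c
    omega

lemma K3_gamma {a b c d : ℤ} (h : a * d - b * (3 * c) = 1) {z : ℂ} (hz : 0 < z.im) :
    K3 ((a * z + b) / (3 * c * z + d)) = (sg a b c d : ℂ) * (3 * c * z + d) ^ 3 * K3 z :=
  (St_all _ a b c d h le_rfl).2 z hz

lemma ff_cube (z : ℂ) : ff z ^ 3 = K3 (2 * z) * K3 (4 * z) := by
  unfold ff K3
  rw [show 3 * (2 * z) = 6 * z by ring, show 3 * (4 * z) = 12 * z by ring]
  ring

/-- the form is of weight two -/
theorem ff_gamma {a b c d : ℤ} (h : a * d - b * (24 * c) = 1) {z : ℂ} (hz : 0 < z.im) :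
    ff ((a * z + b) / (24 * c * z + d)) = (24 * c * z + d) ^ 2 * ff z := by
  have p2 := im_mul hz 2 (by norm_num)
  have p4 := im_mul hz 4 (by norm_num)
  push_cast at p2 p4
  have h2 := K3_gamma (a := a) (b := 2 * b) (c := 4 * c) (d := d) (by linarith) p2
  have h4 := K3_gamma (a := a) (b := 4 * b) (c := 2 * c) (d := d) (by linarith) p4
  obtain ⟨hm, hj, -⟩ := G_gamma h hz
  have e2 : (a * (2 * z) + ((2 * b : ℤ) : ℂ)) / (3 * ((4 * c : ℤ) : ℂ) * (2 * z) + d) =
      2 * ((a * z + b) / (24 * c * z + d)) := by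
    push_cast
    rw [← mul_div_assoc]
    congr 1 <;> ring
  have e4 : (a * (4 * z) + ((4 * b : ℤ) : ℂ)) / (3 * ((2 * c : ℤ) : ℂ) * (4 * z) + d) =
      4 * ((a * z + b) / (24 * c * z + d)) := by
    push_cast
    rw [← mul_div_assoc]
    congr 1 <;> ring
  rw [e2] at h2
  rw [e4] at h4
  have hodd : a % 2 = 1 ∧ d % 2 = 1 := by
    constructor
    · by_contra h0
      obtain ⟨x, hx⟩ : ∃ x, a = 2 * x := ⟨a / 2, by omega⟩
      rw [hx] at h
      have : 2 * (x * d - b * (12 * c)) = 1 := by linarith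
      omega
    · by_contra h0
      obtain ⟨x, hx⟩ : ∃ x, d = 2 * x := ⟨d / 2, by omega⟩
      rw [hx] at h
      have : 2 * (a * x - b * (12 * c)) = 1 := by linarith
      omega
  have s2 : sg a (2 * b) (4 * c) d = ch d := by
    unfold sg
    rw [if_pos]
    obtain ⟨x, hx⟩ : ∃ x, a = 2 * x + 1 := ⟨a / 2, by omega⟩
    rw [hx, show 2 * b + 4 * c + (1 + (2 * x + 1)) * (1 + d) =
      2 * (b + 2 * c + (1 + x) * (1 + d)) by ring]
    omega
  have s4 : sg a (4 * b) (2 * c) d = ch d := by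
    unfold sg
    rw [if_pos]
    obtain ⟨x, hx⟩ : ∃ x, a = 2 * x + 1 := ⟨a / 2, by omega⟩
    rw [hx, show 4 * b + 2 * c + (1 + (2 * x + 1)) * (1 + d) =
      2 * (2 * b + c + (1 + x) * (1 + d)) by ring]
    omega
  have hch : (ch d : ℂ) * ch d = 1 := by
    unfold ch
    split_ifs <;> norm_num
  have h3 : ff ((a * z + b) / (24 * c * z + d)) ^ 3 = (24 * c * z + d) ^ 6 * ff z ^ 3 := by
    rw [ff_cube, h2, h4, s2, s4, ff_cube]
    push_cast
    linear_combination ((24 * c * z + d) ^ 6 * K3 (2 * z) * K3 (4 * z)) * hch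
  have h2' := ff_sq_gamma h hz
  have hne := ff_ne hm
  have hne' := ff_ne hz
  have h5 : ff ((a * z + b) / (24 * c * z + d)) * ((24 * c * z + d) ^ 4 * ff z ^ 2) =
      (24 * c * z + d) ^ 6 * ff z ^ 3 := by
    rw [← h2', ← h3]; ring
  have h6 : (24 * c * z + d) ^ 4 * ff z ^ 2 ≠ 0 := mul_ne_zero (pow_ne_zero 4 hj) (pow_ne_zero 2 hne')
  refine mul_right_cancel₀ h6 ?_
  rw [h5]
  ring

end Pool.Agent.Run7.h741.MH
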