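import Pool.Agent.Run7.h741.MH.Lat
import Pool.Agent.W97.MT.Opt

/-!
Optimality: the lattice of periods is the full lattice.
-/

set_option autoImplicit false

open Filter Topology Set

namespace Pool.Agent.Run7.h741.MH

open Pool.Agent.W97.TW
open Pool.Agent.W97.MT (qq qq_ne norm_qq norm_qq_lt im_mul z_ne H_open QV iI iI_pos iI_eventually tendsto_qq
  S_QEXP S_INJ S_ODE S_SUB hasDerivAt_qq tpi_ne line_im line_re inv_I im_aux exists_qq
  wA wA_same wA_eq wA_analytic frac_aux)
open Pool.Agent.Run7.h741.MF (hqe hinj hode hsub)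

/-- `p` is a period -/
def IsPer (p : ℂ) : Prop := ∃ a b c d : ℤ, a * d - b * (24 * c) = 1 ∧
  ∀ z : ℂ, 0 < z.im → F ((a * z + b) / (24 * c * z + d)) = F z + p

lemma IsPer.zero : IsPer 0 := ⟨1, 0, 0, 1, by norm_num, fun z _ => by simp⟩

lemma IsPer.add {p q : ℂ} (hp : IsPer p) (hq : IsPer q) : IsPer (p + q) := by
  obtain ⟨a, b, c, d, h, hp⟩ := hp
  obtain ⟨a', b', c', d', h', hq⟩ := hq
  have hdet : (a * a' + 24 * b * c') * (24 * c * b' + d * d') -
      (a * b' + b * d') * (24 * (c * a' + d * c')) = 1 := by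
    linear_combination (a' * d' - b' * (24 * c')) * h + h'
  refine ⟨a * a' + 24 * b * c', a * b' + b * d', c * a' + d * c', 24 * c * b' + d * d', hdet, ?_⟩
  intro z hz
  have h1 := (G_gamma h' hz).1
  have h2 := (G_gamma h' hz).2.1
  have h3 := (G_gamma h h1).2.1
  have h4 := (G_gamma hdet hz).2.1
  have e := hp _ h1
  rw [hq z hz] at e
  rw [add_comm p q, ← add_assoc, ← e]
  congr 1
  push_cast at h4 ⊢
  rw [frac_aux _ _ h2, frac_aux _ _ h2, div_div_div_cancel_right₀ h2]
  congr 1 <;> ring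

lemma IsPer.neg {p : ℂ} (hp : IsPer p) : IsPer (-p) := by
  obtain ⟨a, b, c, d, h, hp⟩ := hp
  have hdet : d * a - (-b) * (24 * (-c)) = 1 := by linarith
  refine ⟨d, -b, -c, a, hdet, ?_⟩
  intro z hz
  have h1 := (G_gamma hdet hz).1
  have h2 := (G_gamma hdet hz).2.1
  have h3 := (G_gamma h h1).2.1
  have e := hp _ h1
  have h' : (a : ℂ) * d - b * (24 * c) = 1 := by exact_mod_cast h
  push_cast at h1 h2 h3 e ⊢
  rw [frac_aux _ _ h2, frac_aux _ _ h2, div_div_div_cancel_right₀ h2] at e
  have e1 : 24 * (c : ℂ) * (d * z + -b) + d * (24 * -c * z + a) = 1 := by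
    linear_combination h'
  have e2 : (a : ℂ) * (d * z + -b) + b * (24 * -c * z + a) = z := by
    linear_combination z * h'
  rw [e1, e2, div_one] at e
  linear_combination -e

/-- the group of periods -/
def perGroup : AddSubgroup ℂ where
  carrier := {p | IsPer p}
  zero_mem' := IsPer.zero
  add_mem' := fun ha hb => IsPer.add ha hb
  neg_mem' := fun ha => IsPer.neg ha

section lattice

variable (L : PeriodPair) (g2 : L.g₂ = 52 / 3) (g3 : L.g₃ = -280 / 27)
include g2 g3

/-- the comparison of two lattices -/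
lemma compare (L' : PeriodPair) (hsub : ∀ x : ℂ, x ∈ L'.lattice → x ∈ L.lattice)
    (hper : ∀ a b c d : ℤ, a * d - b * (24 * c) = 1 → ∃ p ∈ L'.lattice, ∀ z : ℂ, 0 < z.im →
      F ((a * z + b) / (24 * c * z + d)) = F z + p) :
    ∀ z : ℂ, 0 < z.im → L'.weierstrassP (F z) = L.weierstrassP (F z) := by
  have hw := wp_F L g2 g3
  have hP : ∀ (M : PeriodPair) (u : ℂ), M.weierstrassP u = M.weierstrassPExcept 0 u + 1 / u ^ 2 := by
    intro M u
    have := M.weierstrassPExcept_add 0 u
    rw [← this]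
    simp
  have han : ∀ M : PeriodPair, AnalyticAt ℂ (M.weierstrassPExcept 0) 0 := fun M =>
    M.analyticOnNhd_weierstrassPExcept 0 0 (by simp)
  have hcusp : ∀ (m j : ℂ → ℂ) (x a c : ℂ), IsCusp m j x a c →
      ∃ v, QV (fun z => L'.weierstrassP (F (m z)) - (X1 (m z) + 2 / 3)) v := by
    intro m j x a c h
    obtain ⟨C, Ψ, aΨ, h0, h1⟩ := h.map.const
    have hC : Tendsto (fun z => F (m z)) iI (𝓝 C) := by
      have : Tendsto (fun z => C + Ψ (qq z)) iI (𝓝 (C + Ψ 0)) :=
        (aΨ.continuousAt.tendsto.comp tendsto_qq).const_add C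
      rw [h0, add_zero] at this
      exact this.congr' (h1.mono fun z hz => hz.symm)
    have h2 := (cusp_value L g2 g3 h hC).1
    have h3 : AnalyticAt ℂ (fun q => L'.weierstrassP (C + Ψ q)) 0 := by
      have e1 : AnalyticAt ℂ (fun q => C + Ψ q) 0 := by
        fun_prop
      refine AnalyticAt.fun_comp ?_ e1
      rw [h0, add_zero]
      exact L'.analyticOnNhd_weierstrassP C (fun h4 => h2 (hsub C h4))
    refine ⟨_, ((QV.comp h3).of_eq (f := fun z => L'.weierstrassP (F (m z)))
      (h1.mono fun z hz => ?_)).sub (h.X.add (QV.const (2 / 3)))⟩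
    rw [hz]
  have hz : ∀ z : ℂ, 0 < z.im → L'.weierstrassP (F z) - (X1 z + 2 / 3) = 0 := by
    refine cp_zero hcp (g := fun z => L'.weierstrassP (F z) - (X1 z + 2 / 3)) ?_ ?_ ?_ hcusp
    · intro z hz
      have e1 := (L'.analyticOnNhd_weierstrassP (F z) (fun h4 => (hw z hz).1 (hsub _ h4)))
      have e2 := e1.differentiableAt.comp z (F_diff hz)
      exact e2.sub ((X1_diff hz).add_const _)
    · intro a b c d h z hz
      obtain ⟨p, hpL, hp⟩ := hper a b c d h
      have e1 := L'.weierstrassP_add_coe (F z) ⟨p, hpL⟩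
      dsimp only
      rw [hp z hz, X1_gamma h hz]
      simp only at e1
      rw [e1]
    · have e1 : AnalyticAt ℂ (fun q => L'.weierstrassPExcept 0 (Phi q) -
          L.weierstrassPExcept 0 (Phi q)) 0 := by
        have a1 : AnalyticAt ℂ (fun q => L'.weierstrassPExcept 0 (Phi q)) 0 :=
          AnalyticAt.fun_comp (by rw [Phi_zero]; exact han L') Phi_analytic
        have a2 : AnalyticAt ℂ (fun q => L.weierstrassPExcept 0 (Phi q)) 0 :=
          AnalyticAt.fun_comp (by rw [Phi_zero]; exact han L) Phi_analytic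
        exact a1.sub a2
      refine ((QV.comp e1).of_eq (iI_pos.mono fun z hz => ?_)).of_val (by simp [Phi_zero])
      rw [← (hw z hz).2, hP L, hP L']
      change _ = L'.weierstrassPExcept 0 (F z) - L.weierstrassPExcept 0 (F z)
      ring
  intro z hz'
  rw [(hw z hz').2]
  exact sub_eq_zero.1 (hz z hz')

/-- two lattices with the same `℘` -/
lemma lattice_le (L' : PeriodPair) (hsub : ∀ x : ℂ, x ∈ L'.lattice → x ∈ L.lattice)
    (heq : ∀ z : ℂ, 0 < z.im → L'.weierstrassP (F z) = L.weierstrassP (F z)) :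
    ∀ x : ℂ, x ∈ L.lattice → x ∈ L'.lattice := by
  have hw := wp_F L g2 g3
  have hcount : (L.lattice : Set ℂ).Countable := by
    have : Countable L.lattice := L.latticeEquivProd.toEquiv.countable_iff.2 inferInstance
    exact this.to_set
  have hconn : IsPreconnected ((L.lattice : Set ℂ)ᶜ) :=
    (hcount.isConnected_compl_of_one_lt_rank (by rw [Complex.rank_real_complex]; norm_num)).isPreconnected
  have hI := I_pos
  have hff := ff_ne hI
  set z0 : ℂ := Complex.I
  have h1 : ∃ᶠ u in 𝓝[≠] (F z0), L'.weierstrassP u = L.weierstrassP u := by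
    have h2 := (F_deriv hI).tendsto_nhdsNE (mul_ne_zero tpi_ne hff)
    refine h2.frequently (Eventually.frequently ?_)
    have : ∀ᶠ z in 𝓝[≠] z0, 0 < z.im :=
      eventually_nhdsWithin_of_eventually_nhds (H_open.mem_nhds hI)
    exact this.mono fun z hz => heq z hz
  have h2 := (L'.analyticOnNhd_weierstrassP.mono (s := (L.lattice : Set ℂ)ᶜ)
    (compl_subset_compl.2 fun x hx => hsub x hx)).eqOn_of_preconnected_of_frequently_eq
      L.analyticOnNhd_weierstrassP hconn (hw z0 hI).1 h1
  intro w hwL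
  by_contra hwL'
  have h3 : Tendsto (wA L w) (𝓝[≠] w) (𝓝 1) := by
    have := (wA_analytic L w (u := w) (by simp)).continuousAt.tendsto
    rw [wA_same] at this
    exact this.mono_left nhdsWithin_le_nhds
  have h4 : Tendsto (fun u => (u - w) ^ 2 * L'.weierstrassP u) (𝓝[≠] w) (𝓝 0) := by
    have h5 : ContinuousAt (fun u => (u - w) ^ 2 * L'.weierstrassP u) w :=
      ContinuousAt.mul (by fun_prop) (L'.analyticOnNhd_weierstrassP w hwL').continuousAt
    have := h5.tendsto
    simp only [sub_self] at this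
    norm_num at this
    exact this.mono_left nhdsWithin_le_nhds
  have h5 : (wA L w) =ᶠ[𝓝[≠] w] fun u => (u - w) ^ 2 * L'.weierstrassP u := by
    filter_upwards [eventually_nhdsWithin_of_eventually_nhds
      (L.compl_lattice_sdiff_singleton_mem_nhds w), self_mem_nhdsWithin] with u hu hne
    have hne' : u ≠ w := hne
    have huL : u ∉ L.lattice := fun h => hu ⟨h, hne'⟩
    rw [wA_eq L hwL hne', h2 huL]
  have h6 := tendsto_nhds_unique (h3.congr' h5) h4
  exact one_ne_zero h6

/-- optimality -/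
theorem optimal : ∀ w : ℂ, w ∈ L.lattice ↔ IsPer w := by
  have hle : ∀ x ∈ perGroup, x ∈ L.lattice := by
    rintro x ⟨a, b, c, d, h, hp⟩
    exact period_mem L g2 g3 h hp
  intro w
  refine ⟨fun hw => ?_, fun hw => hle w hw⟩
  rcases hsub L perGroup hle with ⟨L', hL'⟩ | ⟨v, hv, hn⟩
  · have h1 : ∀ x : ℂ, x ∈ L'.lattice → x ∈ L.lattice := fun x hx => hle x ((hL' x).1 hx)
    have h2 := compare L g2 g3 L' h1 fun a b c d h => by
      obtain ⟨p, hp⟩ := F_gamma h
      exact ⟨p, (hL' p).2 ⟨a, b, c, d, h, hp⟩, hp⟩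
    exact (hL' w).1 (lattice_le L g2 g3 L' h1 h2 w hw)
  · exfalso
    have han : ∀ (Ψ : ℂ → ℂ) (_ : AnalyticAt ℂ Ψ 0) (C : ℂ), AnalyticAt ℂ (fun q =>
        Complex.exp (2 * Real.pi * Complex.I * ((C + Ψ q) / v)) - 1) 0 := by
      intro Ψ hΨ C
      fun_prop (disch := exact hv)
    have hcusp : ∀ (m j : ℂ → ℂ) (x a c : ℂ), IsCusp m j x a c →
        ∃ v', QV (fun z => Complex.exp (2 * Real.pi * Complex.I * (F (m z) / v)) - 1) v' := by
      intro m j x a c h
      obtain ⟨C, Ψ, aΨ, -, h1⟩ := h.map.const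
      refine ⟨_, (QV.comp (han Ψ aΨ C)).of_eq (h1.mono fun z hz => ?_)⟩
      rw [hz]
    have hz := cp_zero hcp (g := fun z => Complex.exp (2 * Real.pi * Complex.I * (F z / v)) - 1)
      (fun z hz => by
        have := F_diff hz
        fun_prop) (fun a b c d h z hz => by
        obtain ⟨p, hp⟩ := F_gamma h
        obtain ⟨n, hn'⟩ := hn p ⟨a, b, c, d, h, hp⟩
        dsimp only
        rw [hp z hz, hn', add_div, mul_div_assoc, div_self hv, mul_one, mul_add, Complex.exp_add]
        have : Complex.exp (2 * Real.pi * Complex.I * n) = 1 := by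
          rw [mul_comm]; exact Complex.exp_int_mul_two_pi_mul_I n
        rw [this, mul_one]) (((QV.comp (han Phi Phi_analytic 0)).of_eq (iI_pos.mono fun z hz => by
          rw [zero_add]; rfl)).of_val (by simp [Phi_zero])) hcusp
    have hI := I_pos
    have hff := ff_ne hI
    set z0 : ℂ := Complex.I
    have h3 : HasDerivAt (fun z => Complex.exp (2 * Real.pi * Complex.I * (F z / v)) - 1) _ z0 :=
      (((F_deriv hI).div_const v).const_mul (2 * Real.pi * Complex.I)).cexp.sub_const 1
    have h4 : (fun z => Complex.exp (2 * Real.pi * Complex.I * (F z / v)) - 1) =ᶠ[𝓝 z0]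
        fun _ => (0 : ℂ) := by
      filter_upwards [H_open.mem_nhds hI] with z hz'
      exact hz z hz'
    have h5 := (h3.congr_of_eventuallyEq h4.symm).unique (hasDerivAt_const _ _)
    have h6 := hff
    have h7 := tpi_ne
    have h8 := Complex.exp_ne_zero (2 * Real.pi * Complex.I * (F z0 / v))
    exact (mul_ne_zero h8 (mul_ne_zero h7 (div_ne_zero (mul_ne_zero h7 h6) hv))) h5

end lattice

end Pool.Agent.Run7.h741.MH
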