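import Pool.Agent.Run7.h741.MH.Prim
import Pool.Agent.W97.MT.Rat

/-!
The rational points in the class of the cusp `0`.
-/

set_option autoImplicit false

open Filter Topology MeasureTheory Set

namespace Pool.Agent.Run7.h741.MH

open Pool.Agent.W97.TW
open Pool.Agent.W97.MT (qq qq_ne norm_qq norm_qq_lt im_mul z_ne H_open QV iI iI_pos S_QEXP hasDerivAt_qq
  tpi_ne line_im line_re inv_I im_aux isCoprime_num_den rat_cast isCoprime_prime)

/-- the path of `hit24` -/
lemma hit24_id {a c w y : ℤ} (hc : 0 < c) (h : 24 * a * w - c * y = 1) (s : ℝ) (hs : 0 < s) :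
    (((-y : ℤ) : ℂ) * m24 (((-w / c : ℝ) : ℂ) + s * Complex.I) + a) /
      (24 * ((-w : ℤ) : ℂ) * m24 (((-w / c : ℝ) : ℂ) + s * Complex.I) + c) =
      (a : ℂ) / c + (((24 * (c : ℝ) ^ 2) * s)⁻¹ : ℝ) * Complex.I := by
  have hs' : (s : ℂ) ≠ 0 := by exact_mod_cast hs.ne'
  have hc' : (c : ℂ) ≠ 0 := by exact_mod_cast hc.ne'
  have h' : (24 : ℂ) * a * w - c * y = 1 := by exact_mod_cast h
  rw [inv_I _ _ hs.ne']
  have hz : 0 < (-(w : ℂ) / c + s * Complex.I).im := by
    have : -(w : ℂ) / c = ((-w / c : ℝ) : ℂ) := by push_cast; ring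
    rw [this]; simpa using hs
  have hz0 : (-(w : ℂ) / c + s * Complex.I) ≠ 0 := fun h0 => by rw [h0] at hz; simp at hz
  have hu : (s : ℂ) * Complex.I ≠ 0 := mul_ne_zero hs' Complex.I_ne_zero
  unfold m24
  push_cast
  set u : ℂ := (s : ℂ) * Complex.I with hu'
  have hz1 : -(w : ℂ) + c * u ≠ 0 := by
    intro h0
    apply hz0
    field_simp
    linear_combination h0
  have e1 : (24 : ℂ) * -w * (-1 / (24 * (-(w : ℂ) / c + u))) + c = c * c * u / (-(w : ℂ) + c * u) := by
    field_simp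
    ring
  have e2 : -(y : ℂ) * (-1 / (24 * (-(w : ℂ) / c + u))) + a = (c * y + 24 * a * (-w + c * u)) /
      (24 * (-(w : ℂ) + c * u)) := by
    field_simp
  rw [e1, e2]
  field_simp
  linear_combination -h'

lemma hit24 {a c w y : ℤ} (hc : 0 < c) (h : 24 * a * w - c * y = 1) : Hit ((a : ℂ) / c) m24 :=
  ⟨-y, a, -w, c, by linarith, 24 * (c : ℝ) ^ 2, -w / c, by positivity, fun s hs =>
    hit24_id hc h s hs⟩

theorem exists_hit_coprime (r : ℚ) (h : IsCoprime (r.den : ℤ) 24) : Hit (r : ℂ) m24 := by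
  have h : IsCoprime (24 * r.num) (r.den : ℤ) := h.symm.mul_left (isCoprime_num_den r)
  obtain ⟨u, v, huv⟩ := h
  rw [rat_cast]
  have := hit24 (a := r.num) (c := r.den) (w := u) (y := -v) (by exact_mod_cast r.den_pos)
    (by linarith)
  exact_mod_cast this

end Pool.Agent.Run7.h741.MH
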